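import Mathlib

/-!
Double covers of a product of projective lines branched along a form of multidegree (4,...,4):
definitions.
-/

namespace Pool.Agent.CYM

open MvPolynomial Topology

/-- The value at `s` of the binary quartic form with coefficients `q 0, ..., q 4`. -/
def qf {R : Type*} [CommRing R] (q : Fin 5 → R) (s : Fin 2 → R) : R :=
  q 0 * s 0 ^ 4 + q 1 * s 0 ^ 3 * s 1 + q 2 * s 0 ^ 2 * s 1 ^ 2 + q 3 * s 0 * s 1 ^ 3 + q 4 * s 1 ^ 4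

/-- The monomial of multidegree `(d, ..., d)` with exponents `m` in `n` pairs of variables. -/
def mono {R : Type*} [CommRing R] {n : ℕ} (d : ℕ) (x : Fin n → Fin 2 → R)
    (m : Fin n → Fin (d + 1)) : R :=
  ∏ i, x i 0 ^ (d - (m i : ℕ)) * x i 1 ^ (m i : ℕ)

/-- The value at `x` of the form of multidegree `(4, ..., 4)` with coefficients `F`. -/
def val {R : Type*} [CommRing R] {n : ℕ} (F : (Fin n → Fin 5) → R) (x : Fin n → Fin 2 → R) : R :=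
  ∑ m, F m * mono 4 x m

/-- The index set of the projective coordinates: the monomials of multidegree `(2, ..., 2)` and
one more coordinate. -/
abbrev Idx (n : ℕ) : Type := Option (Fin n → Fin 3)

/-- The point of projective space defined by `x` and `y`: its coordinates are `y` and the
monomials of multidegree `(2, ..., 2)` in `x`. -/
def pt {R : Type*} [CommRing R] {n : ℕ} (x : Fin n → Fin 2 → R) (y : R) : Idx n → R
  | none => y
  | some m => mono 2 x m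

/-- The embedding into the algebraic closure. -/
noncomputable abbrev ac (K : Type) [Field K] : K →+* AlgebraicClosure K :=
  algebraMap K (AlgebraicClosure K)

/-- The equations of the double cover `X : y ^ 2 = F x`: the homogeneous polynomials vanishing at
all its geometric points. -/
def eqs {K : Type} [Field K] {n : ℕ} (F : (Fin n → Fin 5) → K) : Set (MvPolynomial (Idx n) K) :=
  {g | (∃ d : ℕ, g.IsHomogeneous d) ∧
    ∀ (x : Fin n → Fin 2 → AlgebraicClosure K) (y : AlgebraicClosure K),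
      y ^ 2 = val (fun m => ac K (F m)) x → eval₂ (ac K) (pt x y) g = 0}

/-- The polynomials vanishing at the geometric points of the closed subset `x_j = c_j`
(`j` in `J`) of `X` (on the whole line spanned by such a point). -/
def subv {K : Type} [Field K] {n : ℕ} (F : (Fin n → Fin 5) → K) (J : Finset (Fin n))
    (c : Fin n → Fin 2 → K) : Set (MvPolynomial (Idx n) K) :=
  {g | ∀ (x : Fin n → Fin 2 → AlgebraicClosure K) (y t : AlgebraicClosure K),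
    (∀ j ∈ J, ∀ k, x j k = ac K (c j k)) → y ^ 2 = val (fun m => ac K (F m)) x →
      eval₂ (ac K) (t • pt x y) g = 0}

/-- The ideal of the local Zariski closure `Z_x` (written as in the frozen statement, with an
arbitrary finite set of coordinates): the polynomials over `K` vanishing on the line spanned by
`y` for all `y` near `x` in `X(K)`. -/
def localIdeal {K : Type} [Field K] {L : Type} [NontriviallyNormedField L] (σ : K →+* L)
    {ι : Type} (S : Set (MvPolynomial ι K)) (x : ι → L) : Set (MvPolynomial ι K) :=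
  {f | ∃ U ∈ 𝓝 x, ∀ y : ι → K, y ≠ 0 → (∀ g ∈ S, eval y g = 0) →
    (∃ c : L, c ≠ 0 ∧ (fun i => c * σ (y i)) ∈ U) → ∀ t : K, eval (t • y) f = 0}

/-! ### Auxiliary definitions (not used in the statement) -/

/-- The determinant of two vectors. -/
def dt {R : Type*} [CommRing R] (x y : Fin 2 → R) : R := x 0 * y 1 - x 1 * y 0

/-- The coefficients of the quartic form `s ↦ F (x with x_j replaced by s)`. -/
def fib {R : Type*} [CommRing R] {n : ℕ} (F : (Fin n → Fin 5) → R) (j : Fin n)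
    (x : Fin n → Fin 2 → R) (k : Fin 5) : R :=
  ∑ m with m j = k, F m * ∏ i ∈ Finset.univ.erase j, x i 0 ^ (4 - (m i : ℕ)) * x i 1 ^ (m i : ℕ)

/-- First component of the tripling map. -/
def T0 {R : Type*} [CommRing R] (a b c d e X Z : R) : R :=
  -64 * a ^ 3 * e * X ^ 9 - 192 * a ^ 2 * b * e * X ^ 8 * Z + 16 * a ^ 2 * c ^ 2 * X ^ 9 + 96 *
    a ^ 2 * c * d * X ^ 8 * Z + 144 * a ^ 2 * d ^ 2 * X ^ 7 * Z ^ 2 + 384 * a ^ 2 * d * e * X ^
    6 * Z ^ 3 + 384 * a ^ 2 * e ^ 2 * X ^ 5 * Z ^ 4 - 8 * a * b ^ 2 * c * X ^ 9 - 24 * a * b ^ 2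
    * d * X ^ 8 * Z - 240 * a * b ^ 2 * e * X ^ 7 * Z ^ 2 + 48 * a * b * c * d * X ^ 7 * Z ^ 2 -
    256 * a * b * c * e * X ^ 6 * Z ^ 3 + 144 * a * b * d ^ 2 * X ^ 6 * Z ^ 3 + 288 * a * b * d
    * e * X ^ 5 * Z ^ 4 + 384 * a * b * e ^ 2 * X ^ 4 * Z ^ 5 + 32 * a * c ^ 2 * d * X ^ 6 * Z ^
    3 - 96 * a * c ^ 2 * e * X ^ 5 * Z ^ 4 + 120 * a * c * d ^ 2 * X ^ 5 * Z ^ 4 + 192 * a * c *
    d * e * X ^ 4 * Z ^ 5 + 256 * a * c * e ^ 2 * X ^ 3 * Z ^ 6 + 72 * a * d ^ 3 * X ^ 4 * Z ^ 5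
    + 240 * a * d ^ 2 * e * X ^ 3 * Z ^ 6 + 384 * a * d * e ^ 2 * X ^ 2 * Z ^ 7 + 192 * a * e ^
    3 * X * Z ^ 8 + b ^ 4 * X ^ 9 - 12 * b ^ 3 * d * X ^ 7 * Z ^ 2 - 96 * b ^ 3 * e * X ^ 6 * Z
    ^ 3 - 8 * b ^ 2 * c * d * X ^ 6 * Z ^ 3 - 216 * b ^ 2 * c * e * X ^ 5 * Z ^ 4 + 30 * b ^ 2 *
    d ^ 2 * X ^ 5 * Z ^ 4 - 24 * b ^ 2 * d * e * X ^ 4 * Z ^ 5 + 48 * b ^ 2 * e ^ 2 * X ^ 3 * Z
    ^ 6 - 192 * b * c ^ 2 * e * X ^ 4 * Z ^ 5 + 48 * b * c * d ^ 2 * X ^ 4 * Z ^ 5 - 112 * b * c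
    * d * e * X ^ 3 * Z ^ 6 + 36 * b * d ^ 3 * X ^ 3 * Z ^ 6 + 48 * b * d ^ 2 * e * X ^ 2 * Z ^
    7 + 96 * b * d * e ^ 2 * X * Z ^ 8 + 64 * b * e ^ 3 * Z ^ 9 - 64 * c ^ 3 * e * X ^ 3 * Z ^ 6
    + 16 * c ^ 2 * d ^ 2 * X ^ 3 * Z ^ 6 - 96 * c ^ 2 * d * e * X ^ 2 * Z ^ 7 - 48 * c ^ 2 * e ^
    2 * X * Z ^ 8 + 24 * c * d ^ 3 * X ^ 2 * Z ^ 7 - 24 * c * d ^ 2 * e * X * Z ^ 8 - 32 * c * d
    * e ^ 2 * Z ^ 9 + 9 * d ^ 4 * X * Z ^ 8 + 8 * d ^ 3 * e * Z ^ 9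

/-- Second component of the tripling map. -/
def T1 {R : Type*} [CommRing R] (a b c d e X Z : R) : R :=
  64 * a ^ 3 * d * X ^ 9 + 192 * a ^ 3 * e * X ^ 8 * Z - 32 * a ^ 2 * b * c * X ^ 9 + 96 * a ^ 2
    * b * d * X ^ 8 * Z + 384 * a ^ 2 * b * e * X ^ 7 * Z ^ 2 - 48 * a ^ 2 * c ^ 2 * X ^ 8 * Z +
    256 * a ^ 2 * c * e * X ^ 6 * Z ^ 3 + 48 * a ^ 2 * d ^ 2 * X ^ 6 * Z ^ 3 + 384 * a ^ 2 * d *
    e * X ^ 5 * Z ^ 4 + 384 * a ^ 2 * e ^ 2 * X ^ 4 * Z ^ 5 + 8 * a * b ^ 3 * X ^ 9 - 24 * a * b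
    ^ 2 * c * X ^ 8 * Z + 48 * a * b ^ 2 * d * X ^ 7 * Z ^ 2 + 240 * a * b ^ 2 * e * X ^ 6 * Z ^
    3 - 96 * a * b * c ^ 2 * X ^ 7 * Z ^ 2 - 112 * a * b * c * d * X ^ 6 * Z ^ 3 + 192 * a * b *
    c * e * X ^ 5 * Z ^ 4 - 24 * a * b * d ^ 2 * X ^ 5 * Z ^ 4 + 288 * a * b * d * e * X ^ 4 * Z
    ^ 5 + 384 * a * b * e ^ 2 * X ^ 3 * Z ^ 6 - 64 * a * c ^ 3 * X ^ 6 * Z ^ 3 - 192 * a * c ^ 2
    * d * X ^ 5 * Z ^ 4 - 96 * a * c ^ 2 * e * X ^ 4 * Z ^ 5 - 216 * a * c * d ^ 2 * X ^ 4 * Z ^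
    5 - 256 * a * c * d * e * X ^ 3 * Z ^ 6 - 96 * a * d ^ 3 * X ^ 3 * Z ^ 6 - 240 * a * d ^ 2 *
    e * X ^ 2 * Z ^ 7 - 192 * a * d * e ^ 2 * X * Z ^ 8 - 64 * a * e ^ 3 * Z ^ 9 + 9 * b ^ 4 * X
    ^ 8 * Z + 24 * b ^ 3 * c * X ^ 7 * Z ^ 2 + 36 * b ^ 3 * d * X ^ 6 * Z ^ 3 + 72 * b ^ 3 * e *
    X ^ 5 * Z ^ 4 + 16 * b ^ 2 * c ^ 2 * X ^ 6 * Z ^ 3 + 48 * b ^ 2 * c * d * X ^ 5 * Z ^ 4 +
    120 * b ^ 2 * c * e * X ^ 4 * Z ^ 5 + 30 * b ^ 2 * d ^ 2 * X ^ 4 * Z ^ 5 + 144 * b ^ 2 * d *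
    e * X ^ 3 * Z ^ 6 + 144 * b ^ 2 * e ^ 2 * X ^ 2 * Z ^ 7 + 32 * b * c ^ 2 * e * X ^ 3 * Z ^ 6
    - 8 * b * c * d ^ 2 * X ^ 3 * Z ^ 6 + 48 * b * c * d * e * X ^ 2 * Z ^ 7 + 96 * b * c * e ^
    2 * X * Z ^ 8 - 12 * b * d ^ 3 * X ^ 2 * Z ^ 7 - 24 * b * d ^ 2 * e * X * Z ^ 8 + 16 * c ^ 2
    * e ^ 2 * Z ^ 9 - 8 * c * d ^ 2 * e * Z ^ 9 + d ^ 4 * Z ^ 9

/-- The tripling map of the curve `y ^ 2 = qf q s`. -/
def Tm {R : Type*} [CommRing R] (q : Fin 5 → R) (v : Fin 2 → R) : Fin 2 → R :=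
  ![T0 (q 0) (q 1) (q 2) (q 3) (q 4) (v 0) (v 1), T1 (q 0) (q 1) (q 2) (q 3) (q 4) (v 0) (v 1)]

/-- `3 ^ r` divides `x` in the valuation ring `O`. -/
def dv {K : Type} [Field K] (O : ValuationSubring K) (r : ℕ) (x : K) : Prop :=
  ∃ y ∈ O, x = 3 ^ r * y

/-- `O` is the valuation ring of a place unramified over `3`. -/
def Unr {K : Type} [Field K] (O : ValuationSubring K) : Prop :=
  ∀ x : K, x ∈ O.nonunits ↔ ∃ y ∈ O, x = 3 * y

/-- Unimodular vectors. -/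
def uni {K : Type} [Field K] (O : ValuationSubring K) (v : Fin 2 → K) : Prop :=
  (∀ k, v k ∈ O) ∧ ∃ k, ¬ dv O 1 (v k)

/-- Integral quartic forms without middle term and without zeros modulo `3`. -/
structure Good {K : Type} [Field K] (O : ValuationSubring K) (q : Fin 5 → K) : Prop where
  int : ∀ k, q k ∈ O
  mid : dv O 1 (q 2)
  root : ∀ v, uni O v → ¬ dv O 1 (qf q v)

/-- The hypotheses on `F`. -/
structure Hyp {K : Type} [Field K] (O : ValuationSubring K) {n : ℕ} (F : (Fin n → Fin 5) → K)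
    (f : Fin n → Fin 5 → K) : Prop where
  unr : Unr O
  good : ∀ i, Good O (f i)
  mid : ∀ i, f i 2 = 0
  cong : ∀ m, dv O 1 (F m - ∏ i, f i (m i))

/-- The generic point of the affine space of all `x`. -/
noncomputable def gen (K : Type) [Field K] (n : ℕ) : Fin n → Fin 2 → MvPolynomial (Fin n × Fin 2) K :=
  fun i k => X (i, k)

/-- The polynomial whose vanishing means that `x_j` is a periodic point, of period dividing `M`,
of the tripling map of the curve in direction `j` through `x`. -/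
noncomputable def Gp {K : Type} [Field K] {n : ℕ} (M : ℕ) (F : (Fin n → Fin 5) → K) (j : Fin n) :
    MvPolynomial (Fin n × Fin 2) K :=
  dt ((Tm (fib (fun m => C (F m)) j (gen K n)))^[M] (gen K n j)) (gen K n j)

/-- Evaluation of a polynomial at `x`. -/
noncomputable abbrev ev {K : Type} [Field K] {n : ℕ} (h : MvPolynomial (Fin n × Fin 2) K)
    (x : Fin n → Fin 2 → K) : K := eval (fun p => x p.1 p.2) h

/-- The vector over `L` defined by a vector over `K`. -/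
def sv {K L : Type} [Field K] [Field L] (σ : K →+* L) {ι : Type} (y : ι → K) : ι → L :=
  fun i => σ (y i)

/-- The rational point `y` lies, projectively, in `U`. -/
def Near {K L : Type} [Field K] [Field L] (σ : K →+* L) {ι : Type} (U : Set (ι → L))
    (y : ι → K) : Prop := ∃ c : L, c ≠ 0 ∧ c • sv σ y ∈ U

/-- All solutions in `K` of `y ^ 2 = qf q s` lie over finitely many points of the line. -/
def FinC {K : Type} [Field K] (q : Fin 5 → K) : Prop :=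
  ∃ T : Finset (Fin 2 → K), ∀ (s : Fin 2 → K) (y : K), s ≠ 0 → y ^ 2 = qf q s →
    ∃ t ∈ T, t ≠ 0 ∧ dt s t = 0

end Pool.Agent.CYM
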