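import Mathlib
import Pool.Agent.CYM.Defs

/-!
Polynomial identities for the tripling map.
-/

namespace Pool.Agent.CYM

section Ring

variable {R : Type*} [CommRing R]

/-- Coefficients of the quartic form `qf q (X, z X + Z)`. -/
def shear (z : R) (q : Fin 5 → R) : Fin 5 → R :=
  ![q 0 + q 1 * z + q 2 * z ^ 2 + q 3 * z ^ 3 + q 4 * z ^ 4,
    q 1 + 2 * q 2 * z + 3 * q 3 * z ^ 2 + 4 * q 4 * z ^ 3,
    q 2 + 3 * q 3 * z + 6 * q 4 * z ^ 2, q 3 + 4 * q 4 * z, q 4]

/-- Coefficients of the quartic form `qf q (Z, X)`. -/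
def swp (q : Fin 5 → R) : Fin 5 → R := ![q 4, q 3, q 2, q 1, q 0]

private theorem TAlgA_T0_map {S : Type*} [CommRing S] (φ : R →+* S) (a b c d e X Z : R) :
    T0 (φ a) (φ b) (φ c) (φ d) (φ e) (φ X) (φ Z) = φ (T0 a b c d e X Z) := by
  simp only [T0, map_add, map_sub, map_mul, map_pow, map_neg, map_ofNat]

private theorem TAlgA_T1_map {S : Type*} [CommRing S] (φ : R →+* S) (a b c d e X Z : R) :
    T1 (φ a) (φ b) (φ c) (φ d) (φ e) (φ X) (φ Z) = φ (T1 a b c d e X Z) := by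
  simp only [T1, map_add, map_sub, map_mul, map_pow, map_ofNat]

theorem Tm_map {S : Type*} [CommRing S] (φ : R →+* S) (q : Fin 5 → R) (v : Fin 2 → R) :
    Tm (fun k => φ (q k)) (fun k => φ (v k)) = fun k => φ (Tm q v k) := by
  funext k
  fin_cases k
  · exact TAlgA_T0_map φ _ _ _ _ _ _ _
  · exact TAlgA_T1_map φ _ _ _ _ _ _ _

theorem qf_map {S : Type*} [CommRing S] (φ : R →+* S) (q : Fin 5 → R) (v : Fin 2 → R) :
    qf (fun k => φ (q k)) (fun k => φ (v k)) = φ (qf q v) := by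
  simp only [qf, map_add, map_mul, map_pow]

theorem dt_map {S : Type*} [CommRing S] (φ : R →+* S) (v w : Fin 2 → R) :
    dt (fun k => φ (v k)) (fun k => φ (w k)) = φ (dt v w) := by
  simp only [dt, map_sub, map_mul]

private theorem TAlgA_T0_smul_q (l a b c d e X Z : R) :
    T0 (l * a) (l * b) (l * c) (l * d) (l * e) X Z = l ^ 4 * T0 a b c d e X Z := by
  unfold T0
  ring

private theorem TAlgA_T1_smul_q (l a b c d e X Z : R) :
    T1 (l * a) (l * b) (l * c) (l * d) (l * e) X Z = l ^ 4 * T1 a b c d e X Z := by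
  unfold T1
  ring

private theorem TAlgA_T0_smul_v (l a b c d e X Z : R) :
    T0 a b c d e (l * X) (l * Z) = l ^ 9 * T0 a b c d e X Z := by
  unfold T0
  ring

private theorem TAlgA_T1_smul_v (l a b c d e X Z : R) :
    T1 a b c d e (l * X) (l * Z) = l ^ 9 * T1 a b c d e X Z := by
  unfold T1
  ring

theorem Tm_smul_q (l : R) (q : Fin 5 → R) (v : Fin 2 → R) :
    Tm (fun k => l * q k) v = fun k => l ^ 4 * Tm q v k := by
  funext k
  fin_cases k
  · exact TAlgA_T0_smul_q l _ _ _ _ _ _ _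
  · exact TAlgA_T1_smul_q l _ _ _ _ _ _ _

theorem Tm_smul_v (l : R) (q : Fin 5 → R) (v : Fin 2 → R) :
    Tm q (fun k => l * v k) = fun k => l ^ 9 * Tm q v k := by
  funext k
  fin_cases k
  · exact TAlgA_T0_smul_v l _ _ _ _ _ _ _
  · exact TAlgA_T1_smul_v l _ _ _ _ _ _ _

theorem qf_smul_q (l : R) (q : Fin 5 → R) (v : Fin 2 → R) :
    qf (fun k => l * q k) v = l * qf q v := by
  unfold qf
  ring

theorem qf_smul_v (l : R) (q : Fin 5 → R) (v : Fin 2 → R) :
    qf q (fun k => l * v k) = l ^ 4 * qf q v := by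
  unfold qf
  ring

theorem qf_shear (z : R) (q : Fin 5 → R) (X Z : R) :
    qf (shear z q) ![X, Z] = qf q ![X, z * X + Z] := by
  simp [qf, shear]
  ring

private theorem TAlgA_T0_shear (z a b c d e X Z : R) :
    T0 a b c d e X (z * X + Z) =
      T0 (a + b * z + c * z ^ 2 + d * z ^ 3 + e * z ^ 4)
        (b + 2 * c * z + 3 * d * z ^ 2 + 4 * e * z ^ 3) (c + 3 * d * z + 6 * e * z ^ 2)
        (d + 4 * e * z) e X Z := by
  unfold T0
  ring

private theorem TAlgA_T1_shear (z a b c d e X Z : R) :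
    T1 a b c d e X (z * X + Z) =
      z * T0 (a + b * z + c * z ^ 2 + d * z ^ 3 + e * z ^ 4)
        (b + 2 * c * z + 3 * d * z ^ 2 + 4 * e * z ^ 3) (c + 3 * d * z + 6 * e * z ^ 2)
        (d + 4 * e * z) e X Z +
      T1 (a + b * z + c * z ^ 2 + d * z ^ 3 + e * z ^ 4)
        (b + 2 * c * z + 3 * d * z ^ 2 + 4 * e * z ^ 3) (c + 3 * d * z + 6 * e * z ^ 2)
        (d + 4 * e * z) e X Z := by
  unfold T0 T1
  ring

theorem Tm_shear (z : R) (q : Fin 5 → R) (X Z : R) :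
    Tm q ![X, z * X + Z] =
      ![Tm (shear z q) ![X, Z] 0, z * Tm (shear z q) ![X, Z] 0 + Tm (shear z q) ![X, Z] 1] := by
  funext k
  fin_cases k
  · exact TAlgA_T0_shear z _ _ _ _ _ _ _
  · exact TAlgA_T1_shear z _ _ _ _ _ _ _

theorem qf_swp (q : Fin 5 → R) (X Z : R) : qf (swp q) ![Z, X] = qf q ![X, Z] := by
  simp [qf, swp]
  ring

private theorem TAlgA_T0_swp (a b c d e X Z : R) : T0 e d c b a Z X = T1 a b c d e X Z := by
  unfold T0 T1
  ring

theorem Tm_swp (q : Fin 5 → R) (X Z : R) :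
    Tm (swp q) ![Z, X] = ![Tm q ![X, Z] 1, Tm q ![X, Z] 0] := by
  funext k
  fin_cases k
  · exact TAlgA_T0_swp _ _ _ _ _ _ _
  · exact (TAlgA_T0_swp _ _ _ _ _ _ _).symm

end Ring

end Pool.Agent.CYM
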