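import Mathlib
import Pool.Agent.CYM.Defs
import Pool.Agent.CYM.TAlgA

/-!
Polynomial identities for the tripling map: reduction modulo `3` and expansion.
-/

namespace Pool.Agent.CYM

section Ring

variable {R : Type*} [CommRing R]

private theorem TAlgB_T0 (a b d e X Z : R) (h3 : (3 : R) = 0) :
    T0 a b 0 d e X Z = (b ^ 4 - a ^ 3 * e) * X ^ 9 + (b * e ^ 3 - d ^ 3 * e) * Z ^ 9 := by
  unfold T0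
  linear_combination (-21 * a ^ 3 * e * X ^ 9 - 64 * a ^ 2 * b * e * X ^ 8 * Z + 48 * a ^ 2 * d ^ 2 * X ^ 7 * Z ^
    2 + 128 * a ^ 2 * d * e * X ^ 6 * Z ^ 3 + 128 * a ^ 2 * e ^ 2 * X ^ 5 * Z ^ 4 - 8 * a * b ^
    2 * d * X ^ 8 * Z - 80 * a * b ^ 2 * e * X ^ 7 * Z ^ 2 + 48 * a * b * d ^ 2 * X ^ 6 * Z ^ 3
    + 96 * a * b * d * e * X ^ 5 * Z ^ 4 + 128 * a * b * e ^ 2 * X ^ 4 * Z ^ 5 + 24 * a * d ^ 3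
    * X ^ 4 * Z ^ 5 + 80 * a * d ^ 2 * e * X ^ 3 * Z ^ 6 + 128 * a * d * e ^ 2 * X ^ 2 * Z ^ 7 +
    64 * a * e ^ 3 * X * Z ^ 8 - 4 * b ^ 3 * d * X ^ 7 * Z ^ 2 - 32 * b ^ 3 * e * X ^ 6 * Z ^ 3
    + 10 * b ^ 2 * d ^ 2 * X ^ 5 * Z ^ 4 - 8 * b ^ 2 * d * e * X ^ 4 * Z ^ 5 + 16 * b ^ 2 * e ^
    2 * X ^ 3 * Z ^ 6 + 12 * b * d ^ 3 * X ^ 3 * Z ^ 6 + 16 * b * d ^ 2 * e * X ^ 2 * Z ^ 7 + 32
    * b * d * e ^ 2 * X * Z ^ 8 + 21 * b * e ^ 3 * Z ^ 9 + 3 * d ^ 4 * X * Z ^ 8 + 3 * d ^ 3 * e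
    * Z ^ 9) * h3

private theorem TAlgB_T1 (a b d e X Z : R) (h3 : (3 : R) = 0) :
    T1 a b 0 d e X Z = (a ^ 3 * d - a * b ^ 3) * X ^ 9 + (d ^ 4 - a * e ^ 3) * Z ^ 9 := by
  unfold T1
  linear_combination (21 * a ^ 3 * d * X ^ 9 + 64 * a ^ 3 * e * X ^ 8 * Z + 32 * a ^ 2 * b * d * X ^ 8 * Z + 128 *
    a ^ 2 * b * e * X ^ 7 * Z ^ 2 + 16 * a ^ 2 * d ^ 2 * X ^ 6 * Z ^ 3 + 128 * a ^ 2 * d * e * X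
    ^ 5 * Z ^ 4 + 128 * a ^ 2 * e ^ 2 * X ^ 4 * Z ^ 5 + 3 * a * b ^ 3 * X ^ 9 + 16 * a * b ^ 2 *
    d * X ^ 7 * Z ^ 2 + 80 * a * b ^ 2 * e * X ^ 6 * Z ^ 3 - 8 * a * b * d ^ 2 * X ^ 5 * Z ^ 4 +
    96 * a * b * d * e * X ^ 4 * Z ^ 5 + 128 * a * b * e ^ 2 * X ^ 3 * Z ^ 6 - 32 * a * d ^ 3 *
    X ^ 3 * Z ^ 6 - 80 * a * d ^ 2 * e * X ^ 2 * Z ^ 7 - 64 * a * d * e ^ 2 * X * Z ^ 8 - 21 * a
    * e ^ 3 * Z ^ 9 + 3 * b ^ 4 * X ^ 8 * Z + 12 * b ^ 3 * d * X ^ 6 * Z ^ 3 + 24 * b ^ 3 * e *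
    X ^ 5 * Z ^ 4 + 10 * b ^ 2 * d ^ 2 * X ^ 4 * Z ^ 5 + 48 * b ^ 2 * d * e * X ^ 3 * Z ^ 6 + 48
    * b ^ 2 * e ^ 2 * X ^ 2 * Z ^ 7 - 4 * b * d ^ 3 * X ^ 2 * Z ^ 7 - 8 * b * d ^ 2 * e * X * Z
    ^ 8) * h3

/-- The tripling map in characteristic `3` when the middle coefficient vanishes. -/
theorem Tm_mod (h3 : (3 : R) = 0) (q : Fin 5 → R) (hq : q 2 = 0) (v : Fin 2 → R) :
    Tm q v = ![(q 1 ^ 4 - q 0 ^ 3 * q 4) * v 0 ^ 9 + (q 1 * q 4 ^ 3 - q 3 ^ 3 * q 4) * v 1 ^ 9,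
      (q 0 ^ 3 * q 3 - q 0 * q 1 ^ 3) * v 0 ^ 9 + (q 3 ^ 4 - q 0 * q 4 ^ 3) * v 1 ^ 9] := by
  unfold Tm
  rw [hq, TAlgB_T0 _ _ _ _ _ _ h3, TAlgB_T1 _ _ _ _ _ _ h3]

/-- In characteristic `3`, when the middle coefficient vanishes. -/
theorem dt_Tm_mod (h3 : (3 : R) = 0) (q : Fin 5 → R) (hq : q 2 = 0) (v w : Fin 2 → R) :
    dt (Tm q v) (Tm q w) = (q 0 * q 4 - q 1 * q 3) ^ 4 * dt v w ^ 9 := by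
  rw [Tm_mod h3 q hq v, Tm_mod h3 q hq w]
  have h1 : ∀ x y : R, (x - y) ^ 9 = x ^ 9 - y ^ 9 := by
    intro x y
    linear_combination (-3 * x ^ 8 * y + 12 * x ^ 7 * y ^ 2 - 28 * x ^ 6 * y ^ 3 +
      42 * x ^ 5 * y ^ 4 - 42 * x ^ 4 * y ^ 5 + 28 * x ^ 3 * y ^ 6 - 12 * x ^ 2 * y ^ 7 +
      3 * x * y ^ 8) * h3
  have h2 : ∀ u t : R, (u - t) ^ 4 = u ^ 4 + t ^ 4 - u ^ 3 * t - u * t ^ 3 := by
    intro u t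
    linear_combination (-u ^ 3 * t + 2 * u ^ 2 * t ^ 2 - u * t ^ 3) * h3
  simp only [dt, Matrix.cons_val_zero, Matrix.cons_val_one]
  rw [h1, h2]
  ring

private theorem TAlgB_T0e (a b c d e s : R) :
    T0 a b c d e 1 s = (-64 * a ^ 3 * e + 16 * a ^ 2 * c ^ 2 - 8 * a * b ^ 2 * c + b ^ 4) +
      (-192 * a ^ 2 * b * e + 96 * a ^ 2 * c * d - 24 * a * b ^ 2 * d) * s +
      (144 * a ^ 2 * d ^ 2 - 240 * a * b ^ 2 * e + 48 * a * b * c * d - 12 * b ^ 3 * d) * s ^ 2 +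
      (384 * a ^ 2 * d * e + 384 * a ^ 2 * e ^ 2 * s - 256 * a * b * c * e + 144 * a * b * d ^ 2 +
    288 * a * b * d * e * s + 384 * a * b * e ^ 2 * s ^ 2 + 32 * a * c ^ 2 * d - 96 * a * c ^ 2
    * e * s + 120 * a * c * d ^ 2 * s + 192 * a * c * d * e * s ^ 2 + 256 * a * c * e ^ 2 * s ^
    3 + 72 * a * d ^ 3 * s ^ 2 + 240 * a * d ^ 2 * e * s ^ 3 + 384 * a * d * e ^ 2 * s ^ 4 + 192
    * a * e ^ 3 * s ^ 5 - 96 * b ^ 3 * e - 8 * b ^ 2 * c * d - 216 * b ^ 2 * c * e * s + 30 * b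
    ^ 2 * d ^ 2 * s - 24 * b ^ 2 * d * e * s ^ 2 + 48 * b ^ 2 * e ^ 2 * s ^ 3 - 192 * b * c ^ 2
    * e * s ^ 2 + 48 * b * c * d ^ 2 * s ^ 2 - 112 * b * c * d * e * s ^ 3 + 36 * b * d ^ 3 * s
    ^ 3 + 48 * b * d ^ 2 * e * s ^ 4 + 96 * b * d * e ^ 2 * s ^ 5 + 64 * b * e ^ 3 * s ^ 6 - 64
    * c ^ 3 * e * s ^ 3 + 16 * c ^ 2 * d ^ 2 * s ^ 3 - 96 * c ^ 2 * d * e * s ^ 4 - 48 * c ^ 2 *
    e ^ 2 * s ^ 5 + 24 * c * d ^ 3 * s ^ 4 - 24 * c * d ^ 2 * e * s ^ 5 - 32 * c * d * e ^ 2 * s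
    ^ 6 + 9 * d ^ 4 * s ^ 5 + 8 * d ^ 3 * e * s ^ 6) * s ^ 3 := by
  unfold T0
  ring

private theorem TAlgB_T1e (a b c d e s : R) :
    T1 a b c d e 1 s = (64 * a ^ 3 * d - 32 * a ^ 2 * b * c + 8 * a * b ^ 3) +
      (192 * a ^ 3 * e + 96 * a ^ 2 * b * d - 48 * a ^ 2 * c ^ 2 - 24 * a * b ^ 2 * c + 9 * b ^ 4) * s +
      (384 * a ^ 2 * b * e + 48 * a * b ^ 2 * d - 96 * a * b * c ^ 2 + 24 * b ^ 3 * c) * s ^ 2 +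
      (256 * a ^ 2 * c * e + 48 * a ^ 2 * d ^ 2 + 384 * a ^ 2 * d * e * s + 384 * a ^ 2 * e ^ 2 * s
    ^ 2 + 240 * a * b ^ 2 * e - 112 * a * b * c * d + 192 * a * b * c * e * s - 24 * a * b * d ^
    2 * s + 288 * a * b * d * e * s ^ 2 + 384 * a * b * e ^ 2 * s ^ 3 - 64 * a * c ^ 3 - 192 * a
    * c ^ 2 * d * s - 96 * a * c ^ 2 * e * s ^ 2 - 216 * a * c * d ^ 2 * s ^ 2 - 256 * a * c * d
    * e * s ^ 3 - 96 * a * d ^ 3 * s ^ 3 - 240 * a * d ^ 2 * e * s ^ 4 - 192 * a * d * e ^ 2 * s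
    ^ 5 - 64 * a * e ^ 3 * s ^ 6 + 36 * b ^ 3 * d + 72 * b ^ 3 * e * s + 16 * b ^ 2 * c ^ 2 + 48
    * b ^ 2 * c * d * s + 120 * b ^ 2 * c * e * s ^ 2 + 30 * b ^ 2 * d ^ 2 * s ^ 2 + 144 * b ^ 2
    * d * e * s ^ 3 + 144 * b ^ 2 * e ^ 2 * s ^ 4 + 32 * b * c ^ 2 * e * s ^ 3 - 8 * b * c * d ^
    2 * s ^ 3 + 48 * b * c * d * e * s ^ 4 + 96 * b * c * e ^ 2 * s ^ 5 - 12 * b * d ^ 3 * s ^ 4
    - 24 * b * d ^ 2 * e * s ^ 5 + 16 * c ^ 2 * e ^ 2 * s ^ 6 - 8 * c * d ^ 2 * e * s ^ 6 + d ^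
    4 * s ^ 6) * s ^ 3 := by
  unfold T1
  ring

private theorem TAlgB_c1 (a b c d e : R) :
    (-64 * a ^ 3 * e + 16 * a ^ 2 * c ^ 2 - 8 * a * b ^ 2 * c + b ^ 4) *
      (192 * a ^ 3 * e + 96 * a ^ 2 * b * d - 48 * a ^ 2 * c ^ 2 - 24 * a * b ^ 2 * c + 9 * b ^ 4) -
    (64 * a ^ 3 * d - 32 * a ^ 2 * b * c + 8 * a * b ^ 3) *
      (-192 * a ^ 2 * b * e + 96 * a ^ 2 * c * d - 24 * a * b ^ 2 * d) =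
      -3 * (4096 * a ^ 6 * e ^ 2 - 2048 * a ^ 5 * b * d * e - 2048 * a ^ 5 * c ^ 2 * e + 2048 * a ^ 5 *
    c * d ^ 2 + 2048 * a ^ 4 * b ^ 2 * c * e - 512 * a ^ 4 * b ^ 2 * d ^ 2 - 1536 * a ^ 4 * b *
    c ^ 2 * d + 256 * a ^ 4 * c ^ 4 - 384 * a ^ 3 * b ^ 4 * e + 768 * a ^ 3 * b ^ 3 * c * d - 96
    * a ^ 2 * b ^ 5 * d - 96 * a ^ 2 * b ^ 4 * c ^ 2 + 32 * a * b ^ 6 * c - 3 * b ^ 8) := by
  ring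

private theorem TAlgB_c2 (a b c d e : R) :
    (-64 * a ^ 3 * e + 16 * a ^ 2 * c ^ 2 - 8 * a * b ^ 2 * c + b ^ 4) *
      (384 * a ^ 2 * b * e + 48 * a * b ^ 2 * d - 96 * a * b * c ^ 2 + 24 * b ^ 3 * c) -
    (64 * a ^ 3 * d - 32 * a ^ 2 * b * c + 8 * a * b ^ 3) *
      (144 * a ^ 2 * d ^ 2 - 240 * a * b ^ 2 * e + 48 * a * b * c * d - 12 * b ^ 3 * d) =
      3 * (-8192 * a ^ 5 * b * e ^ 2 - 3072 * a ^ 5 * d ^ 3 + 4096 * a ^ 4 * b ^ 2 * d * e + 4096 * a ^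
    4 * b * c ^ 2 * e + 512 * a ^ 4 * b * c * d ^ 2 - 4096 * a ^ 3 * b ^ 3 * c * e - 128 * a ^ 3
    * b ^ 3 * d ^ 2 + 768 * a ^ 3 * b ^ 2 * c ^ 2 * d - 512 * a ^ 3 * b * c ^ 4 + 768 * a ^ 2 *
    b ^ 5 * e - 384 * a ^ 2 * b ^ 4 * c * d + 384 * a ^ 2 * b ^ 3 * c ^ 3 + 48 * a * b ^ 6 * d -
    96 * a * b ^ 5 * c ^ 2 + 8 * b ^ 7 * c) := by
  ring

private theorem TAlgB_aux (t0 t1 t2 t3 t4 u0 u1 u2 u3 u4 w d2 s : R)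
    (h1 : t0 * u1 - u0 * t1 = -3 * w) (h2 : t0 * u2 - u0 * t2 = 3 * d2) :
    (t0 + t1 * 0 + t2 * 0 ^ 2 + t4 * 0 ^ 3) * (u0 + u1 * s + u2 * s ^ 2 + u3 * s ^ 3) -
      (u0 + u1 * 0 + u2 * 0 ^ 2 + u4 * 0 ^ 3) * (t0 + t1 * s + t2 * s ^ 2 + t3 * s ^ 3) =
      -3 * s * w + 3 * s ^ 2 * d2 + s ^ 3 * (t0 * u3 - u0 * t3) := by
  linear_combination s * h1 + s ^ 2 * h2

private theorem TAlgB_w (a b c d e : R) :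
    4096 * a ^ 6 * e ^ 2 - 2048 * a ^ 5 * b * d * e - 2048 * a ^ 5 * c ^ 2 * e + 2048 * a ^ 5 *
    c * d ^ 2 + 2048 * a ^ 4 * b ^ 2 * c * e - 512 * a ^ 4 * b ^ 2 * d ^ 2 - 1536 * a ^ 4 * b *
    c ^ 2 * d + 256 * a ^ 4 * c ^ 4 - 384 * a ^ 3 * b ^ 4 * e + 768 * a ^ 3 * b ^ 3 * c * d - 96
    * a ^ 2 * b ^ 5 * d - 96 * a ^ 2 * b ^ 4 * c ^ 2 + 32 * a * b ^ 6 * c - 3 * b ^ 8 =
      a ^ 4 * (a * e - b * d) ^ 2 + 3 * (1365 * a ^ 6 * e ^ 2 - 682 * a ^ 5 * b * d * e - 171 * a ^ 4 * b ^ 2 * d ^ 2 - 128 * a ^ 3 *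
    b ^ 4 * e - 32 * a ^ 2 * b ^ 5 * d - b ^ 8) +
      c * (-2048 * a ^ 5 * c * e + 2048 * a ^ 5 * d ^ 2 + 2048 * a ^ 4 * b ^ 2 * e - 1536 * a ^ 4 * b *
    c * d + 256 * a ^ 4 * c ^ 3 + 768 * a ^ 3 * b ^ 3 * d - 96 * a ^ 2 * b ^ 4 * c + 32 * a * b
    ^ 6) := by
  ring

private theorem TAlgB_T0z (a b c d e : R) :
    T0 a b c d e 1 0 = -64 * a ^ 3 * e + 16 * a ^ 2 * c ^ 2 - 8 * a * b ^ 2 * c + b ^ 4 := by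
  unfold T0
  ring

private theorem TAlgB_T1z (a b c d e : R) :
    T1 a b c d e 1 0 = 64 * a ^ 3 * d - 32 * a ^ 2 * b * c + 8 * a * b ^ 3 := by
  unfold T1
  ring

private theorem TAlgB_W (a b c d e : R) :
    a * (-64 * a ^ 3 * e + 16 * a ^ 2 * c ^ 2 - 8 * a * b ^ 2 * c + b ^ 4) ^ 4 +
      b * (-64 * a ^ 3 * e + 16 * a ^ 2 * c ^ 2 - 8 * a * b ^ 2 * c + b ^ 4) ^ 3 *
        (64 * a ^ 3 * d - 32 * a ^ 2 * b * c + 8 * a * b ^ 3) +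
      c * (-64 * a ^ 3 * e + 16 * a ^ 2 * c ^ 2 - 8 * a * b ^ 2 * c + b ^ 4) ^ 2 *
        (64 * a ^ 3 * d - 32 * a ^ 2 * b * c + 8 * a * b ^ 3) ^ 2 +
      d * (-64 * a ^ 3 * e + 16 * a ^ 2 * c ^ 2 - 8 * a * b ^ 2 * c + b ^ 4) *
        (64 * a ^ 3 * d - 32 * a ^ 2 * b * c + 8 * a * b ^ 3) ^ 3 +
      e * (64 * a ^ 3 * d - 32 * a ^ 2 * b * c + 8 * a * b ^ 3) ^ 4 =
      a * (4096 * a ^ 6 * e ^ 2 - 2048 * a ^ 5 * b * d * e - 2048 * a ^ 5 * c ^ 2 * e + 2048 * a ^ 5 *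
    c * d ^ 2 + 2048 * a ^ 4 * b ^ 2 * c * e - 512 * a ^ 4 * b ^ 2 * d ^ 2 - 1536 * a ^ 4 * b *
    c ^ 2 * d + 256 * a ^ 4 * c ^ 4 - 384 * a ^ 3 * b ^ 4 * e + 768 * a ^ 3 * b ^ 3 * c * d - 96
    * a ^ 2 * b ^ 5 * d - 96 * a ^ 2 * b ^ 4 * c ^ 2 + 32 * a * b ^ 6 * c - 3 * b ^ 8) ^ 2 := by
  ring

/-- Expansion near `(1, 0)`. -/
theorem dt_Tm_one (q : Fin 5 → R) (s : R) : ∃ w d2 d3 e1 e2 : R,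
    dt (Tm q ![1, 0]) (Tm q ![1, s]) = -3 * s * w + 3 * s ^ 2 * d2 + s ^ 3 * d3 ∧
      w = q 0 ^ 4 * (q 0 * q 4 - q 1 * q 3) ^ 2 + 3 * e1 + q 2 * e2 := by
  have hd : dt (Tm q ![1, 0]) (Tm q ![1, s]) =
      T0 (q 0) (q 1) (q 2) (q 3) (q 4) 1 0 * T1 (q 0) (q 1) (q 2) (q 3) (q 4) 1 s -
      T1 (q 0) (q 1) (q 2) (q 3) (q 4) 1 0 * T0 (q 0) (q 1) (q 2) (q 3) (q 4) 1 s := rfl
  rw [TAlgB_T0e _ _ _ _ _ 0, TAlgB_T1e _ _ _ _ _ 0, TAlgB_T0e _ _ _ _ _ s,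
    TAlgB_T1e _ _ _ _ _ s, TAlgB_aux _ _ _ _ _ _ _ _ _ _ _ _ s
      (TAlgB_c1 (q 0) (q 1) (q 2) (q 3) (q 4)) (TAlgB_c2 (q 0) (q 1) (q 2) (q 3) (q 4))] at hd
  exact ⟨_, _, _, _, _, hd, TAlgB_w (q 0) (q 1) (q 2) (q 3) (q 4)⟩

theorem exists_W_one (q : Fin 5 → R) : ∃ W, qf q (Tm q ![1, 0]) = qf q ![1, 0] * W ^ 2 := by
  have h := TAlgB_W (q 0) (q 1) (q 2) (q 3) (q 4)
  have h1 : qf q ![1, 0] = q 0 := by simp [qf]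
  have h2 : qf q (Tm q ![1, 0]) = q 0 * T0 (q 0) (q 1) (q 2) (q 3) (q 4) 1 0 ^ 4 +
      q 1 * T0 (q 0) (q 1) (q 2) (q 3) (q 4) 1 0 ^ 3 * T1 (q 0) (q 1) (q 2) (q 3) (q 4) 1 0 +
      q 2 * T0 (q 0) (q 1) (q 2) (q 3) (q 4) 1 0 ^ 2 * T1 (q 0) (q 1) (q 2) (q 3) (q 4) 1 0 ^ 2 +
      q 3 * T0 (q 0) (q 1) (q 2) (q 3) (q 4) 1 0 * T1 (q 0) (q 1) (q 2) (q 3) (q 4) 1 0 ^ 3 +
      q 4 * T1 (q 0) (q 1) (q 2) (q 3) (q 4) 1 0 ^ 4 := rfl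
  rw [TAlgB_T0z, TAlgB_T1z, h] at h2
  rw [h1]
  exact ⟨_, h2⟩

end Ring

/-- The tripling map lifts to the curve. -/
theorem exists_W {K : Type*} [Field K] (q : Fin 5 → K) (v : Fin 2 → K) :
    ∃ W, qf q (Tm q v) = qf q v * W ^ 2 := by
  have key : ∀ (q : Fin 5 → K) (z : K),
      ∃ W, qf q (Tm q ![1, z]) = qf q ![1, z] * W ^ 2 := by
    intro q z
    obtain ⟨W, hW⟩ := exists_W_one (shear z q)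
    refine ⟨W, ?_⟩
    have h1 := Tm_shear z q 1 0
    have h2 := qf_shear z q 1 0
    rw [mul_one, add_zero] at h1 h2
    rw [h1, ← h2, ← hW, ← qf_shear]
    congr 1
  have key2 : ∀ (q : Fin 5 → K) (v : Fin 2 → K), v 0 ≠ 0 →
      ∃ W, qf q (Tm q v) = qf q v * W ^ 2 := by
    intro q v hv
    obtain ⟨W, hW⟩ := key q (v 1 / v 0)
    have hv' : v = fun k => v 0 * ![1, v 1 / v 0] k := by
      funext k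
      fin_cases k
      · simp
      · simp [mul_div_cancel₀ _ hv]
    refine ⟨v 0 ^ 16 * W, ?_⟩
    have e1 : qf q v = v 0 ^ 4 * qf q ![1, v 1 / v 0] := by
      conv_lhs => rw [hv']
      exact qf_smul_v _ _ _
    have e2 : Tm q v = fun k => v 0 ^ 9 * Tm q ![1, v 1 / v 0] k := by
      conv_lhs => rw [hv']
      exact Tm_smul_v _ _ _
    rw [e2, qf_smul_v, hW, e1]
    ring
  by_cases h0 : v 0 = 0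
  · by_cases h1 : v 1 = 0
    · have hv : v = fun k => (0 : K) * v k := by
        funext k
        fin_cases k
        · simp [h0]
        · simp [h1]
      refine ⟨0, ?_⟩
      rw [hv, Tm_smul_v, qf_smul_v, qf_smul_v]
      ring
    · obtain ⟨W, hW⟩ := key2 (swp q) ![v 1, v 0] (by simpa using h1)
      refine ⟨W, ?_⟩
      rw [Tm_swp, qf_swp, qf_swp] at hW
      have hv : ![v 0, v 1] = v := by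
        funext k
        fin_cases k <;> rfl
      rw [hv] at hW
      rw [← hW]
      congr 1
  · exact key2 q v h0

end Pool.Agent.CYM
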