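import Mathlib
import Pool.Agent.CYM.Defs

/-!
Divisibility by powers of `3` in the valuation ring.
-/

namespace Pool.Agent.CYM

section Basic

variable {K : Type} [Field K] {O : ValuationSubring K} {r s : ℕ} {x y u : K}

theorem dv_zero_iff : dv O 0 x ↔ x ∈ O := by
  constructor
  · rintro ⟨y, hy, rfl⟩
    simpa using hy
  · intro hx
    exact ⟨x, hx, by simp⟩

theorem dv_one_iff (hO : Unr O) : dv O 1 x ↔ x ∈ O.nonunits := by
  rw [hO x]
  constructor
  · rintro ⟨y, hy, rfl⟩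
    exact ⟨y, hy, by rw [pow_one]⟩
  · rintro ⟨y, hy, rfl⟩
    exact ⟨y, hy, by rw [pow_one]⟩

private theorem VRingA_three_mem (O : ValuationSubring K) : (3 : K) ∈ O := by
  have h1 : (1 : K) ∈ O := O.one_mem
  have h3 : (3 : K) = 1 + 1 + 1 := by norm_num
  rw [h3]
  exact O.add_mem _ _ (O.add_mem _ _ h1 h1) h1

private theorem VRingA_pow_mem (O : ValuationSubring K) {x : K} (hx : x ∈ O) (r : ℕ) :
    x ^ r ∈ O := by
  induction r with
  | zero => simpa using O.one_mem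
  | succ r ih =>
    rw [pow_succ]
    exact O.mul_mem _ _ ih hx

theorem three_pow_mem (O : ValuationSubring K) (r : ℕ) : (3 : K) ^ r ∈ O :=
  VRingA_pow_mem O (VRingA_three_mem O) r

theorem dv.mem (h : dv O r x) : x ∈ O := by
  obtain ⟨y, hy, rfl⟩ := h
  exact O.mul_mem _ _ (three_pow_mem O r) hy

theorem dv_self_zero (r : ℕ) : dv O r (0 : K) :=
  ⟨0, O.zero_mem, by simp⟩

theorem dv.add (h : dv O r x) (h' : dv O r y) : dv O r (x + y) := by
  obtain ⟨a, ha, rfl⟩ := h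
  obtain ⟨b, hb, rfl⟩ := h'
  exact ⟨a + b, O.add_mem _ _ ha hb, by ring⟩

theorem dv.neg (h : dv O r x) : dv O r (-x) := by
  obtain ⟨a, ha, rfl⟩ := h
  exact ⟨-a, O.neg_mem _ ha, by ring⟩

theorem dv.sub (h : dv O r x) (h' : dv O r y) : dv O r (x - y) := by
  rw [sub_eq_add_neg]
  exact h.add h'.neg

theorem dv.mul (h : dv O r x) (h' : dv O s y) : dv O (r + s) (x * y) := by
  obtain ⟨a, ha, rfl⟩ := h
  obtain ⟨b, hb, rfl⟩ := h'
  exact ⟨a * b, O.mul_mem _ _ ha hb, by ring⟩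

theorem dv.mul_left (hx : x ∈ O) (h : dv O r y) : dv O r (x * y) := by
  obtain ⟨b, hb, rfl⟩ := h
  exact ⟨x * b, O.mul_mem _ _ hx hb, by ring⟩

theorem dv.mul_right (h : dv O r x) (hy : y ∈ O) : dv O r (x * y) := by
  obtain ⟨b, hb, rfl⟩ := h
  exact ⟨b * y, O.mul_mem _ _ hb hy, by ring⟩

theorem dv.mono (h : dv O s x) (hrs : r ≤ s) : dv O r x := by
  obtain ⟨b, hb, rfl⟩ := h
  obtain ⟨t, rfl⟩ := Nat.exists_eq_add_of_le hrs
  exact ⟨3 ^ t * b, O.mul_mem _ _ (three_pow_mem O t) hb, by ring⟩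

theorem dv.sum {ι : Type*} {T : Finset ι} {g : ι → K} (h : ∀ i ∈ T, dv O r (g i)) :
    dv O r (∑ i ∈ T, g i) := by
  classical
  induction T using Finset.induction_on with
  | empty => simpa using dv_self_zero (O := O) r
  | insert a T ha ih =>
    rw [Finset.sum_insert ha]
    exact (h a (Finset.mem_insert_self a T)).add
      (ih fun i hi => h i (Finset.mem_insert_of_mem hi))

theorem dv_three_mul [CharZero K] : dv O (r + 1) (3 * x) ↔ dv O r x := by
  constructor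
  · rintro ⟨y, hy, h⟩
    refine ⟨y, hy, ?_⟩
    have h3 : (3 : K) ≠ 0 := by norm_num
    apply mul_left_cancel₀ h3
    rw [h]
    ring
  · rintro ⟨y, hy, rfl⟩
    exact ⟨y, hy, by ring⟩

theorem one_not_dv (hO : Unr O) : ¬ dv O 1 (1 : K) := by
  rw [dv_one_iff hO, ValuationSubring.mem_nonunits_iff, map_one]
  exact lt_irrefl _

theorem unit_inv (hO : Unr O) (hx : x ∈ O) (h : ¬ dv O 1 x) :
    x ≠ 0 ∧ x⁻¹ ∈ O ∧ ¬ dv O 1 x⁻¹ := by
  have h0 : x ≠ 0 := by
    rintro rfl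
    exact h (dv_self_zero 1)
  have hv : O.valuation x = 1 := by
    rw [dv_one_iff hO, ValuationSubring.mem_nonunits_iff] at h
    exact le_antisymm ((O.valuation_le_one_iff x).2 hx) (not_lt.1 h)
  have hv' : O.valuation x⁻¹ = 1 := by
    rw [map_inv₀, hv, inv_one]
  refine ⟨h0, (O.valuation_le_one_iff _).1 hv'.le, ?_⟩
  rw [dv_one_iff hO, ValuationSubring.mem_nonunits_iff, hv']
  exact lt_irrefl _

theorem not_dv_mul (hO : Unr O) (hx : x ∈ O) (hy : y ∈ O) (h : ¬ dv O 1 x) (h' : ¬ dv O 1 y) :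
    ¬ dv O 1 (x * y) := by
  intro hxy
  obtain ⟨h0, hi, -⟩ := unit_inv hO hx h
  apply h'
  have : y = x⁻¹ * (x * y) := by
    rw [← mul_assoc, inv_mul_cancel₀ h0, one_mul]
  rw [this]
  exact dv.mul_left hi hxy

theorem not_dv_pow (hO : Unr O) (hx : x ∈ O) (h : ¬ dv O 1 x) (m : ℕ) : ¬ dv O 1 (x ^ m) := by
  induction m with
  | zero =>
    rw [pow_zero]
    exact one_not_dv hO
  | succ m ih =>
    rw [pow_succ]
    exact not_dv_mul hO (VRingA_pow_mem O hx m) hx ih h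

theorem dv_unit_mul (hO : Unr O) (hu : u ∈ O) (hu' : ¬ dv O 1 u) : dv O r (u * x) ↔ dv O r x := by
  constructor
  · intro h
    obtain ⟨h0, hi, -⟩ := unit_inv hO hu hu'
    have : x = u⁻¹ * (u * x) := by
      rw [← mul_assoc, inv_mul_cancel₀ h0, one_mul]
    rw [this]
    exact dv.mul_left hi h
  · intro h
    exact dv.mul_left hu h

/-- The quotient by the ideal `(3 ^ r)`: a ring and a ring homomorphism from `O` whose kernel is
`3 ^ r O`. -/
theorem dv_iff_quot (x : O) : dv O r (x : K) ↔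
    Ideal.Quotient.mk (Ideal.span {(3 : O) ^ r}) x = 0 := by
  rw [Ideal.Quotient.eq_zero_iff_mem, Ideal.mem_span_singleton]
  constructor
  · rintro ⟨y, hy, h⟩
    refine ⟨⟨y, hy⟩, ?_⟩
    apply Subtype.ext
    rw [h]
    push_cast
    rfl
  · rintro ⟨y, rfl⟩
    refine ⟨(y : K), y.2, ?_⟩
    push_cast
    rfl

end Basic

end Pool.Agent.CYM
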