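import Mathlib
import Pool.Agent.CYM.Defs
import Pool.Agent.CYM.VRingA

/-!
Divisibility by powers of `3` in the valuation ring of a number field.
-/

namespace Pool.Agent.CYM

section NF

variable {K : Type} [Field K] [NumberField K] {O : ValuationSubring K} {x : K}

private theorem vRingB_int (hO : Unr O) {b : ℤ} (hb : b ≠ 0) (h : ∀ r, dv O r (b : K)) : False := by
  have hf : FiniteMultiplicity (3 : ℤ) b := Int.finiteMultiplicity_iff.2 ⟨by decide, hb⟩
  obtain ⟨m, hm, hnd⟩ := hf.exists_eq_pow_mul_and_not_dvd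
  set v := multiplicity (3 : ℤ) b
  obtain ⟨y, hy, hyb⟩ := h (v + 1)
  have h1 : (m : K) = 3 * y := by
    have h2 : (3 : K) ^ v * (m : K) = 3 ^ v * (3 * y) := by
      have h3 : (b : K) = 3 ^ v * (m : K) := by
        rw [hm]; push_cast; rfl
      rw [← h3, hyb]
      ring
    exact mul_left_cancel₀ (pow_ne_zero _ three_ne_zero) h2
  have hcop : IsCoprime m 3 := by
    have : Prime (3 : ℤ) := Int.prime_three
    exact ((Prime.coprime_iff_not_dvd this).2 hnd).symm
  obtain ⟨a, c, hac⟩ := hcop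
  apply one_not_dv hO
  have h4 : (1 : K) = a * m + c * 3 := by exact_mod_cast hac.symm
  rw [h4, h1]
  refine ⟨a * y + c, add_mem (mul_mem (intCast_mem O a) hy) (intCast_mem O c), ?_⟩
  ring

theorem dv_all (hO : Unr O) (h : ∀ r, dv O r x) : x = 0 := by
  by_contra hx
  have hxO : x ∈ O := (h 0).mem
  have halg : IsAlgebraic ℤ x :=
    (IsFractionRing.isAlgebraic_iff ℤ ℚ K).2 (Algebra.IsAlgebraic.isAlgebraic x)
  obtain ⟨P, hP0, hP⟩ := halg.exists_nonzero_coeff_and_aeval_eq_zero
    (mem_nonZeroDivisors_of_ne_zero hx)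
  apply vRingB_int hO hP0
  intro r
  have h1 : Polynomial.aeval x P.divX * x + (P.coeff 0 : K) = 0 := by
    have h2 := congrArg (Polynomial.aeval x) (Polynomial.divX_mul_X_add P)
    rw [hP, map_add, map_mul, Polynomial.aeval_X, Polynomial.aeval_C] at h2
    simpa using h2
  have h3 : (P.coeff 0 : K) = -(Polynomial.aeval x P.divX * x) := by
    rw [eq_neg_iff_add_eq_zero, add_comm]; exact h1
  rw [h3]
  refine (dv.mul_left ?_ (h r)).neg
  rw [Polynomial.aeval_eq_sum_range]
  exact sum_mem fun i _ => zsmul_mem (pow_mem hxO i) _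

theorem dv_exact (hO : Unr O) (hx : x ≠ 0) (hxO : x ∈ O) : ∃ r, dv O r x ∧ ¬ dv O (r + 1) x := by
  classical
  have h : ∃ r, ¬ dv O r x := by
    by_contra hcon
    push Not at hcon
    exact hx (dv_all hO hcon)
  have h1 := Nat.find_spec h
  have h2 : Nat.find h ≠ 0 := by
    intro h3
    rw [h3] at h1
    exact h1 (dv_zero_iff.2 hxO)
  obtain ⟨k, hk⟩ := Nat.exists_eq_succ_of_ne_zero h2
  refine ⟨k, ?_, ?_⟩
  · by_contra h4
    have h5 := Nat.find_min' h h4
    omega
  · rw [hk] at h1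
    exact h1

end NF

end Pool.Agent.CYM
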