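import Mathlib
import Pool.Agent.CYM.Defs
import Pool.Agent.CYM.VRingA
import Pool.Agent.CYM.VRingB

/-!
Unimodular vectors.
-/

namespace Pool.Agent.CYM

variable {K : Type} [Field K] {O : ValuationSubring K} {v w : Fin 2 → K} {r : ℕ}

theorem uni.ne_zero (hv : uni O v) : v ≠ 0 := by
  rintro rfl
  obtain ⟨k, hk⟩ := hv.2
  exact hk (dv_self_zero 1)

theorem exists_uni (hO : Unr O) (hv : v ≠ 0) : ∃ κ : K, κ ≠ 0 ∧ uni O (fun k => κ * v k) := by
  have key : ∀ a b : Fin 2, (∀ k, k = a ∨ k = b) → v a ≠ 0 → v b * (v a)⁻¹ ∈ O →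
      ∃ κ : K, κ ≠ 0 ∧ uni O (fun k => κ * v k) := by
    intro a b hab ha hb
    refine ⟨(v a)⁻¹, inv_ne_zero ha, ?_, a, ?_⟩
    · intro k
      rcases hab k with rfl | rfl
      · show (v k)⁻¹ * v k ∈ O
        rw [inv_mul_cancel₀ ha]
        exact one_mem O
      · show (v a)⁻¹ * v k ∈ O
        rw [mul_comm]
        exact hb
    · show ¬ dv O 1 ((v a)⁻¹ * v a)
      rw [inv_mul_cancel₀ ha]
      exact one_not_dv hO
  have c01 : ∀ k : Fin 2, k = 0 ∨ k = 1 := by intro k; fin_cases k <;> simp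
  have c10 : ∀ k : Fin 2, k = 1 ∨ k = 0 := by intro k; fin_cases k <;> simp
  by_cases h0 : v 0 = 0
  · have h1 : v 1 ≠ 0 := by
      intro h1
      apply hv
      funext k
      rcases c01 k with rfl | rfl
      · exact h0
      · exact h1
    refine key 1 0 c10 h1 ?_
    rw [h0, zero_mul]
    exact zero_mem O
  · by_cases h1 : v 1 = 0
    · refine key 0 1 c01 h0 ?_
      rw [h1, zero_mul]
      exact zero_mem O
    · rcases O.mem_or_inv_mem (v 1 * (v 0)⁻¹) with h | h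
      · exact key 0 1 c01 h0 h
      · refine key 1 0 c10 h1 ?_
        rw [mul_inv, inv_inv, mul_comm] at h
        exact h

theorem uni.unit_mul (hO : Unr O) (hv : uni O v) {κ : K} (hκ : κ ∈ O) (hκ' : ¬ dv O 1 κ) :
    uni O (fun k => κ * v k) := by
  obtain ⟨k, hk⟩ := hv.2
  exact ⟨fun k => mul_mem hκ (hv.1 k), k, not_dv_mul hO hκ (hv.1 k) hκ' hk⟩

theorem uni_e0 (hO : Unr O) : uni O ![1, 0] := by
  refine ⟨?_, 0, ?_⟩
  · intro k
    fin_cases k
    · exact one_mem O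
    · exact zero_mem O
  · exact one_not_dv hO

theorem dt_mem (hv : ∀ k, v k ∈ O) (hw : ∀ k, w k ∈ O) : dt v w ∈ O := by
  unfold dt
  exact sub_mem (mul_mem (hv 0) (hw 1)) (mul_mem (hv 1) (hw 0))

private theorem Uni_aux (hO : Unr O) (hv : uni O v) (hw : uni O w) (hr : 1 ≤ r)
    (h : dv O r (dt v w)) : ∃ κ : K, κ ∈ O ∧ ¬ dv O 1 κ ∧ (∀ k, dv O r (w k - κ * v k)) ∧
      (dt v w = 0 → w = fun k => κ * v k) := by
  obtain ⟨a, ha⟩ := hv.2
  obtain ⟨hane, hainv, -⟩ := unit_inv hO (hv.1 a) ha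
  have hdt : ∀ k, ∃ s : K, s ∈ O ∧ w k - w a * (v a)⁻¹ * v k = s * dt v w := by
    intro k
    fin_cases a
    · fin_cases k
      · refine ⟨0, zero_mem O, ?_⟩
        have : v 0 ≠ 0 := hane
        show w 0 - w 0 * (v 0)⁻¹ * v 0 = 0 * dt v w
        rw [mul_assoc, inv_mul_cancel₀ this]; ring
      · refine ⟨(v 0)⁻¹, hainv, ?_⟩
        have : v 0 ≠ 0 := hane
        show w 1 - w 0 * (v 0)⁻¹ * v 1 = (v 0)⁻¹ * dt v w
        unfold dt
        field_simp
    · fin_cases k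
      · refine ⟨-(v 1)⁻¹, neg_mem hainv, ?_⟩
        have : v 1 ≠ 0 := hane
        show w 0 - w 1 * (v 1)⁻¹ * v 0 = -(v 1)⁻¹ * dt v w
        unfold dt
        field_simp
        ring
      · refine ⟨0, zero_mem O, ?_⟩
        have : v 1 ≠ 0 := hane
        show w 1 - w 1 * (v 1)⁻¹ * v 1 = 0 * dt v w
        rw [mul_assoc, inv_mul_cancel₀ this]; ring
  have hκ : w a * (v a)⁻¹ ∈ O := mul_mem (hw.1 a) hainv
  have hcl : ∀ k, dv O r (w k - w a * (v a)⁻¹ * v k) := by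
    intro k
    obtain ⟨s, hs, he⟩ := hdt k
    rw [he]
    exact dv.mul_left hs h
  refine ⟨w a * (v a)⁻¹, hκ, ?_, hcl, ?_⟩
  · intro hd
    obtain ⟨k, hk⟩ := hw.2
    apply hk
    have h1 := dv.add ((hcl k).mono hr) (dv.mul_right hd (hv.1 k))
    rwa [sub_add_cancel] at h1
  · intro h0
    funext k
    obtain ⟨s, hs, he⟩ := hdt k
    rw [h0, mul_zero] at he
    exact sub_eq_zero.1 he

/-- Proportional unimodular vectors. -/
theorem uni_par (hO : Unr O) (hv : uni O v) (hw : uni O w) (h : dt v w = 0) :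
    ∃ κ : K, κ ∈ O ∧ ¬ dv O 1 κ ∧ w = fun k => κ * v k := by
  obtain ⟨κ, h1, h2, -, h4⟩ := Uni_aux (r := 1) hO hv hw le_rfl (by rw [h]; exact dv_self_zero 1)
  exact ⟨κ, h1, h2, h4 h⟩

/-- Unimodular vectors proportional modulo `3 ^ r`. -/
theorem uni_close (hO : Unr O) (hv : uni O v) (hw : uni O w) (hr : 1 ≤ r)
    (h : dv O r (dt v w)) : ∃ κ : K, κ ∈ O ∧ ¬ dv O 1 κ ∧ ∀ k, dv O r (w k - κ * v k) := by
  obtain ⟨κ, h1, h2, h3, -⟩ := Uni_aux hO hv hw hr h
  exact ⟨κ, h1, h2, h3⟩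

theorem dt_close (hv : ∀ k, v k ∈ O) {κ : K} (h : ∀ k, dv O r (w k - κ * v k)) :
    dv O r (dt v w) := by
  have he : dt v w = v 0 * (w 1 - κ * v 1) - v 1 * (w 0 - κ * v 0) := by
    unfold dt; ring
  rw [he]
  exact dv.sub (dv.mul_left (hv 0) (h 1)) (dv.mul_left (hv 1) (h 0))

/-- Completion to a basis. -/
theorem uni_compl (hO : Unr O) (hv : uni O v) : ∃ e : Fin 2 → K, uni O e ∧ dt v e = 1 := by
  obtain ⟨a, ha⟩ := hv.2
  obtain ⟨hane, hainv, hand⟩ := unit_inv hO (hv.1 a) ha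
  fin_cases a
  · have h0 : v 0 ≠ 0 := hane
    refine ⟨![0, (v 0)⁻¹], ⟨?_, 1, ?_⟩, ?_⟩
    · intro k
      fin_cases k
      · exact zero_mem O
      · exact hainv
    · exact hand
    · simp [dt, h0]
  · have h1 : v 1 ≠ 0 := hane
    refine ⟨![-(v 1)⁻¹, 0], ⟨?_, 0, ?_⟩, ?_⟩
    · intro k
      fin_cases k
      · exact neg_mem hainv
      · exact zero_mem O
    · intro h
      have h2 := dv.neg h
      simp only [Matrix.cons_val_zero, neg_neg] at h2
      exact hand h2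
    · simp [dt, h1]

/-- Transitivity of congruence modulo `3`. -/
theorem dv_dt_trans (hO : Unr O) {u : Fin 2 → K} (hu : uni O u) (hv : uni O v) (hw : uni O w)
    (hr : 1 ≤ r) (h : dv O r (dt u v)) (h' : dv O r (dt v w)) : dv O r (dt u w) := by
  obtain ⟨κ, hκ, -, h1⟩ := uni_close hO hu hv hr h
  obtain ⟨κ', hκ', -, h2⟩ := uni_close hO hv hw hr h'
  refine dt_close (κ := κ' * κ) hu.1 fun k => ?_
  have he : w k - κ' * κ * u k = (w k - κ' * v k) + κ' * (v k - κ * u k) := by ring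
  rw [he]
  exact dv.add (h2 k) (dv.mul_left hκ' (h1 k))

theorem dt_comm (v w : Fin 2 → K) : dt v w = -dt w v := by
  simp only [dt]; ring

end Pool.Agent.CYM
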