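import Mathlib
import Pool.Agent.CYM.Defs
import Pool.Agent.CYM.TAlgA
import Pool.Agent.CYM.TAlgB
import Pool.Agent.CYM.VRingA
import Pool.Agent.CYM.VRingB
import Pool.Agent.CYM.Uni

/-!
The tripling map of a good quartic form: reduction and contraction of residue discs.
-/

namespace Pool.Agent.CYM

variable {K : Type} [Field K] [CharZero K] {O : ValuationSubring K} {q q' : Fin 5 → K}
  {v w : Fin 2 → K} {r : ℕ}

private theorem TGoodA_root0 (hO : Unr O) (hq : Good O q) : ¬ dv O 1 (q 0) := by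
  have h := hq.root ![1, 0] (uni_e0 hO)
  have h6 : qf q ![1, 0] = q 0 := by simp [qf]
  rwa [h6] at h

omit [CharZero K] in
private theorem TGoodA_nat_mem (n : ℕ) : (n : K) ∈ O := natCast_mem O n

theorem good_unit (hO : Unr O) (hq : Good O q) : ¬ dv O 1 (q 0 * q 4 - q 1 * q 3) := by
  intro h
  have h0 := TGoodA_root0 hO hq
  have hu : uni O ![-q 1, q 0] := by
    refine ⟨?_, 1, ?_⟩
    · intro k
      fin_cases k
      · exact neg_mem (hq.int 1)
      · exact hq.int 0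
    · simpa using h0
  apply hq.root _ hu
  have e : qf q ![-q 1, q 0] =
      q 2 * (q 1 ^ 2 * q 0 ^ 2) + q 0 ^ 3 * (q 0 * q 4 - q 1 * q 3) := by
    simp only [qf, Matrix.cons_val_zero, Matrix.cons_val_one]
    ring
  rw [e]
  exact (hq.mid.mul_right (mul_mem (pow_mem (hq.int 1) 2) (pow_mem (hq.int 0) 2))).add
    (h.mul_left (pow_mem (hq.int 0) 3))

theorem qf_mem (hq : ∀ k, q k ∈ O) (hv : ∀ k, v k ∈ O) : qf q v ∈ O := by
  have h := qf_map O.subtype (fun k => (⟨q k, hq k⟩ : O)) (fun k => (⟨v k, hv k⟩ : O))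
  have h2 : qf q v = O.subtype (qf (fun k => (⟨q k, hq k⟩ : O)) (fun k => (⟨v k, hv k⟩ : O))) := h
  rw [h2]
  exact (qf (fun k => (⟨q k, hq k⟩ : O)) (fun k => (⟨v k, hv k⟩ : O))).2

theorem good_shear (hO : Unr O) (hq : Good O q) {z : K} (hz : z ∈ O) : Good O (shear z q) := by
  have n2 : (2 : K) ∈ O := by simpa using TGoodA_nat_mem (O := O) 2
  have n3 : (3 : K) ∈ O := by simpa using TGoodA_nat_mem (O := O) 3
  have n4 : (4 : K) ∈ O := by simpa using TGoodA_nat_mem (O := O) 4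
  have n6 : (6 : K) ∈ O := by simpa using TGoodA_nat_mem (O := O) 6
  have i := hq.int
  refine ⟨?_, ?_, ?_⟩
  · intro k
    fin_cases k
    · exact add_mem (add_mem (add_mem (add_mem (i 0) (mul_mem (i 1) hz))
        (mul_mem (i 2) (pow_mem hz 2))) (mul_mem (i 3) (pow_mem hz 3)))
        (mul_mem (i 4) (pow_mem hz 4))
    · exact add_mem (add_mem (add_mem (i 1) (mul_mem (mul_mem n2 (i 2)) hz))
        (mul_mem (mul_mem n3 (i 3)) (pow_mem hz 2))) (mul_mem (mul_mem n4 (i 4)) (pow_mem hz 3))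
    · exact add_mem (add_mem (i 2) (mul_mem (mul_mem n3 (i 3)) hz))
        (mul_mem (mul_mem n6 (i 4)) (pow_mem hz 2))
    · exact add_mem (i 3) (mul_mem (mul_mem n4 (i 4)) hz)
    · exact i 4
  · have e : shear z q 2 = q 2 + 3 ^ 1 * (q 3 * z + 2 * (q 4 * z ^ 2)) := by
      simp only [shear, Matrix.cons_val]
      ring
    rw [e]
    exact hq.mid.add ⟨_, add_mem (mul_mem (i 3) hz) (mul_mem n2 (mul_mem (i 4) (pow_mem hz 2))),
      rfl⟩
  · intro v hv
    have e : v = ![v 0, v 1] := by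
      funext k; fin_cases k <;> rfl
    rw [e, qf_shear]
    apply hq.root
    refine ⟨?_, ?_⟩
    · intro k
      fin_cases k
      · exact hv.1 0
      · exact add_mem (mul_mem hz (hv.1 0)) (hv.1 1)
    · by_cases h0 : dv O 1 (v 0)
      · refine ⟨1, ?_⟩
        have h1 : ¬ dv O 1 (v 1) := by
          obtain ⟨k, hk⟩ := hv.2
          fin_cases k
          · exact absurd h0 hk
          · exact hk
        intro h2
        apply h1
        have h3 : dv O 1 (z * v 0 + v 1) := h2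
        have h4 := h3.sub (h0.mul_left hz)
        have e2 : z * v 0 + v 1 - z * v 0 = v 1 := by ring
        rwa [e2] at h4
      · exact ⟨0, h0⟩

theorem good_swp (hO : Unr O) (hq : Good O q) : Good O (swp q) := by
  refine ⟨?_, ?_, ?_⟩
  · intro k
    fin_cases k
    · exact hq.int 4
    · exact hq.int 3
    · exact hq.int 2
    · exact hq.int 1
    · exact hq.int 0
  · exact hq.mid
  · intro v hv
    have e : v = ![v 0, v 1] := by
      funext k; fin_cases k <;> rfl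
    rw [e, qf_swp]
    apply hq.root
    refine ⟨?_, ?_⟩
    · intro k
      fin_cases k
      · exact hv.1 1
      · exact hv.1 0
    · obtain ⟨k, hk⟩ := hv.2
      fin_cases k
      · exact ⟨1, by simpa using hk⟩
      · exact ⟨0, by simpa using hk⟩

theorem good_smul (hO : Unr O) (hq : Good O q) {l : K} (hl : l ∈ O) (hl' : ¬ dv O 1 l) :
    Good O (fun k => l * q k) := by
  refine ⟨fun k => mul_mem hl (hq.int k), hq.mid.mul_left hl, fun v hv => ?_⟩
  rw [qf_smul_q]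
  exact not_dv_mul hO hl (qf_mem hq.int hv.1) hl' (hq.root v hv)

theorem good_congr (hO : Unr O) (hq : Good O q) (h : ∀ k, dv O 1 (q' k - q k)) : Good O q' := by
  have e : ∀ k, q' k = (q' k - q k) + q k := fun k => by ring
  refine ⟨fun k => ?_, ?_, fun v hv hd => ?_⟩
  · rw [e k]
    exact add_mem (h k).mem (hq.int k)
  · rw [e 2]
    exact (h 2).add hq.mid
  · apply hq.root v hv
    have e2 : qf q v = qf q' v - ((q' 0 - q 0) * (v 0 ^ 4) + (q' 1 - q 1) * (v 0 ^ 3 * v 1) +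
        (q' 2 - q 2) * (v 0 ^ 2 * v 1 ^ 2) + (q' 3 - q 3) * (v 0 * v 1 ^ 3) +
        (q' 4 - q 4) * (v 1 ^ 4)) := by
      simp only [qf]
      ring
    rw [e2]
    have a := hv.1 0
    have b := hv.1 1
    exact hd.sub (((((((h 0).mul_right (pow_mem a 4)).add
      ((h 1).mul_right (mul_mem (pow_mem a 3) b))).add
      ((h 2).mul_right (mul_mem (pow_mem a 2) (pow_mem b 2)))).add
      ((h 3).mul_right (mul_mem a (pow_mem b 3)))).add
      ((h 4).mul_right (pow_mem b 4))))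

theorem Tm_mem (hq : ∀ k, q k ∈ O) (hv : ∀ k, v k ∈ O) : ∀ k, Tm q v k ∈ O := by
  intro k
  have h := congrFun (Tm_map O.subtype (fun k => (⟨q k, hq k⟩ : O))
    (fun k => (⟨v k, hv k⟩ : O))) k
  have h2 : Tm q v k = O.subtype (Tm (fun k => (⟨q k, hq k⟩ : O))
    (fun k => (⟨v k, hv k⟩ : O)) k) := h
  rw [h2]
  exact (Tm (fun k => (⟨q k, hq k⟩ : O)) (fun k => (⟨v k, hv k⟩ : O)) k).2

/-- Congruences are preserved by the tripling map. -/
theorem Tm_congr (hq : ∀ k, q k ∈ O) (hq' : ∀ k, q' k ∈ O) (hv : ∀ k, v k ∈ O)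
    (h : ∀ k, dv O r (q k - q' k)) (k : Fin 2) : dv O r (Tm q v k - Tm q' v k) := by
  have h1 : Tm q v k = O.subtype (Tm (fun k => (⟨q k, hq k⟩ : O))
    (fun k => (⟨v k, hv k⟩ : O)) k) := congrFun (Tm_map O.subtype (fun k => (⟨q k, hq k⟩ : O))
    (fun k => (⟨v k, hv k⟩ : O))) k
  have h2 : Tm q' v k = O.subtype (Tm (fun k => (⟨q' k, hq' k⟩ : O))
    (fun k => (⟨v k, hv k⟩ : O)) k) := congrFun (Tm_map O.subtype (fun k => (⟨q' k, hq' k⟩ : O))
    (fun k => (⟨v k, hv k⟩ : O))) k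
  have h3 : Tm q v k - Tm q' v k = (((Tm (fun k => (⟨q k, hq k⟩ : O))
    (fun k => (⟨v k, hv k⟩ : O)) k) - (Tm (fun k => (⟨q' k, hq' k⟩ : O))
    (fun k => (⟨v k, hv k⟩ : O)) k) : O) : K) := by
    rw [h1, h2]
    rfl
  rw [h3, dv_iff_quot, map_sub, sub_eq_zero]
  have h4 := congrFun (Tm_map (Ideal.Quotient.mk (Ideal.span {(3 : O) ^ r}))
    (fun k => (⟨q k, hq k⟩ : O)) (fun k => (⟨v k, hv k⟩ : O))) k
  have h5 := congrFun (Tm_map (Ideal.Quotient.mk (Ideal.span {(3 : O) ^ r}))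
    (fun k => (⟨q' k, hq' k⟩ : O)) (fun k => (⟨v k, hv k⟩ : O))) k
  rw [← h4, ← h5]
  have h6 : (fun k => Ideal.Quotient.mk (Ideal.span {(3 : O) ^ r}) (⟨q k, hq k⟩ : O)) =
      fun k => Ideal.Quotient.mk (Ideal.span {(3 : O) ^ r}) (⟨q' k, hq' k⟩ : O) := by
    funext k
    rw [← sub_eq_zero, ← map_sub, ← dv_iff_quot]
    exact h k
  rw [h6]

/-- Modulo `3`. -/
theorem dt_Tm_congr (hO : Unr O) (hq : Good O q) (hv : ∀ k, v k ∈ O) (hw : ∀ k, w k ∈ O) :
    dv O 1 (dt (Tm q v) (Tm q w) - (q 0 * q 4 - q 1 * q 3) ^ 4 * dt v w ^ 9) := by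
  set qO : Fin 5 → O := fun k => (⟨q k, hq.int k⟩ : O) with hqO
  set vO : Fin 2 → O := fun k => (⟨v k, hv k⟩ : O) with hvO
  set wO : Fin 2 → O := fun k => (⟨w k, hw k⟩ : O) with hwO
  have h1 : Tm q v = fun k => O.subtype (Tm qO vO k) := Tm_map O.subtype qO vO
  have h2 : Tm q w = fun k => O.subtype (Tm qO wO k) := Tm_map O.subtype qO wO
  have h3 : dt (Tm q v) (Tm q w) - (q 0 * q 4 - q 1 * q 3) ^ 4 * dt v w ^ 9 =
      ((dt (Tm qO vO) (Tm qO wO) - (qO 0 * qO 4 - qO 1 * qO 3) ^ 4 * dt vO wO ^ 9 : O) : K) := by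
    rw [h1, h2, dt_map]
    rfl
  rw [h3, dv_iff_quot, map_sub, sub_eq_zero, map_mul, map_pow, map_pow, map_sub, map_mul, map_mul,
    ← dt_map, ← dt_map, ← Tm_map, ← Tm_map]
  apply dt_Tm_mod
  · have : (3 : O ⧸ Ideal.span {(3 : O) ^ 1}) =
        Ideal.Quotient.mk (Ideal.span {(3 : O) ^ 1}) (3 : O) := by
      rw [map_ofNat]
    rw [this, Ideal.Quotient.eq_zero_iff_mem, Ideal.mem_span_singleton]
    exact ⟨1, by ring⟩
  · rw [← dv_iff_quot]
    exact hq.mid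

omit [CharZero K] in
private theorem TGoodA_dt_dv (h : ∀ k, dv O 1 (v k)) (hw : ∀ k, w k ∈ O) : dv O 1 (dt v w) := by
  unfold dt
  exact ((h 0).mul_right (hw 1)).sub ((h 1).mul_right (hw 0))

theorem Tm_uni (hO : Unr O) (hq : Good O q) (hv : uni O v) : uni O (Tm q v) := by
  refine ⟨Tm_mem hq.int hv.1, ?_⟩
  obtain ⟨e, he, h1⟩ := uni_compl hO hv
  by_contra hcon
  push Not at hcon
  have h2 : dv O 1 (dt (Tm q v) (Tm q e)) := TGoodA_dt_dv hcon (Tm_mem hq.int he.1)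
  have h3 := h2.sub (dt_Tm_congr hO hq hv.1 he.1)
  have e3 : dt (Tm q v) (Tm q e) - (dt (Tm q v) (Tm q e) -
      (q 0 * q 4 - q 1 * q 3) ^ 4 * dt v e ^ 9) = (q 0 * q 4 - q 1 * q 3) ^ 4 := by
    rw [h1]; ring
  rw [e3] at h3
  have hm : q 0 * q 4 - q 1 * q 3 ∈ O :=
    sub_mem (mul_mem (hq.int 0) (hq.int 4)) (mul_mem (hq.int 1) (hq.int 3))
  exact not_dv_pow hO hm (good_unit hO hq) 4 h3

theorem Tm_inj (hO : Unr O) (hq : Good O q) (hv : uni O v) (hw : uni O w)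
    (h : dv O 1 (dt (Tm q v) (Tm q w))) : dv O 1 (dt v w) := by
  by_contra hcon
  have h3 := h.sub (dt_Tm_congr hO hq hv.1 hw.1)
  have e3 : dt (Tm q v) (Tm q w) - (dt (Tm q v) (Tm q w) -
      (q 0 * q 4 - q 1 * q 3) ^ 4 * dt v w ^ 9) =
      (q 0 * q 4 - q 1 * q 3) ^ 4 * dt v w ^ 9 := by ring
  rw [e3] at h3
  have hm : q 0 * q 4 - q 1 * q 3 ∈ O :=
    sub_mem (mul_mem (hq.int 0) (hq.int 4)) (mul_mem (hq.int 1) (hq.int 3))
  have hd : dt v w ∈ O := dt_mem hv.1 hw.1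
  exact not_dv_mul hO (pow_mem hm 4) (pow_mem hd 9) (not_dv_pow hO hm (good_unit hO hq) 4)
    (not_dv_pow hO hd hcon 9) h3

end Pool.Agent.CYM
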