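import Mathlib
import Pool.Agent.CYM.Defs
import Pool.Agent.CYM.TAlgA
import Pool.Agent.CYM.TAlgB
import Pool.Agent.CYM.VRingA
import Pool.Agent.CYM.VRingB
import Pool.Agent.CYM.Uni
import Pool.Agent.CYM.TGoodA

/-!
The tripling map of a good quartic form: reduction and contraction of residue discs.
-/

namespace Pool.Agent.CYM

variable {K : Type} [Field K] [CharZero K] {O : ValuationSubring K} {q q' : Fin 5 → K}
  {v w : Fin 2 → K} {r : ℕ}

private theorem TGoodB_expand (hO : Unr O) (hq : Good O q) {s : K} (hs : s ∈ O) :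
    ∃ a d2 d3 : K, a ∈ O ∧ d2 ∈ O ∧ d3 ∈ O ∧ ¬ dv O 1 a ∧
      dt (Tm q ![1, 0]) (Tm q ![1, s]) = -3 * s * a + 3 * s ^ 2 * d2 + s ^ 3 * d3 := by
  obtain ⟨a, d2, d3, e1, e2, h1, h2⟩ := dt_Tm_one (fun k => (⟨q k, hq.int k⟩ : O)) (⟨s, hs⟩ : O)
  have hv0 : (fun k => O.subtype ((![1, 0] : Fin 2 → O) k)) = ![1, 0] := by
    funext k; fin_cases k <;> simp
  have hv1 : (fun k => O.subtype ((![1, ⟨s, hs⟩] : Fin 2 → O) k)) = ![1, s] := by
    funext k; fin_cases k <;> simp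
  have hq' : (fun k => O.subtype ((fun k => (⟨q k, hq.int k⟩ : O)) k)) = q := by
    funext k; rfl
  have h3 := congrArg O.subtype h1
  rw [← dt_map] at h3
  rw [← Tm_map O.subtype, ← Tm_map O.subtype, hv0, hv1, hq'] at h3
  have h4 := congrArg O.subtype h2
  have h30 : ((3 : O) : K) = 3 := rfl
  refine ⟨a, d2, d3, a.2, d2.2, d3.2, ?_, ?_⟩
  · have h5 : (a : K) = q 0 ^ 4 * (q 0 * q 4 - q 1 * q 3) ^ 2 + 3 * (e1 : K) + q 2 * (e2 : K) := by
      simpa [h30] using h4
    intro h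
    have h0 : ¬ dv O 1 (q 0) := by
      have := hq.root ![1, 0] (uni_e0 hO)
      have h6 : qf q ![1, 0] = q 0 := by simp [qf]
      rwa [h6] at this
    have hm : q 0 * q 4 - q 1 * q 3 ∈ O :=
      sub_mem (mul_mem (hq.int 0) (hq.int 4)) (mul_mem (hq.int 1) (hq.int 3))
    have h7 : ¬ dv O 1 (q 0 ^ 4 * (q 0 * q 4 - q 1 * q 3) ^ 2) :=
      not_dv_mul hO (pow_mem (hq.int 0) 4) (pow_mem hm 2) (not_dv_pow hO (hq.int 0) h0 4)
        (not_dv_pow hO hm (good_unit hO hq) 2)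
    apply h7
    have h8 : dv O 1 (3 * (e1 : K)) := ⟨e1, e1.2, by ring⟩
    have h9 : dv O 1 (q 2 * (e2 : K)) := hq.mid.mul_right e2.2
    have h10 := (h.sub h8).sub h9
    rw [h5] at h10
    have h11 : q 0 ^ 4 * (q 0 * q 4 - q 1 * q 3) ^ 2 + 3 * (e1 : K) + q 2 * (e2 : K) -
      3 * (e1 : K) - q 2 * (e2 : K) = q 0 ^ 4 * (q 0 * q 4 - q 1 * q 3) ^ 2 := by ring
    rwa [h11] at h10
  · simpa [h30] using h3

private theorem TGoodB_core (hO : Unr O) (hq : Good O q) {s : K} (hr : 1 ≤ r) (hs : dv O r s) :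
    dv O (r + 1) (dt (Tm q ![1, 0]) (Tm q ![1, s])) ∧
      (dv O (r + 2) (dt (Tm q ![1, 0]) (Tm q ![1, s])) → dv O (r + 1) s) := by
  obtain ⟨a, d2, d3, ha, hd2, hd3, hau, h⟩ := TGoodB_expand hO hq hs.mem
  have h1 : dv O 1 (3 : K) := ⟨1, one_mem O, by ring⟩
  have hA : dv O (r + 1) (-3 * s * a) := by
    have := ((h1.mul hs).mul_right ha).neg
    rw [add_comm 1 r] at this
    have e : -(3 * s * a) = -3 * s * a := by ring
    rwa [e] at this
  have hB : dv O (r + 2) (3 * s ^ 2 * d2) := by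
    have := ((h1.mul (hs.mul hs)).mul_right hd2)
    have e : 3 * (s * s) * d2 = 3 * s ^ 2 * d2 := by ring
    rw [e] at this
    exact this.mono (by omega)
  have hC : dv O (r + 2) (s ^ 3 * d3) := by
    have := ((hs.mul (hs.mul hs)).mul_right hd3)
    have e : s * (s * s) * d3 = s ^ 3 * d3 := by ring
    rw [e] at this
    exact this.mono (by omega)
  refine ⟨?_, fun h' => ?_⟩
  · rw [h]
    exact (hA.add (hB.mono (by omega))).add (hC.mono (by omega))
  · rw [h] at h'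
    have h2 := (h'.sub hC).sub hB
    have e : -3 * s * a + 3 * s ^ 2 * d2 + s ^ 3 * d3 - s ^ 3 * d3 - 3 * s ^ 2 * d2 =
      -(3 * (a * s)) := by ring
    rw [e] at h2
    have h3 := h2.neg
    rw [neg_neg] at h3
    have h4 : dv O (r + 1) (a * s) := dv_three_mul.1 h3
    exact (dv_unit_mul hO ha hau).1 h4

private theorem TGoodB_zero (hO : Unr O) (hq : Good O q) (hv : uni O v) (hw : uni O w)
    (hr : 1 ≤ r) (h : dv O r (dt v w)) (hv0 : ¬ dv O 1 (v 0)) :
    dv O (r + 1) (dt (Tm q v) (Tm q w)) ∧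
      (dv O (r + 2) (dt (Tm q v) (Tm q w)) → dv O (r + 1) (dt v w)) := by
  obtain ⟨hv0', hv0i, -⟩ := unit_inv hO (hv.1 0) hv0
  -- the first entry of `w` is a unit
  have hw0 : ¬ dv O 1 (w 0) := by
    intro h0
    obtain ⟨k, hk⟩ := hw.2
    apply hk
    have h1 : dv O 1 (v 0 * w 1) := by
      have h2 := (h.mono hr).add (h0.mul_left (hv.1 1))
      have e : dt v w + v 1 * w 0 = v 0 * w 1 := by simp only [dt]; ring
      rwa [e] at h2
    have h2 : dv O 1 (w 1) := (dv_unit_mul hO (hv.1 0) hv0).1 h1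
    fin_cases k
    · exact h0
    · exact h2
  obtain ⟨hw0', hw0i, -⟩ := unit_inv hO (hw.1 0) hw0
  set z : K := v 1 * (v 0)⁻¹ with hz
  set s : K := dt v w * ((v 0)⁻¹ * (w 0)⁻¹) with hs
  have hzO : z ∈ O := mul_mem (hv.1 1) hv0i
  have hsr : dv O r s := h.mul_right (mul_mem hv0i hw0i)
  have hdt : dt v w = v 0 * w 0 * s := by
    rw [hs]; field_simp
  have hu : ¬ dv O 1 (v 0 * w 0) := not_dv_mul hO (hv.1 0) (hw.1 0) hv0 hw0
  have huO : v 0 * w 0 ∈ O := mul_mem (hv.1 0) (hw.1 0)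
  have hv' : v = fun k => v 0 * (![1, z * 1 + 0] : Fin 2 → K) k := by
    funext k
    fin_cases k
    · simp
    · simp [hz]; field_simp
  have hw' : w = fun k => w 0 * (![1, z * 1 + s] : Fin 2 → K) k := by
    funext k
    fin_cases k
    · simp
    · simp only [hz, hs, dt, Fin.mk_one, Matrix.cons_val_one, Matrix.cons_val_zero]
      simp
      field_simp
      ring
  have hT : dt (Tm q v) (Tm q w) =
      (v 0 * w 0) ^ 9 * dt (Tm (shear z q) ![1, 0]) (Tm (shear z q) ![1, s]) := by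
    have e1 : Tm q v = fun k => v 0 ^ 9 * Tm q ![1, z * 1 + 0] k := by
      conv_lhs => rw [hv']
      exact Tm_smul_v _ _ _
    have e2 : Tm q w = fun k => w 0 ^ 9 * Tm q ![1, z * 1 + s] k := by
      conv_lhs => rw [hw']
      exact Tm_smul_v _ _ _
    rw [e1, e2, Tm_shear, Tm_shear]
    simp only [dt, Matrix.cons_val_zero, Matrix.cons_val_one]
    ring
  have hcore := TGoodB_core hO (good_shear hO hq hzO) hr hsr
  have hu9 : ¬ dv O 1 ((v 0 * w 0) ^ 9) := not_dv_pow hO huO hu 9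
  have hu9O : (v 0 * w 0) ^ 9 ∈ O := pow_mem huO 9
  refine ⟨?_, fun h' => ?_⟩
  · rw [hT]
    exact (dv_unit_mul hO hu9O hu9).2 hcore.1
  · rw [hT] at h'
    rw [hdt]
    exact (dv_unit_mul hO huO hu).2 (hcore.2 ((dv_unit_mul hO hu9O hu9).1 h'))

private theorem TGoodB_both (hO : Unr O) (hq : Good O q) (hv : uni O v) (hw : uni O w)
    (hr : 1 ≤ r) (h : dv O r (dt v w)) :
    dv O (r + 1) (dt (Tm q v) (Tm q w)) ∧
      (dv O (r + 2) (dt (Tm q v) (Tm q w)) → dv O (r + 1) (dt v w)) := by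
  by_cases hv0 : dv O 1 (v 0)
  · have hv1 : ¬ dv O 1 (v 1) := by
      obtain ⟨k, hk⟩ := hv.2
      fin_cases k
      · exact absurd hv0 hk
      · exact hk
    have hsw : ∀ u : Fin 2 → K, uni O u → uni O ![u 1, u 0] := by
      intro u hu
      refine ⟨fun k => ?_, ?_⟩
      · fin_cases k
        · exact hu.1 1
        · exact hu.1 0
      · obtain ⟨k, hk⟩ := hu.2
        fin_cases k
        · exact ⟨1, by simpa using hk⟩
        · exact ⟨0, by simpa using hk⟩
    have hdt : ∀ u t : Fin 2 → K, dt ![u 1, u 0] ![t 1, t 0] = -dt u t := by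
      intro u t
      simp only [dt, Matrix.cons_val_zero, Matrix.cons_val_one]
      ring
    have hu : ∀ u : Fin 2 → K, ![u 0, u 1] = u := by
      intro u; funext k; fin_cases k <;> rfl
    have hTm : ∀ u : Fin 2 → K, Tm (swp q) ![u 1, u 0] = ![Tm q u 1, Tm q u 0] := by
      intro u
      rw [Tm_swp, hu]
    have h1 : dv O r (dt ![v 1, v 0] ![w 1, w 0]) := by
      rw [hdt]; exact h.neg
    have key := TGoodB_zero hO (good_swp hO hq) (hsw v hv) (hsw w hw) hr h1 (by simpa using hv1)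
    rw [hTm, hTm, hdt, hdt] at key
    refine ⟨?_, fun h' => ?_⟩
    · have := key.1.neg
      rwa [neg_neg] at this
    · have := (key.2 h'.neg).neg
      rwa [neg_neg] at this
  · exact TGoodB_zero hO hq hv hw hr h hv0

/-- Contraction. -/
theorem Tm_contr (hO : Unr O) (hq : Good O q) (hv : uni O v) (hw : uni O w) (hr : 1 ≤ r)
    (h : dv O r (dt v w)) : dv O (r + 1) (dt (Tm q v) (Tm q w)) :=
  (TGoodB_both hO hq hv hw hr h).1

/-- The contraction factor is exactly `3`. -/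
theorem Tm_exact (hO : Unr O) (hq : Good O q) (hv : uni O v) (hw : uni O w) (hr : 1 ≤ r)
    (h : dv O r (dt v w)) (h' : dv O (r + 2) (dt (Tm q v) (Tm q w))) : dv O (r + 1) (dt v w) :=
  (TGoodB_both hO hq hv hw hr h).2 h'

end Pool.Agent.CYM
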