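import Mathlib
import Pool.Agent.CYM.Defs
import Pool.Agent.CYM.TAlgA
import Pool.Agent.CYM.TAlgB
import Pool.Agent.CYM.VRingA
import Pool.Agent.CYM.VRingB
import Pool.Agent.CYM.Uni
import Pool.Agent.CYM.TGoodA
import Pool.Agent.CYM.TGoodB

/-!
Good quartic forms are not squares.
-/

namespace Pool.Agent.CYM

open MvPolynomial

/-- The quartic form as a polynomial. -/
noncomputable def qp {K : Type} [Field K] (q : Fin 5 → K) : MvPolynomial (Fin 2) K :=
  qf (fun k => C (q k)) ![X 0, X 1]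

/-- `qp q` is not a square in the field of rational functions. -/
def NSq {K : Type} [Field K] (q : Fin 5 → K) : Prop :=
  ∀ p r : MvPolynomial (Fin 2) K, p ^ 2 = r ^ 2 * qp q → p = 0 ∧ r = 0

theorem eval_qp {K : Type} [Field K] (q : Fin 5 → K) (s : Fin 2 → K) :
    eval s (qp q) = qf q s := by
  simp [qp, qf]

theorem qp_hom {K : Type} [Field K] (q : Fin 5 → K) : (qp q).IsHomogeneous 4 := by
  have key : ∀ (c : K) (a b : ℕ), a + b = 4 →
      (C c * (X 0 : MvPolynomial (Fin 2) K) ^ a * (X 1 : MvPolynomial (Fin 2) K) ^ b).IsHomogeneous 4 := by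
    intro c a b hab
    have h1 := (isHomogeneous_C (Fin 2) c).mul ((isHomogeneous_X K (0 : Fin 2)).pow a)
    have h2 := h1.mul ((isHomogeneous_X K (1 : Fin 2)).pow b)
    have : 0 + 1 * a + 1 * b = 4 := by omega
    rwa [this] at h2
  have e : qp q = C (q 0) * X 0 ^ 4 * X 1 ^ 0 + C (q 1) * X 0 ^ 3 * X 1 ^ 1
      + C (q 2) * X 0 ^ 2 * X 1 ^ 2 + C (q 3) * X 0 ^ 1 * X 1 ^ 3 + C (q 4) * X 0 ^ 0 * X 1 ^ 4 := by
    simp only [qp, qf, Matrix.cons_val_zero, Matrix.cons_val_one]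
    ring
  rw [e]
  exact ((((key _ 4 0 rfl).add (key _ 3 1 rfl)).add (key _ 2 2 rfl)).add (key _ 1 3 rfl)).add
    (key _ 0 4 rfl)

private theorem nSQ_mem_of_sq {K : Type} [Field K] {O : ValuationSubring K} {a : K}
    (h : a ^ 2 ∈ O) : a ∈ O := by
  by_contra hn
  rcases O.mem_or_inv_mem a with h1 | h1
  · exact hn h1
  · apply hn
    have h0 : a ≠ 0 := by
      rintro rfl
      exact hn O.zero_mem
    have : a = a ^ 2 * a⁻¹ := by field_simp
    rw [this]
    exact O.mul_mem _ _ h h1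

/-- A good quartic form is not the square of a quadratic form. -/
theorem not_square {K : Type} [Field K] [CharZero K] {O : ValuationSubring K} (hO : Unr O)
    {q : Fin 5 → K} (hq : Good O q) (α β γ : K)
    (h : ∀ s : Fin 2 → K, qf q s = (α * s 0 ^ 2 + β * s 0 * s 1 + γ * s 1 ^ 2) ^ 2) : False := by
  have e0 := h ![1, 0]
  have e1 := h ![1, 1]
  have e2 := h ![1, -1]
  have e3 := h ![1, 2]
  have e4 := h ![1, -2]
  simp only [qf, Matrix.cons_val_zero, Matrix.cons_val_one] at e0 e1 e2 e3 e4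
  have q0 : q 0 = α ^ 2 := by linear_combination e0
  have d4 : 24 * (q 4 - γ ^ 2) = 0 := by
    linear_combination 6 * e0 - 4 * e1 - 4 * e2 + e3 + e4
  have q4 : q 4 = γ ^ 2 := by
    have : q 4 - γ ^ 2 = 0 := by
      rcases mul_eq_zero.1 d4 with h1 | h1
      · norm_num at h1
      · exact h1
    linear_combination this
  have d2 : 2 * (q 2 - (β ^ 2 + 2 * α * γ)) = 0 := by
    linear_combination e1 + e2 - 2 * e0 - 2 * q4
  have q2 : q 2 = β ^ 2 + 2 * α * γ := by
    have : q 2 - (β ^ 2 + 2 * α * γ) = 0 := by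
      rcases mul_eq_zero.1 d2 with h1 | h1
      · norm_num at h1
      · exact h1
    linear_combination this
  have u0 : ¬ dv O 1 (q 0) := by
    have := hq.root ![1, 0] (uni_e0 hO)
    have e : qf q ![1, 0] = q 0 := by simp [qf]
    rwa [e] at this
  have hα : α ∈ O := nSQ_mem_of_sq (q0 ▸ hq.int 0)
  have hγ : γ ∈ O := nSQ_mem_of_sq (q4 ▸ hq.int 4)
  have h2 : (2 : K) ∈ O := by
    have h1 : (2 : K) = 1 + 1 := by norm_num
    rw [h1]
    exact O.add_mem _ _ O.one_mem O.one_mem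
  have hβ : β ∈ O := by
    apply nSQ_mem_of_sq
    have e : β ^ 2 = q 2 - 2 * (α * γ) := by rw [q2]; ring
    rw [e]
    exact O.sub_mem (hq.int 2) (O.mul_mem _ _ h2 (O.mul_mem _ _ hα hγ))
  have uα : ¬ dv O 1 α := by
    intro hd
    apply u0
    rw [q0, pow_two]
    exact dv.mul_left hα hd
  have huni : uni O ![β, α] := by
    refine ⟨?_, 1, ?_⟩
    · intro k
      fin_cases k
      · exact hβ
      · exact hα
    · exact uα
  apply hq.root _ huni
  rw [h]
  have e : (α * (![β, α] : Fin 2 → K) 0 ^ 2 + β * (![β, α] : Fin 2 → K) 0 * (![β, α] : Fin 2 → K) 1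
      + γ * (![β, α] : Fin 2 → K) 1 ^ 2) = α * (2 * q 2 - 3 ^ 1 * (α * γ)) := by
    simp only [Matrix.cons_val_zero, Matrix.cons_val_one]
    rw [q2]; ring
  rw [e, pow_two]
  have hd : dv O 1 (α * (2 * q 2 - 3 ^ 1 * (α * γ))) := by
    apply dv.mul_left hα
    apply dv.sub
    · exact dv.mul_left h2 hq.mid
    · exact ⟨α * γ, O.mul_mem _ _ hα hγ, rfl⟩
  exact dv.mul_left hd.mem hd

private theorem nSQ_coeff {K : Type} [Field K] {a0 a1 a2 a3 a4 b0 b1 b2 b3 b4 : K}
    (h : Polynomial.C a0 + Polynomial.C a1 * Polynomial.X + Polynomial.C a2 * Polynomial.X ^ 2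
      + Polynomial.C a3 * Polynomial.X ^ 3 + Polynomial.C a4 * Polynomial.X ^ 4
      = Polynomial.C b0 + Polynomial.C b1 * Polynomial.X + Polynomial.C b2 * Polynomial.X ^ 2
      + Polynomial.C b3 * Polynomial.X ^ 3 + Polynomial.C b4 * Polynomial.X ^ 4) :
    a0 = b0 ∧ a1 = b1 ∧ a2 = b2 ∧ a3 = b3 ∧ a4 = b4 := by
  have c0 := congrArg (fun P => Polynomial.coeff P 0) h
  have c1 := congrArg (fun P => Polynomial.coeff P 1) h
  have c2 := congrArg (fun P => Polynomial.coeff P 2) h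
  have c3 := congrArg (fun P => Polynomial.coeff P 3) h
  have c4 := congrArg (fun P => Polynomial.coeff P 4) h
  simp [Polynomial.coeff_X, Polynomial.coeff_C, Polynomial.coeff_X_pow] at c0 c1 c2 c3 c4
  exact ⟨c0, c1, c2, c3, c4⟩

/-- If `p ^ 2 = r ^ 2 * Q` with `r` nonzero, the quartic form is the square of a quadratic form. -/
theorem square_of_nsq {K : Type} [Field K] [CharZero K] {q : Fin 5 → K}
    {p r : MvPolynomial (Fin 2) K} (h : p ^ 2 = r ^ 2 * qp q) (hr : r ≠ 0) :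
    ∃ α β γ : K, ∀ s : Fin 2 → K,
      qf q s = (α * s 0 ^ 2 + β * s 0 * s 1 + γ * s 1 ^ 2) ^ 2 := by
  have hdvd : r ∣ p := by
    have : r ^ 2 ∣ p ^ 2 := ⟨qp q, h⟩
    exact (IsIntegrallyClosed.pow_dvd_pow_iff (two_ne_zero)).1 this
  obtain ⟨g, rfl⟩ := hdvd
  have hg : g ^ 2 = qp q := by
    have : r ^ 2 * g ^ 2 = r ^ 2 * qp q := by rw [← h]; ring
    exact mul_left_cancel₀ (pow_ne_zero 2 hr) this
  set φ : MvPolynomial (Fin 2) K →ₐ[K] Polynomial K := aeval ![1, Polynomial.X] with hφ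
  have hφg : (φ g) ^ 2 = Polynomial.C (q 0) + Polynomial.C (q 1) * Polynomial.X
      + Polynomial.C (q 2) * Polynomial.X ^ 2 + Polynomial.C (q 3) * Polynomial.X ^ 3
      + Polynomial.C (q 4) * Polynomial.X ^ 4 := by
    rw [← map_pow, hg, hφ]
    simp only [qp, qf, map_add, map_mul, map_pow, aeval_C, aeval_X, Matrix.cons_val_zero,
      Matrix.cons_val_one, one_pow, mul_one, Polynomial.algebraMap_eq]
  have hdeg : (φ g).natDegree ≤ 2 := by
    have h1 : ((φ g) ^ 2).natDegree = 2 * (φ g).natDegree := Polynomial.natDegree_pow _ _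
    have h2 : ((φ g) ^ 2).natDegree ≤ 4 := by
      rw [hφg]
      compute_degree
    omega
  obtain ⟨a, b, c, habc⟩ : ∃ a b c : K, φ g = Polynomial.C a + Polynomial.C b * Polynomial.X
      + Polynomial.C c * Polynomial.X ^ 2 := by
    refine ⟨(φ g).coeff 0, (φ g).coeff 1, (φ g).coeff 2, ?_⟩
    have := (φ g).as_sum_range' 3 (by omega)
    conv_lhs => rw [this]
    simp only [Finset.sum_range_succ, Finset.sum_range_zero, zero_add,
      ← Polynomial.C_mul_X_pow_eq_monomial, pow_zero, mul_one, pow_one]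
  rw [habc] at hφg
  have hexp : (Polynomial.C a + Polynomial.C b * Polynomial.X
      + Polynomial.C c * Polynomial.X ^ 2) ^ 2 = Polynomial.C (a ^ 2)
      + Polynomial.C (2 * a * b) * Polynomial.X
      + Polynomial.C (b ^ 2 + 2 * a * c) * Polynomial.X ^ 2
      + Polynomial.C (2 * b * c) * Polynomial.X ^ 3
      + Polynomial.C (c ^ 2) * Polynomial.X ^ 4 := by
    simp only [map_add, map_mul, map_pow, map_ofNat]
    ring
  rw [hexp] at hφg
  obtain ⟨c0, c1, c2, c3, c4⟩ := nSQ_coeff hφg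
  refine ⟨a, b, c, fun s => ?_⟩
  simp only [qf]
  rw [← c0, ← c1, ← c2, ← c3, ← c4]
  ring

theorem nsq {K : Type} [Field K] [CharZero K] {O : ValuationSubring K} (hO : Unr O)
    {q : Fin 5 → K} (hq : Good O q) : NSq q := by
  intro p r h
  by_cases hr : r = 0
  · subst hr
    refine ⟨?_, rfl⟩
    have : p ^ 2 = 0 := by rw [h]; ring
    exact pow_eq_zero_iff (two_ne_zero) |>.1 this
  · obtain ⟨α, β, γ, h'⟩ := square_of_nsq h hr
    exact (not_square hO hq α β γ h').elim

end Pool.Agent.CYM
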