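import Mathlib
import Pool.Agent.CYM.Defs
import Pool.Agent.CYM.NSQ

/-!
The curve `y ^ 2 = qf q s` as an intersection of two quadrics in projective three-space.
-/

namespace Pool.Agent.CYM

open MvPolynomial

/-- The quadric cone. -/
noncomputable def Q1 (K : Type) [Field K] : MvPolynomial (Fin 4) K := X 0 * X 2 - X 1 ^ 2

/-- The second quadric. -/
noncomputable def Q2 {K : Type} [Field K] (q : Fin 5 → K) : MvPolynomial (Fin 4) K :=
  X 3 ^ 2 - (C (q 0) * X 0 ^ 2 + C (q 1) * X 0 * X 1 + C (q 2) * X 1 ^ 2 + C (q 3) * X 1 * X 2 +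
    C (q 4) * X 2 ^ 2)

/-- The embedding of the curve. -/
def cpt {R : Type*} [CommRing R] (s : Fin 2 → R) (y : R) : Fin 4 → R :=
  ![s 0 ^ 2, s 0 * s 1, s 1 ^ 2, y]

private theorem curveA_hom_mul (K : Type) [Field K] (i j : Fin 4) :
    (X i * X j : MvPolynomial (Fin 4) K).IsHomogeneous 2 := by
  have h := (isHomogeneous_X K i).mul (isHomogeneous_X K j)
  exact h

private theorem curveA_hom_sq (K : Type) [Field K] (i : Fin 4) :
    (X i ^ 2 : MvPolynomial (Fin 4) K).IsHomogeneous 2 := by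
  rw [pow_two]
  exact curveA_hom_mul K i i

private theorem curveA_hom_C {K : Type} [Field K] (c : K) {p : MvPolynomial (Fin 4) K}
    (hp : p.IsHomogeneous 2) : (C c * p).IsHomogeneous 2 := by
  have h := (isHomogeneous_C (Fin 4) c).mul hp
  simpa using h

theorem Q1_hom (K : Type) [Field K] : (Q1 K).IsHomogeneous 2 :=
  (curveA_hom_mul K 0 2).sub (curveA_hom_sq K 1)

theorem Q2_hom {K : Type} [Field K] (q : Fin 5 → K) : (Q2 q).IsHomogeneous 2 := by
  unfold Q2
  refine (curveA_hom_sq K 3).sub (((((curveA_hom_C _ (curveA_hom_sq K 0)).add ?_).add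
    (curveA_hom_C _ (curveA_hom_sq K 1))).add ?_).add (curveA_hom_C _ (curveA_hom_sq K 2)))
  · rw [mul_assoc]
    exact curveA_hom_C _ (curveA_hom_mul K 0 1)
  · rw [mul_assoc]
    exact curveA_hom_C _ (curveA_hom_mul K 1 2)

theorem eval_Q1 {K : Type} [Field K] (w : Fin 4 → K) :
    eval w (Q1 K) = w 0 * w 2 - w 1 ^ 2 := by
  simp [Q1]

theorem eval_Q2 {K : Type} [Field K] (q : Fin 5 → K) (w : Fin 4 → K) :
    eval w (Q2 q) = w 3 ^ 2 - (q 0 * w 0 ^ 2 + q 1 * w 0 * w 1 + q 2 * w 1 ^ 2 + q 3 * w 1 * w 2 +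
      q 4 * w 2 ^ 2) := by
  simp [Q2]

/-- Multiplication of a normal form by a variable. -/
private theorem curveA_mul_X {K : Type} [Field K] (q : Fin 5 → K) (A B C' D : MvPolynomial (Fin 2) K)
    (i : Fin 4) : ∃ A₁ B₁ C₁ D₁ : MvPolynomial (Fin 2) K,
      (rename ![0, 2] A + rename ![0, 2] B * X 1 +
        (rename ![0, 2] C' + rename ![0, 2] D * X 1) * X 3) * X i -
      (rename ![0, 2] A₁ + rename ![0, 2] B₁ * X 1 +
        (rename ![0, 2] C₁ + rename ![0, 2] D₁ * X 1) * X 3) ∈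
        (Ideal.span {Q1 K, Q2 q} : Ideal (MvPolynomial (Fin 4) K)) := by
  have r0 : (rename ![0, 2] (X 0 : MvPolynomial (Fin 2) K) : MvPolynomial (Fin 4) K) = X 0 := by
    rw [rename_X]; rfl
  have r1 : (rename ![0, 2] (X 1 : MvPolynomial (Fin 2) K) : MvPolynomial (Fin 4) K) = X 2 := by
    rw [rename_X]; rfl
  fin_cases i
  · refine ⟨A * X 0, B * X 0, C' * X 0, D * X 0, Ideal.mem_span_pair.2 ⟨0, 0, ?_⟩⟩
    simp only [map_mul, r0]
    change _ = _ * X 0 - _
    ring
  · refine ⟨B * X 0 * X 1, A, D * X 0 * X 1, C', Ideal.mem_span_pair.2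
      ⟨-(rename ![0, 2] B + rename ![0, 2] D * X 3), 0, ?_⟩⟩
    simp only [map_mul, r0, r1, Q1]
    change _ = _ * X 1 - _
    ring
  · refine ⟨A * X 1, B * X 1, C' * X 1, D * X 1, Ideal.mem_span_pair.2 ⟨0, 0, ?_⟩⟩
    simp only [map_mul, r1]
    change _ = _ * X 2 - _
    ring
  · refine ⟨C' * (C (q 0) * X 0 ^ 2 + C (q 2) * X 0 * X 1 + C (q 4) * X 1 ^ 2) +
        D * (C (q 1) * X 0 + C (q 3) * X 1) * X 0 * X 1,
      C' * (C (q 1) * X 0 + C (q 3) * X 1) +
        D * (C (q 0) * X 0 ^ 2 + C (q 2) * X 0 * X 1 + C (q 4) * X 1 ^ 2), A, B,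
      Ideal.mem_span_pair.2
      ⟨-(C (q 2) * (rename ![0, 2] C' + rename ![0, 2] D * X 1)) -
        rename ![0, 2] D * (C (q 1) * X 0 + C (q 3) * X 2),
        rename ![0, 2] C' + rename ![0, 2] D * X 1, ?_⟩⟩
    simp only [map_mul, map_add, map_pow, rename_C, r0, r1, Q1, Q2]
    change _ = _ * X 3 - _
    ring

/-- Division: every polynomial is, modulo the two quadrics, of the form
`A(X0, X2) + B(X0, X2) X1 + (C(X0, X2) + D(X0, X2) X1) X3`. -/
theorem normal_form {K : Type} [Field K] (q : Fin 5 → K) (g : MvPolynomial (Fin 4) K) :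
    ∃ A B C' D : MvPolynomial (Fin 2) K,
      g - (rename ![0, 2] A + rename ![0, 2] B * X 1 +
        (rename ![0, 2] C' + rename ![0, 2] D * X 1) * X 3) ∈ Ideal.span {Q1 K, Q2 q} := by
  induction g using MvPolynomial.induction_on with
  | C a =>
    refine ⟨C a, 0, 0, 0, ?_⟩
    simp
  | add p r hp hr =>
    obtain ⟨A, B, C', D, h⟩ := hp
    obtain ⟨A₁, B₁, C₁, D₁, h₁⟩ := hr
    refine ⟨A + A₁, B + B₁, C' + C₁, D + D₁, ?_⟩
    have h2 := Ideal.add_mem _ h h₁
    convert h2 using 1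
    simp only [map_add]
    ring
  | mul_X p i hp =>
    obtain ⟨A, B, C', D, h⟩ := hp
    obtain ⟨A₁, B₁, C₁, D₁, h₁⟩ := curveA_mul_X q A B C' D i
    refine ⟨A₁, B₁, C₁, D₁, ?_⟩
    have h2 := Ideal.add_mem _ (Ideal.mul_mem_right (X i) _ h) h₁
    convert h2 using 1
    ring

/-- The substitution of squares is the expansion by `2`. -/
private theorem curveA_expand {K : Type} [Field K] (A : MvPolynomial (Fin 2) K) :
    aeval ![X 0 ^ 2, X 1 ^ 2] A = (expand 2 A : MvPolynomial (Fin 2) K) := by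
  have h : (aeval ![X 0 ^ 2, X 1 ^ 2] : MvPolynomial (Fin 2) K →ₐ[K] MvPolynomial (Fin 2) K) =
      expand 2 := by
    refine MvPolynomial.algHom_ext fun i => ?_
    fin_cases i <;> simp
  rw [h]

/-- A polynomial `A(s², t²) + B(s², t²) s t` vanishes only if `A = B = 0`. -/
theorem even_zero {K : Type} [Field K] {A B : MvPolynomial (Fin 2) K}
    (h : aeval ![X 0 ^ 2, X 1 ^ 2] A + aeval ![X 0 ^ 2, X 1 ^ 2] B * (X 0 * X 1) =
      (0 : MvPolynomial (Fin 2) K)) : A = 0 ∧ B = 0 := by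
  classical
  rw [curveA_expand, curveA_expand] at h
  have hmon : (X 0 * X 1 : MvPolynomial (Fin 2) K) =
      monomial (Finsupp.single 0 1 + Finsupp.single 1 1) 1 := by
    rw [X, X, monomial_mul, one_mul]
  have hA : A = 0 := by
    refine MvPolynomial.ext _ _ fun m => ?_
    have h1 := congrArg (fun g => coeff (2 • m) g) h
    simp only [coeff_add, coeff_zero] at h1
    rw [coeff_expand_smul 2 (by norm_num), hmon, coeff_mul_monomial'] at h1
    rw [coeff_zero]
    split_ifs at h1 with hle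
    · rw [coeff_expand_of_not_dvd (i := 0), zero_mul, add_zero] at h1
      · exact h1
      · have h0 := hle 0
        simp only [Finsupp.coe_add, Finsupp.coe_smul, Pi.add_apply, Pi.smul_apply,
          Finsupp.single_eq_same, smul_eq_mul, Finsupp.coe_tsub, Pi.sub_apply] at h0 ⊢
        have h3 : (Finsupp.single (1 : Fin 2) 1) (0 : Fin 2) = 0 := by
          simp
        rw [h3] at h0 ⊢
        omega
    · rw [add_zero] at h1
      exact h1
  refine ⟨hA, ?_⟩
  rw [hA, map_zero, zero_add] at h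
  have h2 := (mul_eq_zero.1 h).resolve_right (mul_ne_zero (X_ne_zero 0) (X_ne_zero 1))
  exact (expand_eq_zero (by norm_num)).1 h2

/-- The elements of the ideal vanish on the curve. -/
theorem span_vanish {K : Type} [Field K] {q : Fin 5 → K} {g : MvPolynomial (Fin 4) K}
    (hg : g ∈ Ideal.span {Q1 K, Q2 q}) {S : Type} [CommRing S] (φ : K →+* S) (s : Fin 2 → S)
    (y : S) (hy : y ^ 2 = qf (fun k => φ (q k)) s) : eval₂ φ (cpt s y) g = 0 := by
  obtain ⟨a, b, rfl⟩ := Ideal.mem_span_pair.1 hg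
  have h1 : eval₂ φ (cpt s y) (Q1 K) = 0 := by
    simp only [Q1, eval₂_sub, eval₂_mul, eval₂_X, eval₂_pow, cpt]
    simp only [Matrix.cons_val_zero, Matrix.cons_val_one, Matrix.cons_val]
    ring
  have h2 : eval₂ φ (cpt s y) (Q2 q) = 0 := by
    simp only [Q2, eval₂_sub, eval₂_add, eval₂_mul, eval₂_X, eval₂_pow, eval₂_C, cpt]
    simp only [Matrix.cons_val_zero, Matrix.cons_val_one, Matrix.cons_val]
    rw [hy, qf]
    ring
  rw [eval₂_add, eval₂_mul, eval₂_mul, h1, h2, mul_zero, mul_zero, add_zero]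

/-- Restriction of a polynomial to the curve. -/
theorem curve_split {K : Type} [Field K] (q : Fin 5 → K) (g : MvPolynomial (Fin 4) K) :
    ∃ a b : MvPolynomial (Fin 2) K,
      (∀ (S : Type) [CommRing S] (φ : K →+* S) (s : Fin 2 → S) (y : S),
        y ^ 2 = qf (fun k => φ (q k)) s →
          eval₂ φ (cpt s y) g = eval₂ φ s a + eval₂ φ s b * y) ∧
      (a = 0 → b = 0 → g ∈ Ideal.span {Q1 K, Q2 q}) := by
  obtain ⟨A, B, C', D, h⟩ := normal_form q g
  refine ⟨aeval ![X 0 ^ 2, X 1 ^ 2] A + aeval ![X 0 ^ 2, X 1 ^ 2] B * (X 0 * X 1),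
    aeval ![X 0 ^ 2, X 1 ^ 2] C' + aeval ![X 0 ^ 2, X 1 ^ 2] D * (X 0 * X 1), ?_, ?_⟩
  · intro S _ φ s y hy
    have h1 := span_vanish h φ s y hy
    have key : ∀ E : MvPolynomial (Fin 2) K, eval₂ φ (cpt s y) (rename ![0, 2] E) =
        eval₂ φ s (aeval ![X 0 ^ 2, X 1 ^ 2] E) := by
      intro E
      have hh : ((eval₂Hom φ (cpt s y)).comp
          (rename ![0, 2] : MvPolynomial (Fin 2) K →ₐ[K] MvPolynomial (Fin 4) K).toRingHom) =
          (eval₂Hom φ s).comp
          (aeval ![X 0 ^ 2, X 1 ^ 2] :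
            MvPolynomial (Fin 2) K →ₐ[K] MvPolynomial (Fin 2) K).toRingHom := by
        refine MvPolynomial.ringHom_ext ?_ ?_
        · intro c
          simp
        · intro i
          fin_cases i <;> simp [cpt]
      exact congrArg (fun f : MvPolynomial (Fin 2) K →+* S => f E) hh
    rw [eval₂_sub, sub_eq_zero] at h1
    rw [h1]
    simp only [eval₂_add, eval₂_mul, eval₂_X, key]
    simp only [cpt, Matrix.cons_val_zero, Matrix.cons_val_one, Matrix.cons_val]
  · intro ha hb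
    obtain ⟨hA, hB⟩ := even_zero ha
    obtain ⟨hC, hD⟩ := even_zero hb
    rw [hA, hB, hC, hD] at h
    simpa using h

end Pool.Agent.CYM
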