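import Mathlib
import Pool.Agent.CYM.Defs
import Pool.Agent.CYM.NSQ
import Pool.Agent.CYM.CurveA

/-!
The curve `y ^ 2 = qf q s`: primality and density of rational points.
-/

namespace Pool.Agent.CYM

open MvPolynomial

/-- Auxiliary substitution `X 0 ↦ κ`, `X 1 ↦ κ t`. -/
private noncomputable def curveB_sub (K : Type) [Field K] :
    MvPolynomial (Fin 2) K →+* Polynomial (Polynomial K) :=
  eval₂Hom ((Polynomial.C : Polynomial K →+* _).comp Polynomial.C)
    ![Polynomial.X, Polynomial.X * Polynomial.C Polynomial.X]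

private theorem curveB_sub_eval {K : Type} [Field K] (p : MvPolynomial (Fin 2) K) (κ r : K) :
    ((curveB_sub K p).map (Polynomial.evalRingHom r)).eval κ = eval ![κ, κ * r] p := by
  have h : (((Polynomial.evalRingHom κ).comp
      (Polynomial.mapRingHom (Polynomial.evalRingHom r))).comp (curveB_sub K)) =
      (eval ![κ, κ * r] : MvPolynomial (Fin 2) K →+* K) := by
    refine MvPolynomial.ringHom_ext ?_ ?_
    · intro c
      simp [curveB_sub]
    · intro i
      fin_cases i
      · simp [curveB_sub]
      · simp [curveB_sub]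
        exact mul_comm _ _
  have h2 := congrArg (fun g : MvPolynomial (Fin 2) K →+* K => g p) h
  simpa using h2

/-- A polynomial in two variables vanishing on infinitely many lines is zero. -/
theorem zero_of_lines {K : Type} [Field K] [Infinite K] {p : MvPolynomial (Fin 2) K}
    (h : ∀ T : Finset (Fin 2 → K), ∃ s : Fin 2 → K, s ≠ 0 ∧ (∀ t ∈ T, t ≠ 0 → dt s t ≠ 0) ∧
      ∀ κ : K, κ ≠ 0 → eval (κ • s) p = 0) : p = 0 := by
  classical
  set R : Set K := {r | ∀ κ : K, κ ≠ 0 → eval ![κ, κ * r] p = 0} with hR
  have hinf : R.Infinite := by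
    intro hfin
    obtain ⟨s, hs, hT, hκ⟩ := h (insert ![0, 1] (hfin.toFinset.image fun r => ![1, r]))
    have h0 : s 0 ≠ 0 := by
      have := hT ![0, 1] (Finset.mem_insert_self _ _) (by
        intro h; have := congrFun h 1; simp at this)
      simpa [dt] using this
    have hr : s 1 / s 0 ∈ R := by
      intro κ hk
      have h1 := hκ (κ / s 0) (div_ne_zero hk h0)
      have h2 : (κ / s 0) • s = ![κ, κ * (s 1 / s 0)] := by
        funext i
        fin_cases i
        · simp [h0]
        · simp only [Pi.smul_apply, smul_eq_mul]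
          simp
          ring
      rwa [h2] at h1
    have h3 := hT ![1, s 1 / s 0] (Finset.mem_insert_of_mem (Finset.mem_image_of_mem _
      (hfin.mem_toFinset.2 hr))) (by
        intro h; have := congrFun h 0; simp at this)
    apply h3
    simp only [dt, Matrix.cons_val_zero, Matrix.cons_val_one]
    field_simp
    ring
  have hφ : curveB_sub K p = 0 := by
    refine Polynomial.ext fun i => ?_
    rw [Polynomial.coeff_zero]
    refine Polynomial.eq_zero_of_infinite_isRoot _ (hinf.mono ?_)
    intro r hr
    have h1 : (curveB_sub K p).map (Polynomial.evalRingHom r) = 0 := by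
      refine Polynomial.eq_zero_of_infinite_isRoot _ ?_
      have h2 : ({0}ᶜ : Set K).Infinite := (Set.finite_singleton 0).infinite_compl
      refine h2.mono ?_
      intro κ hk
      have hk' : κ ≠ 0 := hk
      change Polynomial.IsRoot _ _
      rw [Polynomial.IsRoot.def, curveB_sub_eval]
      exact hr κ hk'
    have h2 := congrArg (fun g => Polynomial.coeff g i) h1
    simp only [Polynomial.coeff_map, Polynomial.coeff_zero, Polynomial.coe_evalRingHom] at h2
    exact h2
  have h4 : X 0 * p = 0 := by
    refine MvPolynomial.funext fun x => ?_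
    rw [map_mul, eval_X, map_zero]
    by_cases hx : x 0 = 0
    · rw [hx, zero_mul]
    · have h5 := curveB_sub_eval p (x 0) (x 1 / x 0)
      have h6 : ![x 0, x 0 * (x 1 / x 0)] = x := by
        funext i
        fin_cases i
        · rfl
        · change x 0 * (x 1 / x 0) = x 1
          field_simp
      rw [h6, hφ] at h5
      rw [← h5]
      simp
  exact (mul_eq_zero.1 h4).resolve_left (X_ne_zero 0)

/-- If `a + b y` vanishes at infinitely many points of the curve, then `a = b = 0`. -/
theorem zero_of_points {K : Type} [Field K] [Infinite K] {q : Fin 5 → K} (hns : NSq q)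
    {a b : MvPolynomial (Fin 2) K}
    (h : ∀ T : Finset (Fin 2 → K), ∃ (s : Fin 2 → K) (y : K), s ≠ 0 ∧ y ^ 2 = qf q s ∧
      (∀ t ∈ T, t ≠ 0 → dt s t ≠ 0) ∧
      ∀ κ : K, κ ≠ 0 → eval (κ • s) a + eval (κ • s) b * (κ ^ 2 * y) = 0) : a = 0 ∧ b = 0 := by
  have h1 : a ^ 2 - b ^ 2 * qp q = 0 := by
    refine zero_of_lines fun T => ?_
    obtain ⟨s, y, hs, hy, hT, hκ⟩ := h T
    refine ⟨s, hs, hT, fun κ hk => ?_⟩
    have h2 := hκ κ hk
    rw [map_sub, map_mul, map_pow, map_pow, eval_qp]
    have h3 : qf q (κ • s) = (κ ^ 2 * y) ^ 2 := by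
      rw [mul_pow, hy]
      simp only [qf, Pi.smul_apply, smul_eq_mul]
      ring
    rw [h3]
    linear_combination (eval (κ • s) a - eval (κ • s) b * (κ ^ 2 * y)) * h2
  exact hns a b (sub_eq_zero.1 h1)

/-- If `a + b y` vanishes at all geometric points of the curve, then `a = b = 0`. -/
theorem zero_of_geom {K : Type} [Field K] [CharZero K] {q : Fin 5 → K} (hns : NSq q)
    {a b : MvPolynomial (Fin 2) K}
    (h : ∀ (s : Fin 2 → AlgebraicClosure K) (y : AlgebraicClosure K),
      y ^ 2 = qf (fun k => ac K (q k)) s →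
        eval₂ (ac K) s a + eval₂ (ac K) s b * y = 0) : a = 0 ∧ b = 0 := by
  refine hns a b (MvPolynomial.funext fun x => ?_)
  obtain ⟨y, hy⟩ := IsAlgClosed.exists_pow_nat_eq (ac K (qf q x)) (n := 2) (by norm_num)
  have h1 : qf (fun k => ac K (q k)) (fun i => ac K (x i)) = ac K (qf q x) := by
    simp only [qf, map_add, map_mul, map_pow]
  have h2 := h (fun i => ac K (x i)) y (by rw [hy, h1])
  have h3 : ∀ g : MvPolynomial (Fin 2) K, eval₂ (ac K) (fun i => ac K (x i)) g =
      ac K (eval x g) := by
    intro g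
    exact (eval₂_comp (ac K) x g).symm
  rw [h3, h3] at h2
  have h4 : ac K ((eval x a) ^ 2) = ac K ((eval x b) ^ 2 * qf q x) := by
    rw [map_mul, map_pow, map_pow, ← hy]
    linear_combination (ac K (eval x a) - ac K (eval x b) * y) * h2
  rw [map_mul, map_pow, map_pow, eval_qp]
  exact (ac K).injective h4

/-- The span is prime. -/
theorem curve_prime {K : Type} [Field K] [CharZero K] {q : Fin 5 → K} (hns : NSq q) :
    (Ideal.span {Q1 K, Q2 q}).IsPrime := by
  constructor
  · intro htop
    have h1 : (1 : MvPolynomial (Fin 4) K) ∈ Ideal.span {Q1 K, Q2 q} := by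
      rw [htop]; exact Submodule.mem_top
    have h2 := span_vanish h1 (RingHom.id K) (fun _ => (0 : K)) 0 (by simp [qf])
    rw [eval₂_one] at h2
    exact one_ne_zero h2
  · intro f g hfg
    obtain ⟨a, b, hab, hf⟩ := curve_split q f
    obtain ⟨c, d, hcd, hg⟩ := curve_split q g
    have h1 : a * c + b * d * qp q = 0 ∧ a * d + b * c = 0 := by
      refine zero_of_geom hns ?_
      intro s y hy
      have h2 := span_vanish hfg (ac K) s y hy
      rw [eval₂_mul, hab _ (ac K) s y hy, hcd _ (ac K) s y hy] at h2
      have h3 : eval₂ (ac K) s (qp q) = y ^ 2 := by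
        rw [hy, qp]
        simp only [qf, eval₂_add, eval₂_mul, eval₂_pow, eval₂_C, eval₂_X,
          Matrix.cons_val_zero, Matrix.cons_val_one]
      simp only [eval₂_add, eval₂_mul, h3]
      linear_combination h2
    obtain ⟨h2, h3⟩ := h1
    have h4 : (a ^ 2 - b ^ 2 * qp q) * c = 0 := by
      linear_combination a * h2 - b * qp q * h3
    have h5 : (a ^ 2 - b ^ 2 * qp q) * d = 0 := by
      linear_combination a * h3 - b * h2
    rcases mul_eq_zero.1 h4 with h6 | h6
    · obtain ⟨ha, hb⟩ := hns a b (sub_eq_zero.1 h6)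
      exact Or.inl (hf ha hb)
    · rcases mul_eq_zero.1 h5 with h7 | h7
      · obtain ⟨ha, hb⟩ := hns a b (sub_eq_zero.1 h7)
        exact Or.inl (hf ha hb)
      · exact Or.inr (hg h6 h7)

theorem curve_dense {K : Type} [Field K] [CharZero K] {q : Fin 5 → K} (hns : NSq q)
    (hinf : ¬ FinC q) (f : MvPolynomial (Fin 4) K)
    (h : ∀ w : Fin 4 → K, w ≠ 0 → eval w (Q1 K) = 0 → eval w (Q2 q) = 0 → eval w f = 0) :
    f ∈ Ideal.span {Q1 K, Q2 q} := by
  obtain ⟨a, b, hab, hf⟩ := curve_split q f
  have h1 : a = 0 ∧ b = 0 := by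
    refine zero_of_points hns fun T => ?_
    by_contra hcon
    apply hinf
    refine ⟨T, fun s y hs hy => ?_⟩
    by_contra hno
    apply hcon
    refine ⟨s, y, hs, hy, ?_, ?_⟩
    · intro t ht ht0 hd
      exact hno ⟨t, ht, ht0, hd⟩
    · intro κ hk
      have hy2 : (κ ^ 2 * y) ^ 2 = qf (fun k => RingHom.id K (q k)) (κ • s) := by
        rw [mul_pow, hy]
        simp only [qf, Pi.smul_apply, smul_eq_mul, RingHom.id_apply]
        ring
      have h2 := hab K (RingHom.id K) (κ • s) (κ ^ 2 * y) hy2
      rw [eval₂_id, eval₂_id, eval₂_id] at h2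
      rw [← h2]
      refine h _ ?_ ?_ ?_
      · intro h0
        apply hs
        have h00 := congrFun h0 0
        have h01 := congrFun h0 2
        simp only [cpt, Matrix.cons_val_zero, Matrix.cons_val, Pi.smul_apply, smul_eq_mul,
          Pi.zero_apply] at h00 h01
        funext i
        fin_cases i
        · have := pow_eq_zero_iff (two_ne_zero) |>.1 h00
          exact (mul_eq_zero.1 this).resolve_left hk
        · have := pow_eq_zero_iff (two_ne_zero) |>.1 h01
          exact (mul_eq_zero.1 this).resolve_left hk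
      · rw [eval_Q1]
        simp only [cpt, Matrix.cons_val_zero, Matrix.cons_val_one, Matrix.cons_val,
          Pi.smul_apply, smul_eq_mul]
        ring
      · rw [eval_Q2]
        simp only [cpt, Matrix.cons_val_zero, Matrix.cons_val_one, Matrix.cons_val,
          Pi.smul_apply, smul_eq_mul]
        rw [mul_pow, hy]
        simp only [qf]
        ring
  exact hf h1.1 h1.2

end Pool.Agent.CYM
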