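import Mathlib
import Pool.Agent.CYM.Defs

/-!
The quartic forms in one pair of variables obtained from `F`.
-/

namespace Pool.Agent.CYM

section Ring

variable {R : Type*} [CommRing R] {n : ℕ}

private lemma FibR_qf_sum (q : Fin 5 → R) (s : Fin 2 → R) :
    qf q s = ∑ k : Fin 5, q k * (s 0 ^ (4 - (k : ℕ)) * s 1 ^ (k : ℕ)) := by
  rw [Fin.sum_univ_five]
  simp only [qf, Fin.val_zero, Fin.val_one, Fin.val_two]
  have h3 : ((3 : Fin 5) : ℕ) = 3 := rfl
  have h4 : ((4 : Fin 5) : ℕ) = 4 := rfl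
  rw [h3, h4]
  norm_num
  ring

private lemma FibR_mono_update (x : Fin n → Fin 2 → R) (j : Fin n) (s : Fin 2 → R)
    (m : Fin n → Fin 5) : mono 4 (Function.update x j s) m =
      (s 0 ^ (4 - (m j : ℕ)) * s 1 ^ (m j : ℕ)) *
        ∏ i ∈ Finset.univ.erase j, x i 0 ^ (4 - (m i : ℕ)) * x i 1 ^ (m i : ℕ) := by
  unfold mono
  rw [← Finset.mul_prod_erase Finset.univ _ (Finset.mem_univ j)]
  rw [Function.update_self]
  congr 1
  refine Finset.prod_congr rfl ?_
  intro i hi
  rw [Function.update_of_ne (Finset.ne_of_mem_erase hi)]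

theorem qf_fib (F : (Fin n → Fin 5) → R) (j : Fin n) (x : Fin n → Fin 2 → R) (s : Fin 2 → R) :
    qf (fib F j x) s = val F (Function.update x j s) := by
  rw [FibR_qf_sum]
  unfold val
  rw [← Finset.sum_fiberwise Finset.univ (fun m : Fin n → Fin 5 => m j)]
  refine Finset.sum_congr rfl ?_
  intro k _
  unfold fib
  rw [Finset.sum_mul]
  refine Finset.sum_congr rfl ?_
  intro m hm
  rw [FibR_mono_update]
  have hk : m j = k := (Finset.mem_filter.mp hm).2
  rw [hk]
  ring

theorem qf_fib_self (F : (Fin n → Fin 5) → R) (j : Fin n) (x : Fin n → Fin 2 → R) :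
    qf (fib F j x) (x j) = val F x := by
  rw [qf_fib, Function.update_eq_self]

theorem fib_update (F : (Fin n → Fin 5) → R) (j : Fin n) (x : Fin n → Fin 2 → R) (s : Fin 2 → R) :
    fib F j (Function.update x j s) = fib F j x := by
  funext k
  unfold fib
  refine Finset.sum_congr rfl ?_
  intro m _
  congr 1
  refine Finset.prod_congr rfl ?_
  intro i hi
  rw [Function.update_of_ne (Finset.ne_of_mem_erase hi)]

private lemma FibR_term (d : ℕ) (a b c : R) (e : Fin (d + 1)) :
    (a * b) ^ (d - (e : ℕ)) * (a * c) ^ (e : ℕ) =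
      a ^ d * (b ^ (d - (e : ℕ)) * c ^ (e : ℕ)) := by
  have h : a ^ d = a ^ (d - (e : ℕ)) * a ^ (e : ℕ) := by
    rw [← pow_add]
    congr 1
    have := e.is_lt
    omega
  rw [h, mul_pow, mul_pow]
  ring

theorem mono_smul (d : ℕ) (κ : Fin n → R) (x : Fin n → Fin 2 → R) (m : Fin n → Fin (d + 1)) :
    mono d (fun i k => κ i * x i k) m = (∏ i, κ i) ^ d * mono d x m := by
  unfold mono
  rw [← Finset.prod_pow, ← Finset.prod_mul_distrib]
  refine Finset.prod_congr rfl ?_
  intro i _
  exact FibR_term d (κ i) (x i 0) (x i 1) (m i)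

theorem val_smul (F : (Fin n → Fin 5) → R) (κ : Fin n → R) (x : Fin n → Fin 2 → R) :
    val F (fun i k => κ i * x i k) = (∏ i, κ i) ^ 4 * val F x := by
  unfold val
  rw [Finset.mul_sum]
  refine Finset.sum_congr rfl ?_
  intro m _
  rw [mono_smul]
  ring

theorem pt_smul (κ : Fin n → R) (x : Fin n → Fin 2 → R) (y : R) :
    pt (fun i k => κ i * x i k) ((∏ i, κ i) ^ 2 * y) = (∏ i, κ i) ^ 2 • pt x y := by
  funext l
  cases l with
  | none => rfl
  | some m =>
    change mono 2 (fun i k => κ i * x i k) m = (∏ i, κ i) ^ 2 * mono 2 x m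
    exact mono_smul 2 κ x m

theorem fib_smul (F : (Fin n → Fin 5) → R) (j : Fin n) (κ : Fin n → R) (x : Fin n → Fin 2 → R) :
    fib F j (fun i k => κ i * x i k) =
      fun k => (∏ i ∈ Finset.univ.erase j, κ i) ^ 4 * fib F j x k := by
  funext k
  unfold fib
  rw [Finset.mul_sum]
  refine Finset.sum_congr rfl ?_
  intro m _
  have h : (∏ i ∈ Finset.univ.erase j, (κ i * x i 0) ^ (4 - (m i : ℕ)) * (κ i * x i 1) ^ (m i : ℕ))
      = (∏ i ∈ Finset.univ.erase j, κ i) ^ 4 *
        ∏ i ∈ Finset.univ.erase j, x i 0 ^ (4 - (m i : ℕ)) * x i 1 ^ (m i : ℕ) := by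
    rw [← Finset.prod_pow, ← Finset.prod_mul_distrib]
    refine Finset.prod_congr rfl ?_
    intro i _
    exact FibR_term 4 (κ i) (x i 0) (x i 1) (m i)
  rw [h]
  ring

theorem mono_map {S : Type*} [CommRing S] (φ : R →+* S) (d : ℕ) (x : Fin n → Fin 2 → R)
    (m : Fin n → Fin (d + 1)) : mono d (fun i k => φ (x i k)) m = φ (mono d x m) := by
  unfold mono
  rw [map_prod]
  refine Finset.prod_congr rfl ?_
  intro i _
  rw [map_mul, map_pow, map_pow]

theorem val_map {S : Type*} [CommRing S] (φ : R →+* S) (F : (Fin n → Fin 5) → R)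
    (x : Fin n → Fin 2 → R) : val (fun m => φ (F m)) (fun i k => φ (x i k)) = φ (val F x) := by
  unfold val
  rw [map_sum]
  refine Finset.sum_congr rfl ?_
  intro m _
  rw [map_mul, mono_map]

theorem pt_map {S : Type*} [CommRing S] (φ : R →+* S) (x : Fin n → Fin 2 → R) (y : R) :
    pt (fun i k => φ (x i k)) (φ y) = fun l => φ (pt x y l) := by
  funext l
  cases l with
  | none => rfl
  | some m =>
    change mono 2 (fun i k => φ (x i k)) m = φ (mono 2 x m)
    exact mono_map φ 2 x m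

theorem fib_map {S : Type*} [CommRing S] (φ : R →+* S) (F : (Fin n → Fin 5) → R) (j : Fin n)
    (x : Fin n → Fin 2 → R) :
    fib (fun m => φ (F m)) j (fun i k => φ (x i k)) = fun k => φ (fib F j x k) := by
  funext k
  unfold fib
  rw [map_sum]
  refine Finset.sum_congr rfl ?_
  intro m _
  rw [map_mul, map_prod]
  congr 1
  refine Finset.prod_congr rfl ?_
  intro i _
  rw [map_mul, map_pow, map_pow]

end Ring

end Pool.Agent.CYM
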