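import Mathlib
import Pool.Agent.CYM.Defs
import Pool.Agent.CYM.TAlgA
import Pool.Agent.CYM.TAlgB
import Pool.Agent.CYM.VRingA
import Pool.Agent.CYM.VRingB
import Pool.Agent.CYM.Uni
import Pool.Agent.CYM.TGoodA
import Pool.Agent.CYM.FibR

/-!
The quartic forms in one pair of variables obtained from `F`: integrality.
-/

namespace Pool.Agent.CYM

section RingPart

variable {R : Type*} [CommRing R] {n : ℕ}

/-- The part of a monomial away from `j`. -/
private def fibOe (j : Fin n) (x : Fin n → Fin 2 → R) (m : Fin n → Fin 5) : R :=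
  ∏ i ∈ Finset.univ.erase j, x i 0 ^ (4 - (m i : ℕ)) * x i 1 ^ (m i : ℕ)

private theorem fibO_qf_eq (q : Fin 5 → R) (s : Fin 2 → R) :
    qf q s = ∑ a : Fin 5, q a * (s 0 ^ (4 - (a : ℕ)) * s 1 ^ (a : ℕ)) := by
  simp only [qf, Fin.sum_univ_succ, Fin.sum_univ_zero]
  simp [Fin.succ]
  ring

private theorem fibO_prod (f : Fin n → Fin 5 → R) (j : Fin n) (x : Fin n → Fin 2 → R)
    (k : Fin 5) :
    (∑ m : Fin n → Fin 5 with m j = k, (∏ i, f i (m i)) * fibOe j x m) =
      (∏ i ∈ Finset.univ.erase j, qf (f i) (x i)) * f j k := by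
  classical
  have h1 : (Finset.univ.filter fun m : Fin n → Fin 5 => m j = k) =
      Fintype.piFinset (fun i => if i = j then {k} else (Finset.univ : Finset (Fin 5))) := by
    ext m
    simp only [Finset.mem_filter, Finset.mem_univ, true_and, Fintype.mem_piFinset]
    constructor
    · intro h i
      by_cases hi : i = j
      · subst hi; simp [h]
      · simp [hi]
    · intro h
      have := h j
      simpa using this
  have h2 := Finset.prod_univ_sum
    (fun i => if i = j then {k} else (Finset.univ : Finset (Fin 5)))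
    (fun i a => if i = j then f i a else f i a * (x i 0 ^ (4 - (a : ℕ)) * x i 1 ^ (a : ℕ)))
  rw [h1]
  have h3 : ∀ m ∈ Fintype.piFinset
      (fun i => if i = j then {k} else (Finset.univ : Finset (Fin 5))),
      (∏ i, f i (m i)) * fibOe j x m =
        ∏ i, (if i = j then f i (m i) else
          f i (m i) * (x i 0 ^ (4 - (m i : ℕ)) * x i 1 ^ (m i : ℕ))) := by
    intro m _
    rw [fibOe, ← Finset.mul_prod_erase Finset.univ _ (Finset.mem_univ j),
      ← Finset.mul_prod_erase Finset.univ (fun i => if i = j then f i (m i) else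
          f i (m i) * (x i 0 ^ (4 - (m i : ℕ)) * x i 1 ^ (m i : ℕ))) (Finset.mem_univ j),
      mul_assoc, ← Finset.prod_mul_distrib, if_pos rfl]
    congr 1
    refine Finset.prod_congr rfl fun i hi => ?_
    rw [if_neg (Finset.ne_of_mem_erase hi)]
  rw [Finset.sum_congr rfl h3]
  have h4 : (∏ i, ∑ a ∈ (if i = j then {k} else (Finset.univ : Finset (Fin 5))),
      (if i = j then f i a else f i a * (x i 0 ^ (4 - (a : ℕ)) * x i 1 ^ (a : ℕ)))) =
      (∏ i ∈ Finset.univ.erase j, qf (f i) (x i)) * f j k := by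
    rw [← Finset.mul_prod_erase Finset.univ _ (Finset.mem_univ j)]
    rw [mul_comm]
    congr 1
    · refine Finset.prod_congr rfl fun i hi => ?_
      rw [fibO_qf_eq]
      simp [Finset.ne_of_mem_erase hi]
    · simp
  rw [← h4, h2]

private theorem fibO_prod_val (f : Fin n → Fin 5 → R) (x : Fin n → Fin 2 → R) :
    (∑ m : Fin n → Fin 5, (∏ i, f i (m i)) * mono 4 x m) = ∏ i, qf (f i) (x i) := by
  classical
  have h2 := Finset.prod_univ_sum (fun _ : Fin n => (Finset.univ : Finset (Fin 5)))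
    (fun i a => f i a * (x i 0 ^ (4 - (a : ℕ)) * x i 1 ^ (a : ℕ)))
  simp only [fibO_qf_eq]
  rw [h2, Fintype.piFinset_univ]
  refine Finset.sum_congr rfl fun m _ => ?_
  rw [mono, ← Finset.prod_mul_distrib]

end RingPart

section O

variable {K : Type} [Field K] [CharZero K] {O : ValuationSubring K} {n : ℕ}
  {F : (Fin n → Fin 5) → K} {f : Fin n → Fin 5 → K}

/-- The unit by which `f j` has to be multiplied to obtain `fib F j x` modulo `3`. -/
def lam (f : Fin n → Fin 5 → K) (j : Fin n) (x : Fin n → Fin 2 → K) : K :=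
  ∏ i ∈ Finset.univ.erase j, qf (f i) (x i)

private theorem fibO_mulcongr {r : ℕ} {a a' b b' : K} (ha' : a' ∈ O) (hb : b ∈ O)
    (h : dv O r (a - a')) (h' : dv O r (b - b')) : dv O r (a * b - a' * b') := by
  have : a * b - a' * b' = (a - a') * b + a' * (b - b') := by ring
  rw [this]
  exact (h.mul_right hb).add (dv.mul_left ha' h')

private theorem fibO_powcongr {r : ℕ} {a a' : K} (ha : a ∈ O) (ha' : a' ∈ O)
    (h : dv O r (a - a')) (d : ℕ) : dv O r (a ^ d - a' ^ d) := by
  induction d with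
  | zero => simpa using dv_self_zero (O := O) r
  | succ d ih =>
    rw [pow_succ, pow_succ]
    exact fibO_mulcongr (pow_mem ha' d) ha ih h

private theorem fibO_prodcongr {r : ℕ} {ι : Type*} (T : Finset ι) {g g' : ι → K}
    (hg : ∀ i ∈ T, g i ∈ O) (hg' : ∀ i ∈ T, g' i ∈ O) (h : ∀ i ∈ T, dv O r (g i - g' i)) :
    dv O r (∏ i ∈ T, g i - ∏ i ∈ T, g' i) := by
  classical
  induction T using Finset.induction_on with
  | empty => simpa using dv_self_zero (O := O) r
  | insert a T ha ih =>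
    rw [Finset.prod_insert ha, Finset.prod_insert ha]
    refine fibO_mulcongr (hg' a (Finset.mem_insert_self a T))
      (prod_mem fun i hi => hg i (Finset.mem_insert_of_mem hi))
      (h a (Finset.mem_insert_self a T))
      (ih (fun i hi => hg i (Finset.mem_insert_of_mem hi))
        (fun i hi => hg' i (Finset.mem_insert_of_mem hi))
        (fun i hi => h i (Finset.mem_insert_of_mem hi)))

private theorem fibO_e_mem (j : Fin n) {x : Fin n → Fin 2 → K} (hx : ∀ i k, x i k ∈ O)
    (m : Fin n → Fin 5) : fibOe j x m ∈ O :=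
  prod_mem fun i _ => mul_mem (pow_mem (hx i 0) _) (pow_mem (hx i 1) _)

private theorem fibO_e_congr (j : Fin n) {x x' : Fin n → Fin 2 → K} (hx : ∀ i k, x i k ∈ O)
    (hx' : ∀ i k, x' i k ∈ O) {r : ℕ} (h : ∀ i k, dv O r (x i k - x' i k))
    (m : Fin n → Fin 5) : dv O r (fibOe j x m - fibOe j x' m) := by
  refine fibO_prodcongr _ (fun i _ => mul_mem (pow_mem (hx i 0) _) (pow_mem (hx i 1) _))
    (fun i _ => mul_mem (pow_mem (hx' i 0) _) (pow_mem (hx' i 1) _)) fun i _ => ?_
  exact fibO_mulcongr (pow_mem (hx' i 0) _) (pow_mem (hx i 1) _)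
    (fibO_powcongr (hx i 0) (hx' i 0) (h i 0) _) (fibO_powcongr (hx i 1) (hx' i 1) (h i 1) _)

private theorem fibO_qf_congr {q : Fin 5 → K} (hq : ∀ k, q k ∈ O) {v v' : Fin 2 → K}
    (hv : ∀ k, v k ∈ O) (hv' : ∀ k, v' k ∈ O) {r : ℕ} (h : ∀ k, dv O r (v k - v' k)) :
    dv O r (qf q v - qf q v') := by
  rw [fibO_qf_eq, fibO_qf_eq, ← Finset.sum_sub_distrib]
  refine dv.sum fun a _ => ?_
  rw [← mul_sub]
  exact dv.mul_left (hq a) (fibO_mulcongr (pow_mem (hv' 0) _) (pow_mem (hv 1) _)
    (fibO_powcongr (hv 0) (hv' 0) (h 0) _) (fibO_powcongr (hv 1) (hv' 1) (h 1) _))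

private theorem fibO_unit_prod (hO : Unr O) {ι : Type*} (T : Finset ι) {g : ι → K}
    (hg : ∀ i ∈ T, g i ∈ O) (h : ∀ i ∈ T, ¬ dv O 1 (g i)) :
    ∏ i ∈ T, g i ∈ O ∧ ¬ dv O 1 (∏ i ∈ T, g i) := by
  classical
  refine ⟨prod_mem hg, ?_⟩
  induction T using Finset.induction_on with
  | empty => simpa using one_not_dv hO
  | insert a T ha ih =>
    rw [Finset.prod_insert ha]
    exact not_dv_mul hO (hg a (Finset.mem_insert_self a T))
      (prod_mem fun i hi => hg i (Finset.mem_insert_of_mem hi))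
      (h a (Finset.mem_insert_self a T))
      (ih (fun i hi => hg i (Finset.mem_insert_of_mem hi))
        (fun i hi => h i (Finset.mem_insert_of_mem hi)))

private theorem fibO_split (H : Hyp O F f) : ∃ G : (Fin n → Fin 5) → K, (∀ m, G m ∈ O) ∧
    ∀ m, F m = ∏ i, f i (m i) + 3 * G m := by
  choose G hG hG' using H.cong
  refine ⟨G, hG, fun m => ?_⟩
  have := hG' m
  rw [pow_one] at this
  rw [← this]; ring

theorem F_mem (H : Hyp O F f) (m : Fin n → Fin 5) : F m ∈ O := by
  have h1 : ∏ i, f i (m i) ∈ O := prod_mem fun i _ => (H.good i).int (m i)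
  have h2 : F m - ∏ i, f i (m i) ∈ O := (H.cong m).mem
  have := add_mem h2 h1
  simpa using this

theorem lam_unit (H : Hyp O F f) (j : Fin n) {x : Fin n → Fin 2 → K} (hx : ∀ i, uni O (x i)) :
    lam f j x ∈ O ∧ ¬ dv O 1 (lam f j x) := by
  exact fibO_unit_prod H.unr _ (fun i _ => qf_mem (H.good i).int (hx i).1)
    (fun i _ => (H.good i).root (x i) (hx i))

theorem fib_mem (H : Hyp O F f) (j : Fin n) {x : Fin n → Fin 2 → K} (hx : ∀ i k, x i k ∈ O)
    (k : Fin 5) : fib F j x k ∈ O := by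
  exact sum_mem fun m _ => mul_mem (F_mem H m) (fibO_e_mem j hx m)

private theorem fibO_lam_mem (H : Hyp O F f) (j : Fin n) {x : Fin n → Fin 2 → K}
    (hx : ∀ i k, x i k ∈ O) : lam f j x ∈ O :=
  prod_mem fun i _ => qf_mem (H.good i).int (hx i)

private theorem fibO_fib_eq {G : (Fin n → Fin 5) → K}
    (hG : ∀ m, F m = ∏ i, f i (m i) + 3 * G m) (j : Fin n) (x : Fin n → Fin 2 → K) (k : Fin 5) :
    fib F j x k = lam f j x * f j k +
      3 * ∑ m : Fin n → Fin 5 with m j = k, G m * fibOe j x m := by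
  rw [lam, ← fibO_prod, Finset.mul_sum, ← Finset.sum_add_distrib]
  refine Finset.sum_congr rfl fun m _ => ?_
  rw [hG m, fibOe]; ring

theorem fib_cong (H : Hyp O F f) (j : Fin n) {x : Fin n → Fin 2 → K} (hx : ∀ i k, x i k ∈ O)
    (k : Fin 5) : dv O 1 (fib F j x k - lam f j x * f j k) := by
  obtain ⟨G, hG, hG'⟩ := fibO_split H
  refine ⟨∑ m : Fin n → Fin 5 with m j = k, G m * fibOe j x m,
    sum_mem fun m _ => mul_mem (hG m) (fibO_e_mem j hx m), ?_⟩
  rw [fibO_fib_eq hG' j x k]; ring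

theorem good_fib (H : Hyp O F f) (j : Fin n) {x : Fin n → Fin 2 → K} (hx : ∀ i, uni O (x i)) :
    Good O (fib F j x) := by
  have hl := lam_unit H j hx
  exact good_congr H.unr (good_smul H.unr (H.good j) hl.1 hl.2)
    (fun k => fib_cong H j (fun i => (hx i).1) k)

theorem val_unit (H : Hyp O F f) {x : Fin n → Fin 2 → K} (hx : ∀ i, uni O (x i)) :
    val F x ∈ O ∧ ¬ dv O 1 (val F x) := by
  obtain ⟨G, hG, hG'⟩ := fibO_split H
  have hm : ∀ m : Fin n → Fin 5, mono 4 x m ∈ O := fun m =>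
    prod_mem fun i _ => mul_mem (pow_mem ((hx i).1 0) _) (pow_mem ((hx i).1 1) _)
  have hu := fibO_unit_prod H.unr (Finset.univ : Finset (Fin n))
    (g := fun i => qf (f i) (x i)) (fun i _ => qf_mem (H.good i).int (hx i).1)
    (fun i _ => (H.good i).root (x i) (hx i))
  have hs : ∑ m, G m * mono 4 x m ∈ O := sum_mem fun m _ => mul_mem (hG m) (hm m)
  have he : val F x = ∏ i, qf (f i) (x i) + 3 * ∑ m, G m * mono 4 x m := by
    rw [val, ← fibO_prod_val, Finset.mul_sum, ← Finset.sum_add_distrib]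
    refine Finset.sum_congr rfl fun m _ => ?_
    rw [hG' m]; ring
  have h3 : dv O 1 (3 * ∑ m, G m * mono 4 x m) := ⟨_, hs, by ring⟩
  refine ⟨?_, fun h => hu.2 ?_⟩
  · rw [he]; exact add_mem hu.1 h3.mem
  · have := h.sub h3
    rw [he] at this
    simpa using this

theorem fib_diff (H : Hyp O F f) (j : Fin n) {x x' : Fin n → Fin 2 → K}
    (hx : ∀ i k, x i k ∈ O) (hx' : ∀ i k, x' i k ∈ O) {r : ℕ}
    (h : ∀ i k, dv O r (x i k - x' i k)) (k : Fin 5) :
    dv O (r + 1) (lam f j x' * fib F j x k - lam f j x * fib F j x' k) := by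
  obtain ⟨G, hG, hG'⟩ := fibO_split H
  rw [fibO_fib_eq hG' j x k, fibO_fib_eq hG' j x' k]
  have he : lam f j x' * (lam f j x * f j k +
      3 * ∑ m : Fin n → Fin 5 with m j = k, G m * fibOe j x m) -
      lam f j x * (lam f j x' * f j k +
      3 * ∑ m : Fin n → Fin 5 with m j = k, G m * fibOe j x' m) =
      3 * (lam f j x' * (∑ m : Fin n → Fin 5 with m j = k, G m * fibOe j x m) -
        lam f j x * (∑ m : Fin n → Fin 5 with m j = k, G m * fibOe j x' m)) := by ring
  rw [he, dv_three_mul]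
  refine fibO_mulcongr (fibO_lam_mem H j hx)
    (sum_mem fun m _ => mul_mem (hG m) (fibO_e_mem j hx m)) ?_ ?_
  · refine fibO_prodcongr _ (fun i _ => qf_mem (H.good i).int (hx' i))
      (fun i _ => qf_mem (H.good i).int (hx i)) fun i _ => ?_
    refine fibO_qf_congr (H.good i).int (hx' i) (hx i) fun k => ?_
    have := (h i k).neg
    rwa [neg_sub] at this
  · rw [← Finset.sum_sub_distrib]
    refine dv.sum fun m _ => ?_
    rw [← mul_sub]
    exact dv.mul_left (hG m) (fibO_e_congr j hx hx' h m)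

end O

end Pool.Agent.CYM
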