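import Mathlib
import Pool.Agent.MazurQ.Final
import Pool.Agent.CYM.Defs
import Pool.Agent.CYM.NSQ
import Pool.Agent.CYM.CurveA
import Pool.Agent.CYM.CurveB

/-!
Rational points of the curve near a given one.
-/

namespace Pool.Agent.CYM

open MvPolynomial Topology

/-- Every rational point `(w, w3)` of the two quadrics lies on the curve. -/
theorem exists_cpt {K : Type} [Field K] {q : Fin 5 → K} {w : Fin 4 → K} (hw : w ≠ 0)
    (h1 : eval w (Q1 K) = 0) (h2 : eval w (Q2 q) = 0) :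
    ∃ (s : Fin 2 → K) (y κ : K), s ≠ 0 ∧ κ ≠ 0 ∧ y ^ 2 = qf q s ∧ w = κ • cpt s y := by
  rw [eval_Q1] at h1
  rw [eval_Q2] at h2
  have h1' : w 1 ^ 2 = w 0 * w 2 := by linear_combination -h1
  have h2' : w 3 ^ 2 = q 0 * w 0 ^ 2 + q 1 * w 0 * w 1 + q 2 * w 1 ^ 2 + q 3 * w 1 * w 2 +
      q 4 * w 2 ^ 2 := by linear_combination h2
  by_cases h0 : w 0 = 0
  · have hw1 : w 1 = 0 := by
      rw [h0, zero_mul] at h1'
      exact pow_eq_zero_iff (two_ne_zero) |>.1 h1'
    by_cases hw2 : w 2 = 0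
    · exfalso
      apply hw
      have hw3 : w 3 = 0 := by
        rw [h0, hw1, hw2] at h2'
        refine (pow_eq_zero_iff (two_ne_zero)).1 ?_
        rw [h2']; ring
      funext i
      fin_cases i
      · exact h0
      · exact hw1
      · exact hw2
      · exact hw3
    · refine ⟨![0, w 2], w 3 * w 2, (w 2)⁻¹, ?_, inv_ne_zero hw2, ?_, ?_⟩
      · intro h
        apply hw2
        have := congrFun h 1
        simpa using this
      · have e : qf q ![0, w 2] = q 4 * w 2 ^ 4 := by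
          simp only [qf, Matrix.cons_val_zero, Matrix.cons_val_one]
          ring
        rw [e, mul_pow, h2', h0, hw1]
        ring
      · funext i
        fin_cases i
        · show w 0 = (w 2)⁻¹ * (0 : K) ^ 2
          rw [h0]; ring
        · show w 1 = (w 2)⁻¹ * ((0 : K) * w 2)
          rw [hw1]; ring
        · show w 2 = (w 2)⁻¹ * (w 2) ^ 2
          field_simp
        · show w 3 = (w 2)⁻¹ * (w 3 * w 2)
          field_simp
  · refine ⟨![w 0, w 1], w 3 * w 0, (w 0)⁻¹, ?_, inv_ne_zero h0, ?_, ?_⟩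
    · intro h
      apply h0
      have := congrFun h 0
      simpa using this
    · have e : qf q ![w 0, w 1] = q 0 * w 0 ^ 4 + q 1 * w 0 ^ 3 * w 1 + q 2 * w 0 ^ 2 * w 1 ^ 2 +
          q 3 * w 0 * w 1 ^ 3 + q 4 * w 1 ^ 4 := by
        simp only [qf, Matrix.cons_val_zero, Matrix.cons_val_one]
      rw [e, mul_pow, h2']
      linear_combination (-(q 3 * w 0 * w 1) - q 4 * (w 1 ^ 2 + w 0 * w 2)) * h1'
    · funext i
      fin_cases i
      · show w 0 = (w 0)⁻¹ * (w 0) ^ 2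
        field_simp
      · show w 1 = (w 0)⁻¹ * (w 0 * w 1)
        field_simp
      · show w 2 = (w 0)⁻¹ * (w 1) ^ 2
        rw [h1']
        field_simp
      · show w 3 = (w 0)⁻¹ * (w 3 * w 0)
        field_simp

theorem nearM_coeff {K : Type} [Field K] (a g : MvPolynomial (Fin 4) K) (hg : g.IsHomogeneous 2)
    (i : Fin 4) : coeff (Finsupp.single i 1) (a * g) = 0 := by
  classical
  rw [coeff_mul]
  refine Finset.sum_eq_zero fun p hp => ?_
  have hp' : p.1 + p.2 = Finsupp.single i 1 := Finset.HasAntidiagonal.mem_antidiagonal.1 hp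
  have hd : p.2.degree ≠ 2 := by
    intro h
    have h1 := congrArg Finsupp.degree hp'
    rw [map_add, h, Finsupp.degree_single] at h1
    omega
  rw [hg.coeff_eq_zero hd, mul_zero]

theorem nearM_low {K : Type} [Field K] {q r f : MvPolynomial (Fin 4) K}
    (hq : q.IsHomogeneous 2) (hr : r.IsHomogeneous 2) (hf : f ∈ Ideal.span {q, r}) (i : Fin 4) :
    coeff (Finsupp.single i 1) f = 0 := by
  obtain ⟨a, b, rfl⟩ := Ideal.mem_span_pair.1 hf
  rw [coeff_add, nearM_coeff a q hq, nearM_coeff b r hr, add_zero]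

theorem nearM_local {K : Type} [Field K] [NumberField K] {L : Type} [NontriviallyNormedField L]
    {σ : K →+* L} (hσ : DenseRange σ) [ProperSpace L] {q : Fin 5 → K} (hns : NSq q)
    (hinf : ¬ FinC q) {s : Fin 2 → K} {y : K} (hs : s ≠ 0) (hy0 : y ≠ 0) (hy : y ^ 2 = qf q s) :
    Pool.Agent.MazurC.localIdeal σ {Q1 K, Q2 q} (sv σ (cpt s y)) =
      {f | f ∈ Ideal.span {Q1 K, Q2 q}} := by
  have hc0 : cpt s y 0 = s 0 ^ 2 := rfl
  have hc1 : cpt s y 1 = s 0 * s 1 := rfl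
  have hc2 : cpt s y 2 = s 1 ^ 2 := rfl
  have hc3 : cpt s y 3 = y := rfl
  have hd1 : ∀ i, eval (cpt s y) (pderiv i (Q1 K)) = (![s 1 ^ 2, -2 * (s 0 * s 1), s 0 ^ 2, 0] :
      Fin 4 → K) i := by
    intro i
    rw [Q1]
    fin_cases i <;> simp [pderiv_X, hc0, hc1, hc2]
  have hd2 : eval (cpt s y) (pderiv 3 (Q2 q)) = 2 * y := by
    rw [Q2]
    simp [pderiv_X, hc3]
  refine (Pool.Agent.MazurQ.final_two (σ := σ) hσ (Q1_hom K) (Q2_hom q)).2 (curve_prime hns)
    (curve_dense hns hinf) (sv σ (cpt s y)) ?_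
  intro U hU
  refine ⟨cpt s y, ?_, ?_, ?_, 1, one_ne_zero, ?_⟩
  · rw [eval_Q1, hc0, hc1, hc2]; ring
  · rw [eval_Q2, hc0, hc1, hc2, hc3, hy, qf]; ring
  · have hs' : s 0 ≠ 0 ∨ s 1 ≠ 0 := by
      by_contra h
      push Not at h
      apply hs
      funext i
      fin_cases i
      · exact h.1
      · exact h.2
    rcases hs' with h | h
    · refine ⟨2, 3, ?_⟩
      rw [hd1, hd1, hd2]
      show s 0 ^ 2 * (2 * y) ≠ 0 * _
      rw [zero_mul]
      exact mul_ne_zero (pow_ne_zero _ h) (mul_ne_zero two_ne_zero hy0)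
    · refine ⟨0, 3, ?_⟩
      rw [hd1, hd1, hd2]
      show s 1 ^ 2 * (2 * y) ≠ 0 * _
      rw [zero_mul]
      exact mul_ne_zero (pow_ne_zero _ h) (mul_ne_zero two_ne_zero hy0)
  · have h2 : (fun i => (1 : L) * σ (cpt s y i)) = sv σ (cpt s y) := by
      funext i; rw [one_mul]; rfl
    rw [h2]; exact mem_of_mem_nhds hU

theorem near_many {K : Type} [Field K] [NumberField K] {L : Type} [NontriviallyNormedField L]
    {σ : K →+* L} (hσ : DenseRange σ) [ProperSpace L] {q : Fin 5 → K} (hns : NSq q)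
    (hinf : ¬ FinC q) {s : Fin 2 → K} {y : K} (hs : s ≠ 0) (hy0 : y ≠ 0) (hy : y ^ 2 = qf q s)
    {U : Set (Fin 4 → L)} (hU : U ∈ 𝓝 (sv σ (cpt s y))) (T : Finset (Fin 2 → K)) :
    ∃ (s' : Fin 2 → K) (y' : K), s' ≠ 0 ∧ y' ^ 2 = qf q s' ∧ Near σ U (cpt s' y') ∧
      ∀ t ∈ T, t ≠ 0 → dt s' t ≠ 0 := by
  classical
  by_contra hcon
  push Not at hcon
  have hprime := curve_prime hns
  have hloc := nearM_local (σ := σ) hσ hns hinf hs hy0 hy
  set l : (Fin 2 → K) → MvPolynomial (Fin 4) K := fun t => C (t 1) * X 0 - C (t 0) * X 1 with hl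
  have hle : ∀ (t : Fin 2 → K) (w : Fin 4 → K), eval w (l t) = w 0 * t 1 - w 1 * t 0 := by
    intro t w; simp [hl]; ring
  have hmem : ∏ t ∈ T.filter (fun t => t ≠ 0), l t ∈
      Pool.Agent.MazurC.localIdeal σ {Q1 K, Q2 q} (sv σ (cpt s y)) := by
    refine ⟨U, hU, ?_⟩
    intro w hw0 hw hn r
    obtain ⟨s', y', κ, hs', hκ, hy', rfl⟩ := exists_cpt hw0 (hw (Q1 K) (by simp))
      (hw (Q2 q) (by simp))
    have hn' : Near σ U (cpt s' y') := by
      obtain ⟨c, hc, hcU⟩ := hn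
      refine ⟨c * σ κ, mul_ne_zero hc ((map_ne_zero σ).2 hκ), ?_⟩
      have h4 : (c * σ κ) • sv σ (cpt s' y') = fun i => c * σ ((κ • cpt s' y') i) := by
        funext i
        show (c * σ κ) * σ (cpt s' y' i) = c * σ (κ * cpt s' y' i)
        rw [map_mul]; ring
      rw [h4]
      exact hcU
    obtain ⟨t, ht, ht0, hd⟩ := hcon s' y' hs' hy' hn'
    rw [map_prod]
    refine Finset.prod_eq_zero (i := t) (by simp [ht, ht0]) ?_
    rw [hle]
    show r * (κ * s' 0 ^ 2) * t 1 - r * (κ * (s' 0 * s' 1)) * t 0 = 0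
    rw [dt] at hd
    linear_combination r * κ * s' 0 * hd
  rw [hloc] at hmem
  obtain ⟨t, ht, htl⟩ := (hprime.prod_mem_iff).1 hmem
  have ht0 : t ≠ 0 := (Finset.mem_filter.1 ht).2
  apply ht0
  have h0 := nearM_low (Q1_hom K) (Q2_hom q) htl 0
  have h1 := nearM_low (Q1_hom K) (Q2_hom q) htl 1
  have e0 : coeff (Finsupp.single (0 : Fin 4) 1) (l t) = t 1 := by
    rw [hl]
    simp only [coeff_sub, coeff_C_mul, coeff_X, Finsupp.single_left_inj (one_ne_zero)]
    simp
  have e1 : coeff (Finsupp.single (1 : Fin 4) 1) (l t) = - t 0 := by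
    rw [hl]
    simp only [coeff_sub, coeff_C_mul, coeff_X, Finsupp.single_left_inj (one_ne_zero)]
    simp
  rw [e0] at h0
  rw [e1] at h1
  funext i
  fin_cases i
  · exact neg_eq_zero.1 h1
  · exact h0

end Pool.Agent.CYM
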