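import Mathlib
import Pool.Agent.CYM.Defs
import Pool.Agent.CYM.FibR

/-!
The rational points of the double cover in projective space.
-/

namespace Pool.Agent.CYM

open MvPolynomial

variable {K : Type} [Field K] {n : ℕ} {F : (Fin n → Fin 5) → K}

/-- Composition of the evaluation with a ring homomorphism. -/
theorem eval₂_comp' {A B κ : Type*} [CommRing A] [CommRing B] (σ : A →+* B) (z : κ → A)
    (p : MvPolynomial κ A) : eval₂ σ (fun i => σ (z i)) p = σ (eval z p) := by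
  induction p using MvPolynomial.induction_on with
  | C a => simp
  | add p q hp hq => rw [eval₂_add, hp, hq, map_add, map_add]
  | mul_X p i hp => rw [eval₂_mul, hp, eval₂_X, map_mul, map_mul, eval_X]

/-- Scaling the argument of a homogeneous polynomial. -/
private theorem ptsA_eval_smul {ι R : Type*} [CommRing R] {g : MvPolynomial ι R} {d : ℕ}
    (hg : g.IsHomogeneous d) (κ : R) (v : ι → R) :
    eval (κ • v) g = κ ^ d * eval v g := by
  rw [eval_eq, eval_eq, Finset.mul_sum]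
  refine Finset.sum_congr rfl fun m hm => ?_
  have h1 : ∑ i ∈ m.support, m i = d := by
    have h2 := hg (mem_support_iff.1 hm)
    rw [← h2, Finsupp.weight_apply, Finsupp.sum]
    simp
  simp only [Pi.smul_apply, smul_eq_mul, mul_pow, Finset.prod_mul_distrib]
  rw [Finset.prod_pow_eq_pow_sum, h1]
  ring

/-- Product of two monomials of multidegree `(2, ..., 2)`. -/
private theorem ptsA_mono_mul {R : Type*} [CommRing R] {n : ℕ} (x : Fin n → Fin 2 → R)
    (m₁ m₂ : Fin n → Fin 3) :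
    mono 2 x m₁ * mono 2 x m₂ =
      ∏ i, x i 0 ^ (4 - ((m₁ i : ℕ) + m₂ i)) * x i 1 ^ ((m₁ i : ℕ) + m₂ i) := by
  unfold mono
  rw [← Finset.prod_mul_distrib]
  refine Finset.prod_congr rfl fun i _ => ?_
  have h1 : (m₁ i : ℕ) ≤ 2 := by have := (m₁ i).isLt; omega
  have h2 : (m₂ i : ℕ) ≤ 2 := by have := (m₂ i).isLt; omega
  have h3 : 4 - ((m₁ i : ℕ) + m₂ i) = (2 - (m₁ i : ℕ)) + (2 - (m₂ i : ℕ)) := by omega
  rw [h3, pow_add, pow_add]
  ring

theorem pt_ne_zero {x : Fin n → Fin 2 → K} (hx : ∀ i, x i ≠ 0) (t : K) : pt x t ≠ 0 := by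
  classical
  intro h
  have h1 : pt x t (some fun i => if x i 0 = 0 then (2 : Fin 3) else 0) = 0 := by rw [h]; rfl
  change mono 2 x (fun i => if x i 0 = 0 then (2 : Fin 3) else 0) = 0 at h1
  unfold mono at h1
  rw [Finset.prod_eq_zero_iff] at h1
  obtain ⟨i, -, hi⟩ := h1
  by_cases h0 : x i 0 = 0
  · have h2 : x i 1 ≠ 0 := by
      intro h3
      apply hx i
      funext k
      fin_cases k
      · exact h0
      · exact h3
    simp [h0] at hi
    exact h2 hi
  · simp [h0] at hi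

theorem pt_mem {x : Fin n → Fin 2 → K} {t : K} (ht : t ^ 2 = val F x) (κ : K) :
    ∀ g ∈ eqs F, eval (κ • pt x t) g = 0 := by
  rintro g ⟨⟨d, hd⟩, hg⟩
  have h1 := hg (fun i k => ac K (x i k)) (ac K t) (by rw [val_map, ← ht, map_pow])
  rw [pt_map, eval₂_comp'] at h1
  have h2 : eval (pt x t) g = 0 := (ac K).injective (by rw [h1, map_zero])
  rw [ptsA_eval_smul hd, h2, mul_zero]

/-- The quadratic relation between the monomials. -/
theorem quad_mem (m₁ m₂ m₃ m₄ : Fin n → Fin 3)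
    (h : ∀ i, (m₁ i : ℕ) + m₂ i = (m₃ i : ℕ) + m₄ i) :
    (X (some m₁) * X (some m₂) - X (some m₃) * X (some m₄) : MvPolynomial (Idx n) K) ∈ eqs F := by
  refine ⟨⟨2, ?_⟩, fun x y _ => ?_⟩
  · exact ((isHomogeneous_X K _).mul (isHomogeneous_X K _)).sub
      ((isHomogeneous_X K _).mul (isHomogeneous_X K _))
  · rw [eval₂_sub, eval₂_mul, eval₂_mul, eval₂_X, eval₂_X, eval₂_X, eval₂_X, sub_eq_zero]
    change mono 2 x m₁ * mono 2 x m₂ = mono 2 x m₃ * mono 2 x m₄
    rw [ptsA_mono_mul, ptsA_mono_mul]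
    exact Finset.prod_congr rfl fun i _ => by rw [h i]

/-- The equation `y ^ 2 = F` written with the monomials of multidegree `(2, ..., 2)`. -/
theorem main_mem : (X none ^ 2 - ∑ m : Fin n → Fin 5, C (F m) *
      (X (some fun i => (![0, 0, 1, 1, 2] : Fin 5 → Fin 3) (m i)) *
        X (some fun i => (![0, 1, 1, 2, 2] : Fin 5 → Fin 3) (m i))) :
      MvPolynomial (Idx n) K) ∈ eqs F := by
  refine ⟨⟨2, ?_⟩, fun x y hy => ?_⟩
  · refine ((isHomogeneous_X K _).pow 2).sub (IsHomogeneous.sum _ _ _ fun m _ => ?_)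
    have h1 := (isHomogeneous_C (Idx n) (F m)).mul ((isHomogeneous_X K
      (some fun i => (![0, 0, 1, 1, 2] : Fin 5 → Fin 3) (m i) : Idx n)).mul (isHomogeneous_X K
      (some fun i => (![0, 1, 1, 2, 2] : Fin 5 → Fin 3) (m i) : Idx n)))
    exact h1
  · rw [eval₂_sub, eval₂_pow, eval₂_X, eval₂_sum, sub_eq_zero]
    change y ^ 2 = _
    rw [hy]
    unfold val
    refine Finset.sum_congr rfl fun m _ => ?_
    rw [eval₂_mul, eval₂_C, eval₂_mul, eval₂_X, eval₂_X]
    change _ = ac K (F m) * (mono 2 x (fun i => (![0, 0, 1, 1, 2] : Fin 5 → Fin 3) (m i)) *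
      mono 2 x (fun i => (![0, 1, 1, 2, 2] : Fin 5 → Fin 3) (m i)))
    rw [ptsA_mono_mul]
    unfold mono
    congr 1
    refine Finset.prod_congr rfl fun i _ => ?_
    have h5 : ∀ a : Fin 5, (((![0, 0, 1, 1, 2] : Fin 5 → Fin 3) a : Fin 3) : ℕ) +
        (((![0, 1, 1, 2, 2] : Fin 5 → Fin 3) a : Fin 3) : ℕ) = (a : ℕ) := by decide
    rw [h5]

end Pool.Agent.CYM
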