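import Mathlib
import Pool.Agent.CYM.Defs
import Pool.Agent.CYM.FibR
import Pool.Agent.CYM.PtsA

/-!
The rational points of the double cover in projective space.
-/

namespace Pool.Agent.CYM

open MvPolynomial

variable {K : Type} [Field K] {n : ℕ} {F : (Fin n → Fin 5) → K}

/-- Points satisfying the quadratic relations. -/
theorem exists_mono {u : (Fin n → Fin 3) → K} (hu : u ≠ 0)
    (h : ∀ m₁ m₂ m₃ m₄ : Fin n → Fin 3, (∀ i, (m₁ i : ℕ) + m₂ i = (m₃ i : ℕ) + m₄ i) →
      u m₁ * u m₂ = u m₃ * u m₄) :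
    ∃ (x : Fin n → Fin 2 → K) (κ : K), (∀ i, x i ≠ 0) ∧ κ ≠ 0 ∧
      ∀ m, u m = κ * mono 2 x m := by
  classical
  obtain ⟨ms, hms⟩ : ∃ m, u m ≠ 0 := by
    by_contra hc
    push Not at hc
    exact hu (funext hc)
  obtain ⟨m0, h0, hm0⟩ : ∃ m0, u m0 ≠ 0 ∧ ∀ i, m0 i = 0 ∨ m0 i = 2 := by
    have hpm : u ms * u ms = u (fun i => if ms i = 1 then 0 else ms i) *
        u (fun i => if ms i = 1 then 2 else ms i) := by
      refine h _ _ _ _ fun i => ?_
      have key : ∀ a : Fin 3, (a : ℕ) + a = ((if a = 1 then 0 else a : Fin 3) : ℕ) +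
          ((if a = 1 then 2 else a : Fin 3) : ℕ) := by decide
      exact key _
    refine ⟨fun i => if ms i = 1 then 0 else ms i, ?_, fun i => ?_⟩
    · intro hc
      rw [hc, zero_mul] at hpm
      exact hms (mul_self_eq_zero.1 hpm)
    · have key : ∀ a : Fin 3, (if a = 1 then 0 else a) = 0 ∨ (if a = 1 then 0 else a) = 2 := by
        decide
      exact key _
  obtain ⟨r, hr⟩ : ∃ r : Fin n → K, ∀ i, u (Function.update m0 i 1) = u m0 * r i :=
    ⟨fun i => u (Function.update m0 i 1) / u m0, fun i => by field_simp⟩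
  obtain ⟨x, hx⟩ : ∃ x : Fin n → Fin 2 → K, ∀ i, x i = if m0 i = 0 then ![1, r i] else ![r i, 1] :=
    ⟨_, fun i => rfl⟩
  have hone : ∀ (i : Fin n) (k : Fin 3), u (Function.update m0 i k) =
      u m0 * (x i 0 ^ (2 - (k : ℕ)) * x i 1 ^ (k : ℕ)) := by
    intro i k
    have hsq : u (Function.update m0 i 1) * u (Function.update m0 i 1) =
        u (Function.update m0 i 0) * u (Function.update m0 i 2) := by
      refine h _ _ _ _ fun j => ?_
      by_cases hj : j = i
      · subst hj
        simp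
      · simp [hj]
    rw [hr] at hsq
    rcases hm0 i with h1 | h1
    · have hx0 : x i 0 = 1 := by rw [hx, if_pos h1]; rfl
      have hx1 : x i 1 = r i := by rw [hx, if_pos h1]; rfl
      have hu0 : Function.update m0 i 0 = m0 := by rw [← h1]; exact Function.update_eq_self i m0
      rw [hu0] at hsq
      have h3 : u (Function.update m0 i 2) = u m0 * r i ^ 2 :=
        mul_left_cancel₀ h0 (by rw [← hsq]; ring)
      rw [hx0, hx1]
      fin_cases k
      · simpa using congrArg u hu0
      · simpa using hr i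
      · simpa using h3
    · have h2 : m0 i ≠ 0 := by rw [h1]; decide
      have hx0 : x i 0 = r i := by rw [hx, if_neg h2]; rfl
      have hx1 : x i 1 = 1 := by rw [hx, if_neg h2]; rfl
      have hu0 : Function.update m0 i 2 = m0 := by rw [← h1]; exact Function.update_eq_self i m0
      rw [hu0] at hsq
      have h3 : u (Function.update m0 i 0) = u m0 * r i ^ 2 :=
        mul_right_cancel₀ h0 (by rw [← hsq]; ring)
      rw [hx0, hx1]
      fin_cases k
      · simpa using h3
      · simpa using hr i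
      · simpa using congrArg u hu0
  refine ⟨x, u m0, fun i hc => ?_, h0, fun m => ?_⟩
  · have h1 : x i 0 = 0 := by rw [hc]; rfl
    have h2 : x i 1 = 0 := by rw [hc]; rfl
    rcases hm0 i with h3 | h3
    · have hx0 : x i 0 = 1 := by rw [hx, if_pos h3]; rfl
      exact one_ne_zero (hx0.symm.trans h1)
    · have h4 : m0 i ≠ 0 := by rw [h3]; decide
      have hx1 : x i 1 = 1 := by rw [hx, if_neg h4]; rfl
      exact one_ne_zero (hx1.symm.trans h2)
  · have hs : ∀ s : Finset (Fin n), u (s.piecewise m m0) =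
        u m0 * ∏ i ∈ s, (x i 0 ^ (2 - (m i : ℕ)) * x i 1 ^ (m i : ℕ)) := by
      intro s
      induction s using Finset.induction_on with
      | empty => simp
      | insert i s hi ih =>
        have hrel : u ((insert i s).piecewise m m0) * u m0 =
            u (s.piecewise m m0) * u (Function.update m0 i (m i)) := by
          refine h _ _ _ _ fun j => ?_
          by_cases hj : j = i
          · subst hj
            simp [hi, add_comm]
          · by_cases hj2 : j ∈ s
            · simp [hj, hj2]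
            · simp [hj, hj2]
        rw [ih, hone] at hrel
        rw [Finset.prod_insert hi]
        exact mul_right_cancel₀ h0 (by rw [hrel]; ring)
    have h5 := hs Finset.univ
    rw [Finset.piecewise_univ] at h5
    exact h5

/-- Product of two monomials of multidegree `(2, ..., 2)`. -/
private theorem ptsB_mono_mul (x : Fin n → Fin 2 → K) (m : Fin n → Fin 5) :
    mono 2 x (fun i => (![0, 0, 1, 1, 2] : Fin 5 → Fin 3) (m i)) *
      mono 2 x (fun i => (![0, 1, 1, 2, 2] : Fin 5 → Fin 3) (m i)) = mono 4 x m := by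
  have key : ∀ (p q : K) (a : Fin 5),
      (p ^ (2 - (((![0, 0, 1, 1, 2] : Fin 5 → Fin 3) a : Fin 3) : ℕ)) *
        q ^ (((![0, 0, 1, 1, 2] : Fin 5 → Fin 3) a : Fin 3) : ℕ)) *
      (p ^ (2 - (((![0, 1, 1, 2, 2] : Fin 5 → Fin 3) a : Fin 3) : ℕ)) *
        q ^ (((![0, 1, 1, 2, 2] : Fin 5 → Fin 3) a : Fin 3) : ℕ)) =
      p ^ (4 - (a : ℕ)) * q ^ (a : ℕ) := by
    intro p q a
    fin_cases a <;> simp <;> ring
  unfold mono
  rw [← Finset.prod_mul_distrib]
  exact Finset.prod_congr rfl fun i _ => key _ _ _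

theorem exists_pt {y : Idx n → K} (hy : y ≠ 0) (h : ∀ g ∈ eqs F, eval y g = 0) :
    ∃ (x : Fin n → Fin 2 → K) (t κ : K), (∀ i, x i ≠ 0) ∧ κ ≠ 0 ∧ t ^ 2 = val F x ∧
      y = κ • pt x t := by
  have hq : ∀ m₁ m₂ m₃ m₄ : Fin n → Fin 3, (∀ i, (m₁ i : ℕ) + m₂ i = (m₃ i : ℕ) + m₄ i) →
      y (some m₁) * y (some m₂) = y (some m₃) * y (some m₄) := by
    intro m₁ m₂ m₃ m₄ hm
    have h1 := h _ (quad_mem (F := F) m₁ m₂ m₃ m₄ hm)
    simpa [sub_eq_zero] using h1
  have hm : y none ^ 2 = ∑ m : Fin n → Fin 5, F m *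
      (y (some fun i => (![0, 0, 1, 1, 2] : Fin 5 → Fin 3) (m i)) *
        y (some fun i => (![0, 1, 1, 2, 2] : Fin 5 → Fin 3) (m i))) := by
    have h1 := h _ (main_mem (F := F))
    rw [map_sub, map_pow, map_sum, eval_X, sub_eq_zero] at h1
    rw [h1]
    refine Finset.sum_congr rfl fun m _ => ?_
    rw [map_mul, map_mul, eval_C, eval_X, eval_X]
  have hu : (fun m => y (some m)) ≠ (0 : (Fin n → Fin 3) → K) := by
    intro h0
    have h1 : ∀ m, y (some m) = 0 := fun m => congrFun h0 m
    apply hy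
    funext l
    cases l with
    | none =>
      have h2 : y none ^ 2 = 0 := by
        rw [hm]
        exact Finset.sum_eq_zero fun m _ => by rw [h1, zero_mul, mul_zero]
      exact pow_eq_zero_iff (two_ne_zero) |>.1 h2
    | some m => exact h1 m
  obtain ⟨x, κ, hx, hκ, hxm⟩ := exists_mono hu hq
  have hxm' : ∀ m, y (some m) = κ * mono 2 x m := hxm
  refine ⟨x, y none / κ, κ, hx, hκ, ?_, ?_⟩
  · rw [div_pow, div_eq_iff (pow_ne_zero 2 hκ), hm]
    unfold val
    rw [Finset.sum_mul]
    refine Finset.sum_congr rfl fun m _ => ?_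
    rw [hxm', hxm', ← ptsB_mono_mul]
    ring
  · funext l
    cases l with
    | none =>
      change y none = κ * (y none / κ)
      field_simp
    | some m => exact hxm' m

end Pool.Agent.CYM
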