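import Mathlib
import Pool.Agent.CYM.Defs
import Pool.Agent.CYM.NSQ
import Pool.Agent.CYM.CurveA
import Pool.Agent.CYM.NearM
import Pool.Agent.CYM.FibR
import Pool.Agent.CYM.FibO
import Pool.Agent.CYM.PtsA
import Pool.Agent.CYM.PtsB

/-!
Moving a rational point in one direction.
-/

namespace Pool.Agent.CYM

open MvPolynomial Topology

/-- The linear map from the space of the curve to the space of the double cover. -/
private def Move_lin {R : Type*} [CommRing R] {n : ℕ} (j : Fin n) (c : (Fin n → Fin 3) → R)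
    (w : Fin 4 → R) : Idx n → R
  | none => w 3
  | some m => c m * w (Fin.castSucc (m j))

private theorem Move_lin_smul {R : Type*} [CommRing R] {n : ℕ} (j : Fin n)
    (c : (Fin n → Fin 3) → R) (κ : R) (w : Fin 4 → R) :
    Move_lin j c (κ • w) = κ • Move_lin j c w := by
  funext l
  rcases l with _ | m
  · simp [Move_lin]
  · simp only [Move_lin, Pi.smul_apply, smul_eq_mul]
    ring

private theorem Move_lin_cpt {R : Type*} [CommRing R] {n : ℕ} (j : Fin n)
    (x : Fin n → Fin 2 → R) (s : Fin 2 → R) (y : R) :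
    Move_lin j (fun m => ∏ i ∈ Finset.univ.erase j, x i 0 ^ (2 - (m i : ℕ)) * x i 1 ^ (m i : ℕ))
      (cpt s y) = pt (Function.update x j s) y := by
  funext l
  rcases l with _ | m
  · simp [Move_lin, cpt, pt]
  · simp only [Move_lin, pt, mono]
    rw [← Finset.mul_prod_erase Finset.univ _ (Finset.mem_univ j)]
    have h1 : ∏ i ∈ Finset.univ.erase j, Function.update x j s i 0 ^ (2 - (m i : ℕ)) *
        Function.update x j s i 1 ^ (m i : ℕ) =
        ∏ i ∈ Finset.univ.erase j, x i 0 ^ (2 - (m i : ℕ)) * x i 1 ^ (m i : ℕ) := by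
      refine Finset.prod_congr rfl fun i hi => ?_
      rw [Function.update_of_ne (Finset.ne_of_mem_erase hi)]
    rw [h1, Function.update_self, mul_comm]
    congr 1
    generalize m j = k
    fin_cases k
    · simp [cpt]
    · simp [cpt]
    · simp [cpt]

theorem move {K : Type} [Field K] [NumberField K] {L : Type} [NontriviallyNormedField L]
    {σ : K →+* L} (hσ : DenseRange σ) [ProperSpace L] {n : ℕ} {F : (Fin n → Fin 5) → K}
    {x : Fin n → Fin 2 → K} {t : K} (j : Fin n) (hx : ∀ i, x i ≠ 0) (ht : t ^ 2 = val F x)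
    (ht0 : t ≠ 0) (hns : NSq (fib F j x)) (hinf : ¬ FinC (fib F j x)) {U : Set (Idx n → L)}
    (hU : IsOpen U) (hP : Near σ U (pt x t)) (T : Finset (Fin 2 → K)) :
    ∃ (s : Fin 2 → K) (t' : K), s ≠ 0 ∧ t' ^ 2 = val F (Function.update x j s) ∧
      Near σ U (pt (Function.update x j s) t') ∧ ∀ τ ∈ T, τ ≠ 0 → dt s τ ≠ 0 := by
  obtain ⟨c, hc, hcU⟩ := hP
  set cf : (Fin n → Fin 3) → K := fun m =>
    ∏ i ∈ Finset.univ.erase j, x i 0 ^ (2 - (m i : ℕ)) * x i 1 ^ (m i : ℕ) with hcf
  have hmap : ∀ w : Fin 4 → K,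
      Move_lin j (fun m => σ (cf m)) (sv σ w) = sv σ (Move_lin j cf w) := by
    intro w
    funext l
    rcases l with _ | m
    · rfl
    · simp [Move_lin, sv]
  have hcont : Continuous fun w : Fin 4 → L => c • Move_lin j (fun m => σ (cf m)) w := by
    refine Continuous.const_smul ?_ c
    refine continuous_pi fun l => ?_
    rcases l with _ | m
    · exact continuous_apply 3
    · exact continuous_const.mul (continuous_apply _)
  have hopen := hU.preimage hcont
  have hself : pt x t = pt (Function.update x j (x j)) t := by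
    rw [Function.update_eq_self]
  have hmem : sv σ (cpt (x j) t) ∈
      (fun w : Fin 4 → L => c • Move_lin j (fun m => σ (cf m)) w) ⁻¹' U := by
    show c • Move_lin j (fun m => σ (cf m)) (sv σ (cpt (x j) t)) ∈ U
    rw [hmap, hcf, Move_lin_cpt, ← hself]
    exact hcU
  obtain ⟨s', y', hs', hy', ⟨c', hc', hc'U⟩, hT⟩ := near_many hσ hns hinf (hx j) ht0
    (by rw [qf_fib_self]; exact ht) (hopen.mem_nhds hmem) T
  refine ⟨s', y', hs', ?_, ⟨c * c', mul_ne_zero hc hc', ?_⟩, hT⟩
  · rw [hy', qf_fib]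
  · have h1 : c • Move_lin j (fun m => σ (cf m)) (c' • sv σ (cpt s' y')) ∈ U := hc'U
    rw [Move_lin_smul, hmap, hcf, Move_lin_cpt, smul_smul] at h1
    exact h1

end Pool.Agent.CYM
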