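import Mathlib
import Pool.Agent.CYM.Defs
import Pool.Agent.CYM.VRingA
import Pool.Agent.CYM.VRingB
import Pool.Agent.CYM.Uni

/-!
Finiteness of the residue field and of its projective line.
-/

namespace Pool.Agent.CYM

variable {K : Type} [Field K] [NumberField K] {O : ValuationSubring K}

/-- Integral relation with coefficients not all divisible by `3`. -/
private theorem resFin_rel {ι : Type*} [Fintype ι] (a : ι → K)
    (hc : Module.finrank ℚ K < Fintype.card ι) :
    ∃ g : ι → ℤ, ∑ i, (g i : K) * a i = 0 ∧ ∃ i, ¬ (3 : ℤ) ∣ g i := by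
  have h1 : ¬ LinearIndependent ℚ a := by
    intro h
    have := h.fintype_card_le_finrank
    omega
  have h2 : ¬ LinearIndependent ℤ a := by
    intro h
    exact h1 ((LinearIndependent.iff_fractionRing ℤ ℚ).1 h)
  rw [Fintype.not_linearIndependent_iff] at h2
  obtain ⟨g, hg, i0, hi0⟩ := h2
  have hne : (Finset.univ : Finset ι).Nonempty := ⟨i0, Finset.mem_univ _⟩
  obtain ⟨g', hg', hgcd⟩ := Finset.extract_gcd g hne
  have hd : (Finset.univ.gcd g : ℤ) ≠ 0 := by
    intro h
    apply hi0
    have := hg' i0 (Finset.mem_univ _)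
    rw [h, zero_mul] at this
    exact this
  refine ⟨g', ?_, ?_⟩
  · have h3 : ((Finset.univ.gcd g : ℤ) : K) * ∑ i, (g' i : K) * a i = 0 := by
      rw [Finset.mul_sum, ← hg]
      refine Finset.sum_congr rfl fun i _ => ?_
      rw [hg' i (Finset.mem_univ _), zsmul_eq_mul]
      push_cast
      ring
    rcases mul_eq_zero.1 h3 with h | h
    · exact absurd (by exact_mod_cast h) hd
    · exact h
  · by_contra hall
    push Not at hall
    have h4 : (3 : ℤ) ∣ Finset.univ.gcd g' := Finset.dvd_gcd fun i _ => hall i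
    rw [hgcd] at h4
    omega

theorem exists_residues (hO : Unr O) : ∃ A : Finset K, (∀ a ∈ A, a ∈ O) ∧
    ∀ x ∈ O, ∃ a ∈ A, dv O 1 (x - a) := by
  classical
  let I : Ideal O := Ideal.span {(3 : O) ^ 1}
  let k := O ⧸ I
  have h3 : ∀ x : k, 3 • x = 0 := by
    intro x
    obtain ⟨y, rfl⟩ := Ideal.Quotient.mk_surjective x
    rw [← map_nsmul, nsmul_eq_mul]
    apply Ideal.Quotient.eq_zero_iff_mem.2
    exact Ideal.mem_span_singleton.2 ⟨y, by push_cast; ring⟩
  let _ : Module (ZMod 3) k := AddCommGroup.zmodModule h3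
  have : Fact (Nat.Prime 3) := ⟨Nat.prime_three⟩
  have hrank : Module.rank (ZMod 3) k ≤ (Module.finrank ℚ K : ℕ) := by
    apply rank_le
    intro s hs
    by_contra hlt
    push Not at hlt
    have hlift : ∀ i : s, ∃ y : O, Ideal.Quotient.mk I y = (i : k) := fun i =>
      Ideal.Quotient.mk_surjective (i : k)
    choose a ha using hlift
    obtain ⟨g, hg, i0, hi0⟩ := resFin_rel (fun i : s => (a i : K)) (by simpa using hlt)
    have hO' : ∑ i, (g i : O) * a i = 0 := by
      apply Subtype.ext
      push_cast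
      exact hg
    have hk : ∑ i, ((g i : ℤ) : ZMod 3) • (i : k) = 0 := by
      have := congrArg (Ideal.Quotient.mk I) hO'
      rw [map_sum, map_zero] at this
      rw [← this]
      refine Finset.sum_congr rfl fun i _ => ?_
      rw [Int.cast_smul_eq_zsmul, map_mul, ha i, map_intCast, zsmul_eq_mul]
    have := Fintype.linearIndependent_iff.1 hs (fun i => ((g i : ℤ) : ZMod 3)) hk i0
    exact hi0 ((ZMod.intCast_zmod_eq_zero_iff_dvd _ 3).1 this)
  have hfin : Module.Finite (ZMod 3) k := by
    rw [← Module.rank_lt_aleph0_iff]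
    exact lt_of_le_of_lt hrank (Cardinal.natCast_lt_aleph0)
  have : Finite k := Module.finite_of_finite (ZMod 3)
  have : Fintype k := Fintype.ofFinite k
  refine ⟨Finset.univ.image fun c : k => ((Ideal.Quotient.mk_surjective c).choose : K), ?_, ?_⟩
  · intro a ha
    obtain ⟨c, -, rfl⟩ := Finset.mem_image.1 ha
    exact ((Ideal.Quotient.mk_surjective c).choose).2
  · intro x hx
    let c : k := Ideal.Quotient.mk I ⟨x, hx⟩
    refine ⟨_, Finset.mem_image.2 ⟨c, Finset.mem_univ _, rfl⟩, ?_⟩
    have hc := (Ideal.Quotient.mk_surjective c).choose_spec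
    have : dv O 1 (((⟨x, hx⟩ : O) - (Ideal.Quotient.mk_surjective c).choose : O) : K) := by
      rw [dv_iff_quot, map_sub, hc, sub_self]
    simpa using this

theorem exists_classes (hO : Unr O) : ∃ R : Finset (Fin 2 → K), (∀ r ∈ R, uni O r) ∧
    ∀ v, uni O v → ∃ r ∈ R, dv O 1 (dt v r) := by
  classical
  obtain ⟨A, hA, hA'⟩ := exists_residues hO
  refine ⟨(A.image fun a => (![1, a] : Fin 2 → K)) ∪ (A.image fun a => (![a, 1] : Fin 2 → K)),
    ?_, ?_⟩
  · intro r hr
    rcases Finset.mem_union.1 hr with h | h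
    · obtain ⟨a, ha, rfl⟩ := Finset.mem_image.1 h
      refine ⟨?_, 0, ?_⟩
      · intro k
        fin_cases k
        · exact O.one_mem
        · exact hA a ha
      · exact one_not_dv hO
    · obtain ⟨a, ha, rfl⟩ := Finset.mem_image.1 h
      refine ⟨?_, 1, ?_⟩
      · intro k
        fin_cases k
        · exact hA a ha
        · exact O.one_mem
      · exact one_not_dv hO
  · intro v hv
    obtain ⟨hvO, k, hk⟩ := hv
    obtain ⟨hk0, hkinv, -⟩ := unit_inv hO (hvO k) hk
    fin_cases k
    · obtain ⟨a, ha, haa⟩ := hA' (v 1 * (v 0)⁻¹) (O.mul_mem _ _ (hvO 1) hkinv)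
      refine ⟨![1, a], Finset.mem_union_left _ (Finset.mem_image_of_mem _ ha), ?_⟩
      have h0 : v 0 ≠ 0 := hk0
      have : dt v ![1, a] = -(v 0 * (v 1 * (v 0)⁻¹ - a)) := by
        simp only [dt, Matrix.cons_val_zero, Matrix.cons_val_one]
        field_simp
        ring
      rw [this]
      exact (dv.mul_left (hvO 0) haa).neg
    · obtain ⟨a, ha, haa⟩ := hA' (v 0 * (v 1)⁻¹) (O.mul_mem _ _ (hvO 0) hkinv)
      refine ⟨![a, 1], Finset.mem_union_right _ (Finset.mem_image_of_mem _ ha), ?_⟩
      have h1 : v 1 ≠ 0 := hk0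
      have : dt v ![a, 1] = v 1 * (v 0 * (v 1)⁻¹ - a) := by
        simp only [dt, Matrix.cons_val_zero, Matrix.cons_val_one]
        field_simp
      rw [this]
      exact dv.mul_left (hvO 1) haa

end Pool.Agent.CYM
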