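import Mathlib
import Pool.Agent.CYM.Defs
import Pool.Agent.CYM.TAlgA
import Pool.Agent.CYM.TAlgB
import Pool.Agent.CYM.VRingA
import Pool.Agent.CYM.VRingB
import Pool.Agent.CYM.Uni
import Pool.Agent.CYM.ResFin
import Pool.Agent.CYM.TGoodA
import Pool.Agent.CYM.TGoodB

/-!
Preperiodic points of the tripling map are periodic, with a uniform period.
-/

namespace Pool.Agent.CYM

variable {K : Type} [Field K] [NumberField K] {O : ValuationSubring K}

theorem iterate_uni (hO : Unr O) {q : Fin 5 → K} (hq : Good O q) {v : Fin 2 → K} (hv : uni O v)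
    (m : ℕ) : uni O ((Tm q)^[m] v) := by
  induction m with
  | zero => exact hv
  | succ n ih =>
    rw [Function.iterate_succ_apply']
    exact Tm_uni hO hq ih

theorem iterate_smul (q : Fin 5 → K) (m : ℕ) (κ : K) (v : Fin 2 → K) :
    (Tm q)^[m] (fun k => κ * v k) = fun k => κ ^ 9 ^ m * (Tm q)^[m] v k := by
  induction m with
  | zero => simp
  | succ n ih =>
    rw [Function.iterate_succ_apply', ih, Tm_smul_v]
    funext k
    rw [Function.iterate_succ_apply', ← pow_mul, ← pow_succ]

/-- Residue classes are preserved by iteration. -/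
private theorem periodA_push (hO : Unr O) {q : Fin 5 → K} (hq : Good O q) {v w : Fin 2 → K}
    (hv : uni O v) (hw : uni O w) {r : ℕ} (hr : 1 ≤ r) (h : dv O r (dt v w)) (n : ℕ) :
    dv O r (dt ((Tm q)^[n] v) ((Tm q)^[n] w)) := by
  induction n with
  | zero => exact h
  | succ n ih =>
    rw [Function.iterate_succ_apply', Function.iterate_succ_apply']
    exact (Tm_contr hO hq (iterate_uni hO hq hv n) (iterate_uni hO hq hw n) hr ih).mono
      (Nat.le_succ r)

/-- At least one step contracts. -/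
private theorem periodA_contr (hO : Unr O) {q : Fin 5 → K} (hq : Good O q) {v w : Fin 2 → K}
    (hv : uni O v) (hw : uni O w) {r : ℕ} (hr : 1 ≤ r) (h : dv O r (dt v w)) {n : ℕ} (hn : 1 ≤ n) :
    dv O (r + 1) (dt ((Tm q)^[n] v) ((Tm q)^[n] w)) := by
  obtain ⟨k, rfl⟩ : ∃ k, n = k + 1 := ⟨n - 1, by omega⟩
  rw [Function.iterate_succ_apply', Function.iterate_succ_apply']
  exact Tm_contr hO hq (iterate_uni hO hq hv k) (iterate_uni hO hq hw k) hr
    (periodA_push hO hq hv hw hr h k)

/-- Congruence classes can be pulled back. -/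
private theorem periodA_pull (hO : Unr O) {q : Fin 5 → K} (hq : Good O q) (n : ℕ) :
    ∀ {v w : Fin 2 → K}, uni O v → uni O w → dv O 1 (dt ((Tm q)^[n] v) ((Tm q)^[n] w)) →
      dv O 1 (dt v w) := by
  induction n with
  | zero => exact fun _ _ h => h
  | succ n ih =>
    intro v w hv hw h
    rw [Function.iterate_succ_apply', Function.iterate_succ_apply'] at h
    exact ih hv hw (Tm_inj hO hq (iterate_uni hO hq hv n) (iterate_uni hO hq hw n) h)

omit [NumberField K] in
private theorem periodA_symm {r : ℕ} {v w : Fin 2 → K} (h : dv O r (dt v w)) :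
    dv O r (dt w v) := by
  rw [dt_comm]
  exact h.neg

/-- Two points with a common period in the same residue disc are equal. -/
theorem per_unique (hO : Unr O) {q : Fin 5 → K} (hq : Good O q) {v w : Fin 2 → K} (hv : uni O v)
    (hw : uni O w) {m : ℕ} (hm : 1 ≤ m) (h1 : dt ((Tm q)^[m] v) v = 0)
    (h2 : dt ((Tm q)^[m] w) w = 0) (h : dv O 1 (dt v w)) : dt v w = 0 := by
  obtain ⟨κ, hκ, -, hκv⟩ := uni_par hO (iterate_uni hO hq hv m) hv h1
  obtain ⟨μ, hμ, -, hμw⟩ := uni_par hO (iterate_uni hO hq hw m) hw h2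
  have hdt : dt v w = (κ * μ) * dt ((Tm q)^[m] v) ((Tm q)^[m] w) := by
    have e0 := congrFun hκv 0
    have e1 := congrFun hκv 1
    have e2 := congrFun hμw 0
    have e3 := congrFun hμw 1
    unfold dt
    linear_combination (w 1) * e0 + (κ * (Tm q)^[m] v 0) * e3 - (w 0) * e1 -
      (κ * (Tm q)^[m] v 1) * e2
  have key : ∀ r, dv O (r + 1) (dt v w) := by
    intro r
    induction r with
    | zero => exact h
    | succ r ih =>
      rw [hdt]
      exact (periodA_contr hO hq hv hw (Nat.succ_le_succ (Nat.zero_le r)) ih hm).mul_left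
        (O.mul_mem _ _ hκ hμ)
  exact dv_all hO fun r => (key r).mono (Nat.le_succ r)

/-- Uniform period for the residue classes. -/
theorem res_period (hO : Unr O) : ∃ M, 1 ≤ M ∧ ∀ q : Fin 5 → K, Good O q → ∀ v, uni O v →
    dv O 1 (dt ((Tm q)^[M] v) v) := by
  obtain ⟨R, hR, hR'⟩ := exists_classes hO
  refine ⟨R.card.factorial, Nat.succ_le_of_lt (Nat.factorial_pos _), fun q hq v hv => ?_⟩
  have hc : ∀ i : ℕ, ∃ r ∈ R, dv O 1 (dt ((Tm q)^[i] v) r) := fun i =>
    hR' _ (iterate_uni hO hq hv i)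
  choose g hg hg' using hc
  obtain ⟨i, hi, j, hj, hij, hgij⟩ : ∃ i ∈ Finset.range (R.card + 1),
      ∃ j ∈ Finset.range (R.card + 1), i ≠ j ∧ g i = g j := by
    refine Finset.exists_ne_map_eq_of_card_lt_of_maps_to (t := R) ?_ (fun i _ => hg i)
    rw [Finset.card_range]
    exact Nat.lt_succ_self _
  have hfin : ∃ k, 1 ≤ k ∧ k ≤ R.card ∧ dv O 1 (dt v ((Tm q)^[k] v)) := by
    have main : ∀ i j : ℕ, i < j → j ≤ R.card → g i = g j →
        ∃ k, 1 ≤ k ∧ k ≤ R.card ∧ dv O 1 (dt v ((Tm q)^[k] v)) := by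
      intro i j hlt hjR hg2
      refine ⟨j - i, by omega, by omega, ?_⟩
      have h1 : dv O 1 (dt ((Tm q)^[i] v) ((Tm q)^[j] v)) := by
        refine dv_dt_trans hO (iterate_uni hO hq hv i) (hR _ (hg i)) (iterate_uni hO hq hv j)
          le_rfl (hg' i) ?_
        rw [hg2]
        exact periodA_symm (hg' j)
      have h2 : (Tm q)^[j] v = (Tm q)^[i] ((Tm q)^[j - i] v) := by
        rw [← Function.iterate_add_apply]
        congr 1
        omega
      rw [h2] at h1
      exact periodA_pull hO hq i hv (iterate_uni hO hq hv _) h1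
    rw [Finset.mem_range] at hi hj
    rcases lt_or_gt_of_ne hij with hlt | hlt
    · exact main i j hlt (by omega) hgij
    · exact main j i hlt (by omega) hgij.symm
  obtain ⟨k, hk1, hkR, hk⟩ := hfin
  have hmul : ∀ l : ℕ, dv O 1 (dt v ((Tm q)^[k * l] v)) := by
    intro l
    induction l with
    | zero =>
      have : dt v ((Tm q)^[k * 0] v) = 0 := by
        simp [dt, mul_comm]
      rw [this]
      exact dv_self_zero 1
    | succ l ih =>
      have h3 : (Tm q)^[k * (l + 1)] v = (Tm q)^[k * l] ((Tm q)^[k] v) := by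
        rw [← Function.iterate_add_apply]
        congr 1
      rw [h3]
      refine dv_dt_trans hO hv (iterate_uni hO hq hv (k * l))
        (iterate_uni hO hq (iterate_uni hO hq hv k) (k * l)) le_rfl ih ?_
      exact periodA_push hO hq hv (iterate_uni hO hq hv k) le_rfl hk (k * l)
  obtain ⟨l, hl⟩ := Nat.dvd_factorial (Nat.lt_of_lt_of_le Nat.zero_lt_one hk1) hkR
  rw [hl]
  exact periodA_symm (hmul l)

end Pool.Agent.CYM
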