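import Mathlib
import Pool.Agent.CYM.Defs
import Pool.Agent.CYM.TAlgA
import Pool.Agent.CYM.TAlgB
import Pool.Agent.CYM.VRingA
import Pool.Agent.CYM.VRingB
import Pool.Agent.CYM.Uni
import Pool.Agent.CYM.ResFin
import Pool.Agent.CYM.TGoodA
import Pool.Agent.CYM.TGoodB
import Pool.Agent.CYM.PeriodA

/-!
Preperiodic points of the tripling map are periodic, with a uniform period.
-/

namespace Pool.Agent.CYM

variable {K : Type} [Field K] [NumberField K] {O : ValuationSubring K}

private lemma PeriodB_dt_smul_right {R : Type*} [CommRing R] (u w : Fin 2 → R) (κ : R) :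
    dt u (fun k => κ * w k) = κ * dt u w := by
  simp only [dt]; ring

private lemma PeriodB_dt_smul_left {R : Type*} [CommRing R] (u w : Fin 2 → R) (κ : R) :
    dt (fun k => κ * u k) w = κ * dt u w := by
  simp only [dt]; ring

private lemma PeriodB_dt_self {R : Type*} [CommRing R] (u : Fin 2 → R) : dt u u = 0 := by
  simp only [dt]; ring

/-- Two congruent vectors with the same image are proportional. -/
private lemma PeriodB_inj (hO : Unr O) {q : Fin 5 → K} (hq : Good O q) {u w : Fin 2 → K}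
    (hu : uni O u) (hw : uni O w) (h : dv O 1 (dt u w)) (h0 : dt (Tm q u) (Tm q w) = 0) :
    dt u w = 0 := by
  have key : ∀ r : ℕ, dv O (r + 1) (dt u w) := by
    intro r
    induction r with
    | zero => exact h
    | succ r ih =>
      refine Tm_exact hO hq hu hw (Nat.le_add_left 1 r) ih ?_
      rw [h0]
      exact dv_self_zero _
  refine dv_all hO ?_
  intro r
  exact (key r).mono (Nat.le_succ r)

private lemma PeriodB_inj_iter (hO : Unr O) {q : Fin 5 → K} (hq : Good O q) (a : ℕ) :
    ∀ u w : Fin 2 → K, uni O u → uni O w → dv O 1 (dt u w) →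
      dt ((Tm q)^[a] u) ((Tm q)^[a] w) = 0 → dt u w = 0 := by
  induction a with
  | zero =>
    intro u w _ _ _ h
    exact h
  | succ a ih =>
    intro u w hu hw h h0
    rw [Function.iterate_succ_apply, Function.iterate_succ_apply] at h0
    have h1 : dv O 1 (dt (Tm q u) (Tm q w)) :=
      (Tm_contr hO hq hu hw le_rfl h).mono (by norm_num)
    have h2 := ih (Tm q u) (Tm q w) (Tm_uni hO hq hu) (Tm_uni hO hq hw) h1 h0
    exact PeriodB_inj hO hq hu hw h h2

/-- Uniform period. -/
theorem period (hO : Unr O) : ∃ M, 1 ≤ M ∧ ∀ q : Fin 5 → K, Good O q → ∀ v, uni O v →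
    (∃ a b, a < b ∧ dt ((Tm q)^[a] v) ((Tm q)^[b] v) = 0) → dt ((Tm q)^[M] v) v = 0 := by
  obtain ⟨M, hM, hres⟩ := res_period (K := K) hO
  refine ⟨M, hM, ?_⟩
  rintro q hq v hv ⟨a, b, hab, h0⟩
  obtain ⟨d, hd⟩ : ∃ d, b = a + d := ⟨b - a, by omega⟩
  have hd1 : 1 ≤ d := by omega
  subst hd
  -- step 1
  have s1 : ∀ k : ℕ, dt ((Tm q)^[a] v) ((Tm q)^[k * d + a] v) = 0 := by
    intro k
    induction k with
    | zero =>
      rw [Nat.zero_mul, Nat.zero_add]
      exact PeriodB_dt_self _
    | succ k ih =>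
      obtain ⟨κ, _, _, hκ⟩ := uni_par hO (iterate_uni hO hq hv a) (iterate_uni hO hq hv (a + d)) h0
      have e : (k + 1) * d + a = k * d + (a + d) := by ring
      rw [e, Function.iterate_add_apply, hκ, iterate_smul, PeriodB_dt_smul_right,
        ← Function.iterate_add_apply, ih, mul_zero]
  -- step 2
  have s2 : ∀ k : ℕ, dv O 1 (dt ((Tm q)^[k * M] v) v) := by
    intro k
    induction k with
    | zero =>
      rw [Nat.zero_mul, Function.iterate_zero, id, PeriodB_dt_self]
      exact dv_self_zero _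
    | succ k ih =>
      have e : (k + 1) * M = M + k * M := by ring
      rw [e, Function.iterate_add_apply]
      have hk := iterate_uni hO hq hv (k * M)
      exact dv_dt_trans hO (iterate_uni hO hq hk M) hk hv le_rfl (hres q hq _ hk) ih
  -- step 3
  have hm1 : 1 ≤ M * d := Nat.mul_pos hM hd1
  have hper : dt ((Tm q)^[M * d] v) v = 0 := by
    have h1 : dv O 1 (dt ((Tm q)^[M * d] v) v) := by
      have := s2 d
      rwa [Nat.mul_comm d M] at this
    refine PeriodB_inj_iter hO hq a _ _ (iterate_uni hO hq hv (M * d)) hv h1 ?_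
    rw [← Function.iterate_add_apply, dt_comm, Nat.add_comm a (M * d), s1 M, neg_zero]
  -- step 4
  have hw := iterate_uni hO hq hv M
  refine per_unique hO hq hw hv hm1 ?_ hper (hres q hq v hv)
  obtain ⟨κ, _, _, hκ⟩ := uni_par hO hv (iterate_uni hO hq hv (M * d)) (by
    rw [dt_comm, hper, neg_zero])
  rw [← Function.iterate_add_apply, Nat.add_comm (M * d) M, Function.iterate_add_apply, hκ,
    iterate_smul, PeriodB_dt_smul_left, PeriodB_dt_self, mul_zero]

omit [NumberField K] in
private lemma PeriodB_lift (q : Fin 5 → K) (v : Fin 2 → K) (y : K) (hy : y ^ 2 = qf q v) (k : ℕ) :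
    ∃ z : K, z ^ 2 = qf q ((Tm q)^[k] v) := by
  induction k with
  | zero => exact ⟨y, hy⟩
  | succ k ih =>
    obtain ⟨z, hz⟩ := ih
    obtain ⟨W, hW⟩ := exists_W q ((Tm q)^[k] v)
    refine ⟨z * W, ?_⟩
    rw [Function.iterate_succ_apply', hW, ← hz]
    ring

omit [NumberField K] in
private lemma PeriodB_dt_common {u w t : Fin 2 → K} (ht : t ≠ 0) (hu : dt u t = 0)
    (hw : dt w t = 0) : dt u w = 0 := by
  simp only [dt] at hu hw ⊢
  have h0 : t 0 * (u 0 * w 1 - u 1 * w 0) = 0 := by
    linear_combination (-(u 0)) * hw + w 0 * hu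
  have h1 : t 1 * (u 0 * w 1 - u 1 * w 0) = 0 := by
    linear_combination w 1 * hu - u 1 * hw
  by_contra hne
  apply ht
  have e0 : t 0 = 0 := (mul_eq_zero.mp h0).resolve_right hne
  have e1 : t 1 = 0 := (mul_eq_zero.mp h1).resolve_right hne
  funext i
  fin_cases i
  · exact e0
  · exact e1

/-- If the curve has finitely many rational points, every rational point is preperiodic. -/
theorem preper_of_finC (hO : Unr O) {q : Fin 5 → K} (hq : Good O q) {v : Fin 2 → K}
    (hv : uni O v) {y : K} (hy : y ^ 2 = qf q v) (hfin : FinC q) :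
    ∃ a b, a < b ∧ dt ((Tm q)^[a] v) ((Tm q)^[b] v) = 0 := by
  obtain ⟨T, hT⟩ := hfin
  have h : ∀ k : ℕ, ∃ t ∈ T, t ≠ 0 ∧ dt ((Tm q)^[k] v) t = 0 := by
    intro k
    obtain ⟨z, hz⟩ := PeriodB_lift q v y hy k
    exact hT _ z (iterate_uni hO hq hv k).ne_zero hz
  choose t htT ht0 ht using h
  obtain ⟨a, b, hne, hab⟩ := Finite.exists_ne_map_eq_of_infinite
    (fun k : ℕ => (⟨t k, htT k⟩ : {s : Fin 2 → K // s ∈ T}))
  have hab' : t a = t b := congrArg Subtype.val hab
  rcases lt_or_gt_of_ne hne with hlt | hlt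
  · refine ⟨a, b, hlt, PeriodB_dt_common (ht0 a) (ht a) ?_⟩
    rw [hab']
    exact ht b
  · refine ⟨b, a, hlt, PeriodB_dt_common (ht0 a) ?_ (ht a)⟩
    rw [hab']
    exact ht b

end Pool.Agent.CYM
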