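import Mathlib
import Pool.Agent.CYM.Defs
import Pool.Agent.CYM.TAlgA
import Pool.Agent.CYM.TAlgB
import Pool.Agent.CYM.VRingA
import Pool.Agent.CYM.VRingB
import Pool.Agent.CYM.Uni
import Pool.Agent.CYM.TGoodA
import Pool.Agent.CYM.TGoodB
import Pool.Agent.CYM.PeriodA
import Pool.Agent.CYM.PeriodB
import Pool.Agent.CYM.FibR
import Pool.Agent.CYM.FibO
import Pool.Agent.CYM.NSQ

/-!
Summary of the arithmetic: rational points move in direction `j` unless `Gp` vanishes.
-/

namespace Pool.Agent.CYM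

open MvPolynomial

/-- The consequences of the hypotheses at the auxiliary place that are used in the sequel. -/
structure MvH {K : Type} [Field K] {n : ℕ} (M : ℕ) (F : (Fin n → Fin 5) → K) : Prop where
  ne : ∀ (x : Fin n → Fin 2 → K) (t : K), (∀ i, x i ≠ 0) → t ^ 2 = val F x → t ≠ 0
  nsq : ∀ (x : Fin n → Fin 2 → K) (j : Fin n), (∀ i, x i ≠ 0) → NSq (fib F j x)
  inf : ∀ (x : Fin n → Fin 2 → K) (t : K) (j : Fin n), (∀ i, x i ≠ 0) → t ^ 2 = val F x →
    ev (Gp M F j) x ≠ 0 → ¬ FinC (fib F j x)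

private theorem Mv_iter_map {R S : Type*} [CommRing R] [CommRing S] (φ : R →+* S)
    (q : Fin 5 → R) (v : Fin 2 → R) (m : ℕ) :
    (Tm (fun k => φ (q k)))^[m] (fun k => φ (v k)) = fun k => φ ((Tm q)^[m] v k) := by
  induction m with
  | zero => rfl
  | succ m ih =>
    rw [Function.iterate_succ_apply', ih, Tm_map, Function.iterate_succ_apply']

private theorem Mv_iter_smul {K : Type} [Field K] {c l : K} (hc : c ≠ 0) (hl : l ≠ 0)
    (q : Fin 5 → K) (v : Fin 2 → K) (m : ℕ) :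
    ∃ e : K, e ≠ 0 ∧ (Tm (fun k => c * q k))^[m] (fun k => l * v k) =
      fun k => e * (Tm q)^[m] v k := by
  induction m with
  | zero => exact ⟨l, hl, rfl⟩
  | succ m ih =>
    obtain ⟨e, he, h⟩ := ih
    refine ⟨c ^ 4 * e ^ 9, mul_ne_zero (pow_ne_zero _ hc) (pow_ne_zero _ he), ?_⟩
    rw [Function.iterate_succ_apply', h, Tm_smul_q, Tm_smul_v]
    funext k
    rw [Function.iterate_succ_apply']
    ring

/-- Evaluation of `Gp`. -/
theorem ev_Gp {K : Type} [Field K] {n : ℕ} (M : ℕ) (F : (Fin n → Fin 5) → K) (j : Fin n)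
    (x : Fin n → Fin 2 → K) :
    ev (Gp M F j) x = dt ((Tm (fib F j x))^[M] (x j)) (x j) := by
  have h1 : fib F j x = fun k => (eval (fun p : Fin n × Fin 2 => x p.1 p.2))
      (fib (fun m => C (F m)) j (gen K n) k) := by
    have h := fib_map (eval (fun p : Fin n × Fin 2 => x p.1 p.2)) (fun m => C (F m)) j (gen K n)
    rw [← h]
    congr 1
    · funext m; simp
    · funext i k; simp [gen]
  have h2 : x j = fun k => (eval (fun p : Fin n × Fin 2 => x p.1 p.2)) (gen K n j k) := by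
    funext k; simp [gen]
  have h3 : dt ((Tm (fib F j x))^[M] (x j)) (x j) =
      dt (fun k => (eval (fun p : Fin n × Fin 2 => x p.1 p.2))
        ((Tm (fib (fun m => C (F m)) j (gen K n)))^[M] (gen K n j) k))
        (fun k => (eval (fun p : Fin n × Fin 2 => x p.1 p.2)) (gen K n j k)) := by
    rw [← Mv_iter_map, ← h1, ← h2]
  rw [h3, dt_map]
  rfl

/-- Homogeneity of the vanishing of `Gp`. -/
theorem ev_Gp_smul {K : Type} [Field K] {n : ℕ} (M : ℕ) (F : (Fin n → Fin 5) → K) (j : Fin n)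
    (x : Fin n → Fin 2 → K) {κ : Fin n → K} (hκ : ∀ i, κ i ≠ 0) :
    ev (Gp M F j) (fun i k => κ i * x i k) = 0 ↔ ev (Gp M F j) x = 0 := by
  rw [ev_Gp, ev_Gp, fib_smul]
  have hd : (∏ i ∈ Finset.univ.erase j, κ i) ^ 4 ≠ 0 :=
    pow_ne_zero _ (Finset.prod_ne_zero_iff.mpr (fun i _ => hκ i))
  obtain ⟨e, he, h⟩ := Mv_iter_smul hd (hκ j) (fib F j x) (x j) M
  rw [h]
  have h2 : dt (fun k => e * (Tm (fib F j x))^[M] (x j) k) (fun k => κ j * x j k) =
      (e * κ j) * dt ((Tm (fib F j x))^[M] (x j)) (x j) := by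
    simp only [dt]; ring
  rw [h2]
  constructor
  · intro h0
    rcases mul_eq_zero.mp h0 with h0 | h0
    · exact absurd h0 (mul_ne_zero he (hκ j))
    · exact h0
  · intro h0
    rw [h0, mul_zero]

private theorem Mv_exists_scale {K : Type} [Field K] {O : ValuationSubring K} (hO : Unr O)
    {n : ℕ} {x : Fin n → Fin 2 → K} (hx : ∀ i, x i ≠ 0) :
    ∃ κ : Fin n → K, (∀ i, κ i ≠ 0) ∧ ∀ i, uni O (fun k => κ i * x i k) := by
  choose κ h1 h2 using fun i => exists_uni hO (hx i)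
  exact ⟨κ, h1, h2⟩

private theorem Mv_qp_smul {K : Type} [Field K] (c : K) (q : Fin 5 → K) :
    qp (fun k => c * q k) = C c * qp q := by
  simp only [qp, qf, C_mul]
  ring

theorem mvh {K : Type} [Field K] [NumberField K] {O : ValuationSubring K} {n : ℕ}
    {F : (Fin n → Fin 5) → K} {f : Fin n → Fin 5 → K} (H : Hyp O F f) {M : ℕ}
    (hM : ∀ q : Fin 5 → K, Good O q → ∀ v, uni O v →
      (∃ a b, a < b ∧ dt ((Tm q)^[a] v) ((Tm q)^[b] v) = 0) → dt ((Tm q)^[M] v) v = 0) :
    MvH M F := by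
  have hO := H.unr
  refine ⟨?_, ?_, ?_⟩
  · intro x t hx ht h0
    obtain ⟨κ, hκ, hu⟩ := Mv_exists_scale hO hx
    have h1 := (val_unit H hu).2
    apply h1
    have h2 : val F (fun i k => κ i * x i k) = 0 := by
      rw [val_smul, ← ht, h0]; ring
    rw [h2]
    exact dv_self_zero 1
  · intro x j hx p r hpr
    obtain ⟨κ, hκ, hu⟩ := Mv_exists_scale hO hx
    have hg := good_fib H j hu
    have hn := nsq hO hg
    have hd : (∏ i ∈ Finset.univ.erase j, κ i) ≠ 0 :=
      Finset.prod_ne_zero_iff.mpr (fun i _ => hκ i)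
    have h1 := hn (C ((∏ i ∈ Finset.univ.erase j, κ i) ^ 2) * p) r (by
      rw [fib_smul, Mv_qp_smul, mul_pow, hpr]
      simp only [C_pow]
      ring)
    refine ⟨?_, h1.2⟩
    rcases mul_eq_zero.mp h1.1 with h | h
    · exact absurd ((map_eq_zero_iff C (C_injective _ _)).mp h) (pow_ne_zero _ hd)
    · exact h
  · intro x t j hx ht hG hF
    obtain ⟨κ, hκ, hu⟩ := Mv_exists_scale hO hx
    have hg := good_fib H j hu
    have hd : (∏ i ∈ Finset.univ.erase j, κ i) ≠ 0 :=
      Finset.prod_ne_zero_iff.mpr (fun i _ => hκ i)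
    have hy : ((∏ i, κ i) ^ 2 * t) ^ 2 =
        qf (fib F j (fun i k => κ i * x i k)) (fun k => κ j * x j k) := by
      have h := qf_fib_self F j (fun i k => κ i * x i k)
      rw [h, val_smul, ← ht]
      ring
    have hfin : FinC (fib F j (fun i k => κ i * x i k)) := by
      obtain ⟨T, hT⟩ := hF
      refine ⟨T, fun s y hs hy => ?_⟩
      refine hT s (y / (∏ i ∈ Finset.univ.erase j, κ i) ^ 2) hs ?_
      rw [fib_smul, qf_smul_q] at hy
      rw [div_pow, hy]
      field_simp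
    have hp := preper_of_finC hO hg (hu j) hy hfin
    have h0 := hM _ hg _ (hu j) hp
    apply hG
    rw [← ev_Gp_smul M F j x hκ, ev_Gp]
    exact h0

end Pool.Agent.CYM
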