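import Mathlib
import Pool.Agent.CYM.Defs
import Pool.Agent.CYM.NSQ
import Pool.Agent.CYM.CurveB
import Pool.Agent.CYM.FibR
import Pool.Agent.CYM.FibO
import Pool.Agent.CYM.Move
import Pool.Agent.CYM.Mv

/-!
Density of the rational points near a given one in the subvarieties `x_J = P_J`.
-/

namespace Pool.Agent.CYM

open MvPolynomial Topology

/-- The `x`-coordinates of the rational points of `X` lying in `U` with `x_j = P_j` for `j`
outside `I`. -/
def Dset {K L : Type} [Field K] [Field L] (σ : K →+* L) {n : ℕ} (F : (Fin n → Fin 5) → K)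
    (U : Set (Idx n → L)) (P : Fin n → Fin 2 → K) (I : Finset (Fin n)) :
    Set ((Fin n → Fin 2 → K) × K) :=
  {p | (∀ i, p.1 i ≠ 0) ∧ (∀ j, j ∉ I → p.1 j = P j) ∧ p.2 ^ 2 = val F p.1 ∧
    Near σ U (pt p.1 p.2)}

/-- Zariski density of the `x`-coordinates. -/
def Dns {K L : Type} [Field K] [Field L] (σ : K →+* L) {n : ℕ} (F : (Fin n → Fin 5) → K)
    (U : Set (Idx n → L)) (P : Fin n → Fin 2 → K) (I : Finset (Fin n)) : Prop :=
  ∀ h : MvPolynomial (Fin n × Fin 2) K, (∀ p ∈ Dset σ F U P I, ev h p.1 = 0) →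
    ∀ x : Fin n → Fin 2 → K, (∀ j, j ∉ I → x j = P j) → ev h x = 0

/-- Zariski density of the points. -/
def Dn2 {K L : Type} [Field K] [Field L] (σ : K →+* L) {n : ℕ} (F : (Fin n → Fin 5) → K)
    (U : Set (Idx n → L)) (P : Fin n → Fin 2 → K) (I : Finset (Fin n)) : Prop :=
  ∀ A B : MvPolynomial (Fin n × Fin 2) K,
    (∀ p ∈ Dset σ F U P I, ev A p.1 + ev B p.1 * p.2 = 0) →
    ∀ x : Fin n → Fin 2 → K, (∀ j, j ∉ I → x j = P j) → ev A x = 0 ∧ ev B x = 0

theorem Dn2.dns {K L : Type} [Field K] [Field L] {σ : K →+* L} {n : ℕ}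
    {F : (Fin n → Fin 5) → K} {U : Set (Idx n → L)} {P : Fin n → Fin 2 → K} {I : Finset (Fin n)}
    (h : Dn2 σ F U P I) : Dns σ F U P I := by
  intro g hg x hx
  refine (h g 0 (fun p hp => ?_) x hx).1
  have h0 : ev (0 : MvPolynomial (Fin n × Fin 2) K) p.1 = 0 := map_zero _
  rw [hg p hp, h0, zero_mul, add_zero]

theorem dns_empty {K L : Type} [Field K] [Field L] {σ : K →+* L} {n : ℕ}
    {F : (Fin n → Fin 5) → K} {U : Set (Idx n → L)} {P : Fin n → Fin 2 → K} {t : K}
    (hP : ∀ i, P i ≠ 0) (ht : t ^ 2 = val F P) (hU : Near σ U (pt P t)) :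
    Dns σ F U P ∅ := by
  intro g hg x hx
  have hxP : x = P := funext fun j => hx j (Finset.notMem_empty j)
  rw [hxP]
  exact hg (P, t) ⟨hP, fun _ _ => rfl, ht, hU⟩

theorem DensA_eval_bind {K : Type} [Field K] {ι κ : Type} (f : κ → K)
    (g : ι → MvPolynomial κ K) (h : MvPolynomial ι K) :
    eval f (bind₁ g h) = eval (fun i => eval f (g i)) h :=
  eval₂Hom_bind₁ (RingHom.id K) f g h

/-- If the product of two polynomial functions vanishes on `x_J = P_J`, so does one of them. -/
theorem mul_zero_cases {K : Type} [Field K] [Infinite K] {n : ℕ} (P : Fin n → Fin 2 → K)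
    (I : Finset (Fin n)) {g h : MvPolynomial (Fin n × Fin 2) K}
    (hgh : ∀ x : Fin n → Fin 2 → K, (∀ j, j ∉ I → x j = P j) → ev g x * ev h x = 0)
    (hg : ∃ x : Fin n → Fin 2 → K, (∀ j, j ∉ I → x j = P j) ∧ ev g x ≠ 0) :
    ∀ x : Fin n → Fin 2 → K, (∀ j, j ∉ I → x j = P j) → ev h x = 0 := by
  classical
  let θ : Fin n × Fin 2 → MvPolynomial (Fin n × Fin 2) K := fun p =>
    if p.1 ∈ I then X p else C (P p.1 p.2)
  have hθ : ∀ (u : MvPolynomial (Fin n × Fin 2) K) (y : Fin n × Fin 2 → K),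
      eval y (bind₁ θ u) = ev u (fun i k => if i ∈ I then y (i, k) else P i k) := by
    intro u y
    rw [DensA_eval_bind]
    have : (fun i => eval y (θ i)) =
        fun p : Fin n × Fin 2 => (if p.1 ∈ I then y (p.1, p.2) else P p.1 p.2) := by
      funext p
      by_cases hp : p.1 ∈ I
      · simp [θ, hp]
      · simp [θ, hp]
    rw [this]
  have hfix : ∀ x : Fin n → Fin 2 → K, (∀ j, j ∉ I → x j = P j) →
      (fun i k => if i ∈ I then (fun p : Fin n × Fin 2 => x p.1 p.2) (i, k) else P i k) = x := by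
    intro x hx
    funext i k
    by_cases hi : i ∈ I
    · simp [hi]
    · simp [hi, hx i hi]
  have hprod : bind₁ θ g * bind₁ θ h = 0 := by
    apply MvPolynomial.funext
    intro y
    rw [map_mul, map_zero, hθ, hθ]
    apply hgh
    intro j hj
    funext k
    simp [hj]
  rcases mul_eq_zero.mp hprod with h0 | h0
  · exfalso
    obtain ⟨x, hx, hne⟩ := hg
    apply hne
    have := hθ g (fun p => x p.1 p.2)
    rw [h0, map_zero, hfix x hx] at this
    exact this.symm
  · intro x hx
    have := hθ h (fun p => x p.1 p.2)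
    rw [h0, map_zero, hfix x hx] at this
    exact this.symm

/-- Substitution of `s` for `x_j` in a polynomial. -/
theorem exists_subst {K : Type} [Field K] {n : ℕ} (h : MvPolynomial (Fin n × Fin 2) K)
    (j : Fin n) (s : Fin 2 → K) : ∃ h' : MvPolynomial (Fin n × Fin 2) K,
      ∀ x : Fin n → Fin 2 → K, ev h' x = ev h (Function.update x j s) := by
  classical
  refine ⟨bind₁ (fun p : Fin n × Fin 2 => if p.1 = j then C (s p.2) else X p) h, fun x => ?_⟩
  refine (DensA_eval_bind _ _ _).trans ?_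
  congr 2
  funext p
  by_cases hp : p.1 = j
  · simp [hp]
  · simp [hp]

/-- The restriction of a polynomial to the direction `j`. -/
theorem exists_restr {K : Type} [Field K] {n : ℕ} (h : MvPolynomial (Fin n × Fin 2) K)
    (j : Fin n) (x : Fin n → Fin 2 → K) : ∃ h' : MvPolynomial (Fin 2) K,
      ∀ s : Fin 2 → K, eval s h' = ev h (Function.update x j s) := by
  classical
  refine ⟨bind₁ (fun p : Fin n × Fin 2 => if p.1 = j then X p.2 else C (x p.1 p.2)) h,
    fun s => ?_⟩
  rw [DensA_eval_bind]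
  congr 2
  funext p
  by_cases hp : p.1 = j
  · simp [hp]
  · simp [hp]

end Pool.Agent.CYM
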