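import Mathlib
import Pool.Agent.CYM.Defs
import Pool.Agent.CYM.NSQ
import Pool.Agent.CYM.CurveB
import Pool.Agent.CYM.FibR
import Pool.Agent.CYM.FibO
import Pool.Agent.CYM.Move
import Pool.Agent.CYM.Mv
import Pool.Agent.CYM.DensA

/-!
Density of the rational points near a given one: the induction.
-/

namespace Pool.Agent.CYM

open MvPolynomial Topology

/-- A polynomial in two variables vanishing on infinitely many lines is zero. -/
private theorem densB_lines {K : Type} [Field K] [Infinite K] (D : MvPolynomial (Fin 2) K)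
    (h : ∀ T : Finset (Fin 2 → K), ∃ s : Fin 2 → K, (∀ τ ∈ T, τ ≠ 0 → dt s τ ≠ 0) ∧
      ∀ κ : K, κ ≠ 0 → eval (fun k => κ * s k) D = 0) : D = 0 := by
  classical
  have hinf : {r : K | ∃ s : Fin 2 → K, s 1 ≠ 0 ∧ r = s 0 / s 1 ∧
      ∀ κ : K, κ ≠ 0 → eval (fun k => κ * s k) D = 0}.Infinite := by
    intro hfin
    obtain ⟨s, hs, hκ⟩ := h (insert ![1, 0] (hfin.toFinset.image fun r => ![r, 1]))
    have h1 : s 1 ≠ 0 := by
      have := hs ![1, 0] (Finset.mem_insert_self _ _) (by
        intro h0
        have := congrFun h0 0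
        simp at this)
      simpa [dt] using this
    have h2 : s 0 / s 1 ∈ hfin.toFinset := by
      rw [Set.Finite.mem_toFinset]
      exact ⟨s, h1, rfl, hκ⟩
    have h3 := hs ![s 0 / s 1, 1] (Finset.mem_insert_of_mem (Finset.mem_image_of_mem _ h2)) (by
        intro h0
        have := congrFun h0 1
        simp at this)
    apply h3
    simp only [dt, Matrix.cons_val_zero, Matrix.cons_val_one]
    field_simp
    ring
  have key : ∀ a b : K, b ≠ 0 → eval ![a, b] D = 0 := by
    intro a b hb
    let P : Polynomial K := eval₂ Polynomial.C ![Polynomial.C b * Polynomial.X, Polynomial.C b] D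
    have hP : ∀ r : K, P.eval r = eval ![b * r, b] D := by
      intro r
      have := MvPolynomial.eval₂_comp_left (Polynomial.evalRingHom r) Polynomial.C
        ![Polynomial.C b * Polynomial.X, Polynomial.C b] D
      simp only [Polynomial.coe_evalRingHom] at this
      rw [show P.eval r = _ from this]
      have e1 : (Polynomial.evalRingHom r).comp Polynomial.C = RingHom.id K := by
        ext x
        simp
      have e2 : (Polynomial.eval r ∘ ![Polynomial.C b * Polynomial.X, Polynomial.C b]) =
          ![b * r, b] := by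
        funext k
        fin_cases k <;> simp
      rw [e1, e2]
      rfl
    have hP0 : P = 0 := by
      refine Polynomial.eq_zero_of_infinite_isRoot P (hinf.mono ?_)
      rintro r ⟨s, hs1, rfl, hκ⟩
      have := hκ (b / s 1) (div_ne_zero hb hs1)
      change Polynomial.IsRoot P _
      rw [Polynomial.IsRoot.def, hP]
      convert this using 2
      congr 1
      funext k
      fin_cases k
      · simp only [Fin.zero_eta, Matrix.cons_val_zero]
        field_simp
      · simp only [Fin.mk_one, Matrix.cons_val_one, Matrix.cons_val_zero]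
        field_simp
    have := hP (a / b)
    rw [hP0, Polynomial.eval_zero, mul_div_cancel₀ _ hb] at this
    exact this.symm
  have hX : (X 1 : MvPolynomial (Fin 2) K) * D = 0 := by
    refine MvPolynomial.funext fun x => ?_
    rw [map_mul, map_zero, eval_X]
    rcases eq_or_ne (x 1) 0 with h0 | h0
    · rw [h0, zero_mul]
    · have e : x = ![x 0, x 1] := by
        funext k
        fin_cases k <;> rfl
      rw [e, key _ _ h0, mul_zero]
  rcases mul_eq_zero.1 hX with h0 | h0
  · exact absurd h0 (MvPolynomial.X_ne_zero 1)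
  · exact h0

/-- The point in the direction `j` moves: the polynomials vanish in the whole direction. -/
private theorem densB_dir {K : Type} [Field K] [NumberField K] {L : Type}
    [NontriviallyNormedField L] {σ : K →+* L} (hσ : DenseRange σ) [ProperSpace L] {n M : ℕ}
    {F : (Fin n → Fin 5) → K} (hF : MvH M F) {U : Set (Idx n → L)} (hU : IsOpen U)
    {P : Fin n → Fin 2 → K} {I : Finset (Fin n)} {j : Fin n} (hj : j ∉ I)
    {A B : MvPolynomial (Fin n × Fin 2) K}
    (hAB : ∀ p ∈ Dset σ F U P (insert j I), ev A p.1 + ev B p.1 * p.2 = 0)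
    {p : (Fin n → Fin 2 → K) × K} (hp : p ∈ Dset σ F U P I) (hG : ev (Gp M F j) p.1 ≠ 0)
    (s : Fin 2 → K) :
    ev A (Function.update p.1 j s) = 0 ∧ ev B (Function.update p.1 j s) = 0 := by
  classical
  obtain ⟨x, t⟩ := p
  obtain ⟨hx0, hxP, ht, hN⟩ := hp
  simp only at hx0 hxP ht hN hG ⊢
  have ht0 : t ≠ 0 := hF.ne x t hx0 ht
  have hns := hF.nsq x j hx0
  have hinf := hF.inf x t j hx0 ht hG
  obtain ⟨A', hA'⟩ := exists_restr A j x
  obtain ⟨B', hB'⟩ := exists_restr B j x
  have hD : A' ^ 2 - B' ^ 2 * qp (fib F j x) = 0 := by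
    refine densB_lines _ fun T => ?_
    obtain ⟨s, t', hs0, ht', hN', hT⟩ := move (j := j) hσ hx0 ht ht0 hns hinf hU hN T
    refine ⟨s, hT, fun κ hκ => ?_⟩
    -- the point with `s` multiplied by `κ`
    let κs : Fin n → K := fun i => if i = j then κ else 1
    have hupd : (fun i k => κs i * Function.update x j s i k) =
        Function.update x j (fun k => κ * s k) := by
      funext i k
      by_cases hi : i = j
      · subst hi
        simp [κs]
      · simp [κs, hi]
    have hprod : ∏ i, κs i = κ := by
      simp [κs]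
    have hmem : ((Function.update x j (fun k => κ * s k), κ ^ 2 * t') :
        (Fin n → Fin 2 → K) × K) ∈ Dset σ F U P (insert j I) := by
      refine ⟨?_, ?_, ?_, ?_⟩
      · intro i
        by_cases hi : i = j
        · subst hi
          simp only [Function.update_self]
          intro h0
          apply hs0
          funext k
          have := congrFun h0 k
          simp only [Pi.zero_apply, mul_eq_zero] at this
          exact this.resolve_left hκ
        · simp only [Function.update_of_ne hi]
          exact hx0 i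
      · intro i hi
        have hij : i ≠ j := fun h => hi (h ▸ Finset.mem_insert_self _ _)
        simp only [Function.update_of_ne hij]
        exact hxP i fun h => hi (Finset.mem_insert_of_mem h)
      · simp only
        rw [← hupd, val_smul, hprod, mul_pow, ht']
        ring
      · simp only
        have hpt := pt_smul κs (Function.update x j s) t'
        rw [hupd, hprod] at hpt
        rw [hpt]
        obtain ⟨c, hc, hcU⟩ := hN'
        have hκσ : σ κ ≠ 0 := (map_ne_zero σ).2 hκ
        refine ⟨c * (σ κ ^ 2)⁻¹, mul_ne_zero hc (inv_ne_zero (pow_ne_zero 2 hκσ)), ?_⟩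
        convert hcU using 1
        funext l
        simp only [Pi.smul_apply, sv, smul_eq_mul, map_mul, map_pow]
        field_simp
    have h1 := hAB _ hmem
    simp only at h1
    have h2 : qf (fib F j x) (fun k => κ * s k) = (κ ^ 2 * t') ^ 2 := by
      rw [qf_fib]
      exact hmem.2.2.1.symm
    rw [map_sub, map_mul, map_pow, map_pow, hA', hB', eval_qp, h2]
    linear_combination (ev A (Function.update x j (fun k => κ * s k)) -
      ev B (Function.update x j (fun k => κ * s k)) * (κ ^ 2 * t')) * h1
  obtain ⟨hA0, hB0⟩ := hns A' B' (sub_eq_zero.1 hD)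
  rw [← hA', ← hB', hA0, hB0]
  simp

/-- The induction step. -/
theorem dn2_step {K : Type} [Field K] [NumberField K] {L : Type} [NontriviallyNormedField L]
    {σ : K →+* L} (hσ : DenseRange σ) [ProperSpace L] {n M : ℕ} {F : (Fin n → Fin 5) → K}
    (hF : MvH M F) {U : Set (Idx n → L)} (hU : IsOpen U) {P : Fin n → Fin 2 → K}
    (hP : ∀ i, P i ≠ 0) {I : Finset (Fin n)} (hI : Dns σ F U P I) {j : Fin n} (hj : j ∉ I)
    (hG : ∃ x : Fin n → Fin 2 → K, (∀ i, i ∉ I → x i = P i) ∧ ev (Gp M F j) x ≠ 0) :
    Dn2 σ F U P (insert j I) := by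
  classical
  intro A B hAB x hx
  have main : ∀ C : MvPolynomial (Fin n × Fin 2) K,
      (∀ p ∈ Dset σ F U P I, ev (Gp M F j) p.1 ≠ 0 → ∀ s, ev C (Function.update p.1 j s) = 0) →
      ev C x = 0 := by
    intro C hC
    obtain ⟨C', hC'⟩ := exists_subst C j (x j)
    have h1 : ∀ y : Fin n → Fin 2 → K, (∀ i, i ∉ I → y i = P i) →
        ev (Gp M F j) y * ev C' y = 0 := by
      intro y hy
      have := hI (Gp M F j * C') (fun p hp => ?_) y hy
      · rwa [ev, map_mul] at this
      · rw [ev, map_mul]
        by_cases h0 : ev (Gp M F j) p.1 = 0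
        · rw [show (eval fun q => p.1 q.1 q.2) (Gp M F j) = 0 from h0, zero_mul]
        · have h2 := hC p hp h0 (x j)
          rw [← hC'] at h2
          rw [show (eval fun q => p.1 q.1 q.2) C' = 0 from h2, mul_zero]
    have h2 := mul_zero_cases P I h1 hG (Function.update x j (P j)) (fun i hi => ?_)
    · rw [hC', Function.update_idem, Function.update_eq_self] at h2
      exact h2
    · by_cases hij : i = j
      · subst hij
        rw [Function.update_self]
      · rw [Function.update_of_ne hij]
        exact hx i fun h => (Finset.mem_insert.1 h).elim hij hi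
  exact ⟨main A fun p hp h0 s => (densB_dir hσ hF hU hj hAB hp h0 s).1,
    main B fun p hp h0 s => (densB_dir hσ hF hU hj hAB hp h0 s).2⟩

theorem exists_max {K : Type} [Field K] [NumberField K] {L : Type} [NontriviallyNormedField L]
    {σ : K →+* L} (hσ : DenseRange σ) [ProperSpace L] {n M : ℕ} {F : (Fin n → Fin 5) → K}
    (hF : MvH M F) {U : Set (Idx n → L)} (hU : IsOpen U) {P : Fin n → Fin 2 → K} {t : K}
    (hP : ∀ i, P i ≠ 0) (ht : t ^ 2 = val F P) (hN : Near σ U (pt P t)) :
    ∃ I : Finset (Fin n), (I = ∅ ∨ Dn2 σ F U P I) ∧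
      ∀ j, j ∉ I → ∀ x : Fin n → Fin 2 → K, (∀ i, i ∉ I → x i = P i) → ev (Gp M F j) x = 0 := by
  classical
  obtain ⟨I, hI, hmax⟩ := Finset.exists_max_image
    (Finset.univ.filter fun I : Finset (Fin n) => I = ∅ ∨ Dn2 σ F U P I) Finset.card
    ⟨∅, by simp⟩
  rw [Finset.mem_filter] at hI
  refine ⟨I, hI.2, fun j hj x hx => ?_⟩
  by_contra h0
  have hd : Dns σ F U P I := by
    rcases hI.2 with h | h
    · rw [h]
      exact dns_empty hP ht hN
    · exact h.dns
  have h1 := dn2_step hσ hF hU hP hd hj ⟨x, hx, h0⟩
  have h2 := hmax (insert j I) (by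
    rw [Finset.mem_filter]
    exact ⟨Finset.mem_univ _, Or.inr h1⟩)
  rw [Finset.card_insert_of_notMem hj] at h2
  omega

end Pool.Agent.CYM
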