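import Mathlib
import Pool.Agent.CYM.Defs
import Pool.Agent.CYM.TAlgA
import Pool.Agent.CYM.TAlgB
import Pool.Agent.CYM.VRingA
import Pool.Agent.CYM.VRingB
import Pool.Agent.CYM.Uni
import Pool.Agent.CYM.TGoodA
import Pool.Agent.CYM.TGoodB
import Pool.Agent.CYM.PeriodA
import Pool.Agent.CYM.PeriodB
import Pool.Agent.CYM.FibR
import Pool.Agent.CYM.FibO

/-!
Uniqueness of systems of periodic points in a residue class.
-/

namespace Pool.Agent.CYM

variable {K : Type} [Field K] [NumberField K] {O : ValuationSubring K} {n : ℕ}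
  {F : (Fin n → Fin 5) → K} {f : Fin n → Fin 5 → K}

omit [NumberField K] in
private theorem uq_dt_sub (u v w : Fin 2 → K) :
    dt u w = dt u v - dt u (fun k => v k - w k) := by
  simp only [dt]; ring

omit [NumberField K] in
private theorem uq_dt_right {r : ℕ} {u v : Fin 2 → K} (hu : ∀ k, u k ∈ O)
    (hv : ∀ k, dv O r (v k)) : dv O r (dt u v) := by
  simp only [dt]
  exact (dv.mul_left (hu 0) (hv 1)).sub (dv.mul_left (hu 1) (hv 0))

private theorem uq_step (hO : Unr O) {q q' : Fin 5 → K} (hq : Good O q) (hq' : Good O q')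
    {r : ℕ} (hr : 1 ≤ r) (h : ∀ k, dv O (r + 1) (q k - q' k)) {v w : Fin 2 → K} (hv : uni O v)
    (hw : uni O w) (hvw : dv O r (dt v w)) :
    dv O (r + 1) (dt (Tm q v) (Tm q' w)) := by
  rw [uq_dt_sub (Tm q v) (Tm q w) (Tm q' w)]
  exact (Tm_contr hO hq hv hw hr hvw).sub
    (uq_dt_right (Tm_uni hO hq hv).1 fun k => Tm_congr hq.int hq'.int hw.1 h k)

/-- One step: from modulo `3 ^ r` to modulo `3 ^ (r + 1)`, for one curve and one of its
perturbations. -/
theorem iterate_close (hO : Unr O) {q q' : Fin 5 → K} (hq : Good O q) (hq' : Good O q')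
    {r : ℕ} (hr : 1 ≤ r) (h : ∀ k, dv O (r + 1) (q k - q' k)) {v w : Fin 2 → K} (hv : uni O v)
    (hw : uni O w) (hvw : dv O r (dt v w)) {m : ℕ} (hm : 1 ≤ m) :
    dv O (r + 1) (dt ((Tm q)^[m] v) ((Tm q')^[m] w)) := by
  induction m, hm using Nat.le_induction with
  | base => exact uq_step hO hq hq' hr h hv hw hvw
  | succ m hm ih =>
    rw [Function.iterate_succ_apply', Function.iterate_succ_apply']
    exact uq_step hO hq hq' hr h (iterate_uni hO hq hv m) (iterate_uni hO hq' hw m)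
      (ih.mono (Nat.le_succ r))

omit [NumberField K] in
private theorem uq_unit_mul (hO : Unr O) {a b : K} (ha : a ∈ O ∧ ¬ dv O 1 a)
    (hb : b ∈ O ∧ ¬ dv O 1 b) : a * b ∈ O ∧ ¬ dv O 1 (a * b) :=
  ⟨O.mul_mem _ _ ha.1 hb.1, not_dv_mul hO ha.1 hb.1 ha.2 hb.2⟩

omit [NumberField K] in
private theorem uq_unit_pow (hO : Unr O) {a : K} (ha : a ∈ O ∧ ¬ dv O 1 a) (m : ℕ) :
    a ^ m ∈ O ∧ ¬ dv O 1 (a ^ m) :=
  ⟨O.toSubring.pow_mem ha.1 m, not_dv_pow hO ha.1 ha.2 m⟩

omit [NumberField K] in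
private theorem uq_unit_one (hO : Unr O) : (1 : K) ∈ O ∧ ¬ dv O 1 (1 : K) :=
  ⟨O.one_mem, one_not_dv hO⟩

omit [NumberField K] in
private theorem uq_unit_prod (hO : Unr O) {ι : Type} (s : Finset ι) {a : ι → K}
    (ha : ∀ i, a i ∈ O ∧ ¬ dv O 1 (a i)) : ∏ i ∈ s, a i ∈ O ∧ ¬ dv O 1 (∏ i ∈ s, a i) := by
  classical
  induction s using Finset.induction_on with
  | empty => simpa using uq_unit_one hO
  | insert i s hi ih =>
    rw [Finset.prod_insert hi]
    exact uq_unit_mul hO (ha i) ih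

omit [NumberField K] in
/-- Scaling the curve and the point by units. -/
private theorem uq_iter (hO : Unr O) {l a : K} (hl : l ∈ O ∧ ¬ dv O 1 l)
    (ha : a ∈ O ∧ ¬ dv O 1 a) (q : Fin 5 → K) (v : Fin 2 → K) (m : ℕ) :
    ∃ μ : K, (μ ∈ O ∧ ¬ dv O 1 μ) ∧
      (Tm (fun k => l * q k))^[m] (fun k => a * v k) = fun k => μ * (Tm q)^[m] v k := by
  induction m with
  | zero => exact ⟨a, ha, rfl⟩
  | succ m ih =>
    obtain ⟨μ, hμ, h⟩ := ih
    refine ⟨l ^ 4 * μ ^ 9, uq_unit_mul hO (uq_unit_pow hO hl 4) (uq_unit_pow hO hμ 9), ?_⟩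
    rw [Function.iterate_succ_apply', h, Tm_smul_q, Tm_smul_v]
    funext k
    rw [Function.iterate_succ_apply']
    ring

/-- Periodic points after scaling the curve and the point by units. -/
private theorem uq_per (hO : Unr O) {l a : K} (hl : l ∈ O ∧ ¬ dv O 1 l)
    (ha : a ∈ O ∧ ¬ dv O 1 a) {q : Fin 5 → K} (hq : Good O q) {v : Fin 2 → K} (hv : uni O v)
    {m : ℕ} (h : dt ((Tm q)^[m] v) v = 0) :
    ∃ μ : K, (μ ∈ O ∧ ¬ dv O 1 μ) ∧
      (Tm (fun k => l * q k))^[m] (fun k => a * v k) = fun k => μ * v k := by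
  obtain ⟨μ, hμ, e⟩ := uq_iter hO hl ha q v m
  have h' : dt v ((Tm q)^[m] v) = 0 := by rw [dt_comm, h, neg_zero]
  obtain ⟨κ, hκ, hκ', e'⟩ := uni_par hO hv (iterate_uni hO hq hv m) h'
  refine ⟨μ * κ, uq_unit_mul hO hμ ⟨hκ, hκ'⟩, ?_⟩
  rw [e]
  funext k
  rw [e']
  ring

omit [NumberField K] in
private theorem uq_dt_smul (a b : K) (v w : Fin 2 → K) :
    dt (fun k => a * v k) (fun k => b * w k) = a * (b * dt v w) := by
  simp only [dt]; ring

theorem uniq (H : Hyp O F f) {M : ℕ} (hM : 1 ≤ M) (J : Finset (Fin n))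
    {c c' : Fin n → Fin 2 → K} (hc : ∀ i, uni O (c i)) (hc' : ∀ i, uni O (c' i))
    (h : ∀ i, i ∉ J → c' i = c i) (h1 : ∀ j ∈ J, dv O 1 (dt (c j) (c' j)))
    (hp : ∀ j ∈ J, dt ((Tm (fib F j c))^[M] (c j)) (c j) = 0)
    (hp' : ∀ j ∈ J, dt ((Tm (fib F j c'))^[M] (c' j)) (c' j) = 0) :
    ∀ j ∈ J, dt (c j) (c' j) = 0 := by
  have hO := H.unr
  have key : ∀ r : ℕ, 1 ≤ r → ∀ j ∈ J, dv O r (dt (c j) (c' j)) := by
    intro r hr
    induction r, hr using Nat.le_induction with
    | base => exact h1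
    | succ r hr ih =>
      have hκ : ∀ i, ∃ κ : K, (κ ∈ O ∧ ¬ dv O 1 κ) ∧ ∀ k, dv O r (c' i k - κ * c i k) := by
        intro i
        by_cases hi : i ∈ J
        · obtain ⟨κ, a, b, e⟩ := uni_close hO (hc i) (hc' i) hr (ih i hi)
          exact ⟨κ, ⟨a, b⟩, e⟩
        · refine ⟨1, uq_unit_one hO, fun k => ?_⟩
          rw [h i hi, one_mul, sub_self]
          exact dv_self_zero r
      choose κ hκ hκc using hκ
      intro j hj
      have hx : ∀ i, uni O (fun k => κ i * c i k) := fun i => (hc i).unit_mul hO (hκ i).1 (hκ i).2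
      have hd := fib_diff H j (x := fun i k => κ i * c i k) (x' := c') (fun i => (hx i).1)
        (fun i => (hc' i).1) (r := r) (fun i k => by
          have := (hκc i k).neg
          rwa [neg_sub] at this)
      have hl' := lam_unit H j hc'
      have hl := lam_unit H j hx
      have hg := good_smul hO (good_fib H j hx) hl'.1 hl'.2
      have hg' := good_smul hO (good_fib H j hc') hl.1 hl.2
      have hdt : dv O r (dt (fun k => κ j * c j k) (c' j)) := by
        have e : dt (fun k => κ j * c j k) (c' j) = κ j * dt (c j) (c' j) := by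
          simp only [dt]; ring
        rw [e]
        exact dv.mul_left (hκ j).1 (ih j hj)
      have hcl := iterate_close hO hg hg' hr hd (hx j) (hc' j) hdt hM
      obtain ⟨μ', hμ', e'⟩ := uq_per hO hl (uq_unit_one hO) (good_fib H j hc') (hc' j) (hp' j hj)
      have hκp := uq_unit_prod hO (Finset.univ.erase j) hκ
      obtain ⟨μ, hμ, e⟩ := uq_per hO (uq_unit_mul hO hl' (uq_unit_pow hO hκp 4)) (hκ j)
        (good_fib H j hc) (hc j) (hp j hj)
      have e2 : (fun k => lam f j c' * fib F j (fun i k => κ i * c i k) k) =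
          fun k => lam f j c' * (∏ i ∈ Finset.univ.erase j, κ i) ^ 4 * fib F j c k := by
        funext k
        rw [fib_smul]
        ring
      have e3 : (fun k => 1 * c' j k) = c' j := by
        funext k
        rw [one_mul]
      rw [e2, e] at hcl
      rw [e3] at e'
      rw [e', uq_dt_smul] at hcl
      exact (dv_unit_mul hO hμ'.1 hμ'.2).1 ((dv_unit_mul hO hμ.1 hμ.2).1 hcl)
  intro j hj
  refine dv_all hO fun r => ?_
  rcases Nat.eq_zero_or_pos r with hr | hr
  · exact (key 1 le_rfl j hj).mono (by omega)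
  · exact key r hr j hj

end Pool.Agent.CYM
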