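import Mathlib
import Pool.Agent.CYM.Defs
import Pool.Agent.CYM.TAlgA
import Pool.Agent.CYM.TAlgB
import Pool.Agent.CYM.VRingA
import Pool.Agent.CYM.VRingB
import Pool.Agent.CYM.Uni
import Pool.Agent.CYM.ResFin
import Pool.Agent.CYM.TGoodA
import Pool.Agent.CYM.TGoodB
import Pool.Agent.CYM.PeriodA
import Pool.Agent.CYM.PeriodB
import Pool.Agent.CYM.FibR
import Pool.Agent.CYM.FibO
import Pool.Agent.CYM.Uniq
import Pool.Agent.CYM.Mv

/-!
Finiteness of the set of special pairs.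
-/

namespace Pool.Agent.CYM

open MvPolynomial

/-- Special pairs: `x_j` is periodic in direction `j` for all `j` in `J` as soon as
`x_J = P_J`. -/
def Spc {K : Type} [Field K] {n : ℕ} (M : ℕ) (F : (Fin n → Fin 5) → K) (J : Finset (Fin n))
    (P : Fin n → Fin 2 → K) : Prop :=
  (∀ i, P i ≠ 0) ∧ ∀ j ∈ J, ∀ x : Fin n → Fin 2 → K, (∀ i ∈ J, x i = P i) →
    ev (Gp M F j) x = 0

/-- Normalised coordinates of a special pair. -/
theorem spec_norm {K : Type} [Field K] [NumberField K] {n : ℕ}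
    {F : (Fin n → Fin 5) → K} {M : ℕ} {J : Finset (Fin n)} {P : Fin n → Fin 2 → K}
    (h : Spc M F J P) {κ : Fin n → K} (hκ : ∀ i, κ i ≠ 0) {x : Fin n → Fin 2 → K}
    (hx : ∀ i ∈ J, x i = fun k => κ i * P i k) :
    ∀ j ∈ J, dt ((Tm (fib F j x))^[M] (x j)) (x j) = 0 := by
  classical
  intro j hj
  rw [← ev_Gp]
  have h1 : x = fun i k => κ i * (fun k => (κ i)⁻¹ * x i k) k := by
    funext i k
    show x i k = κ i * ((κ i)⁻¹ * x i k)
    rw [mul_inv_cancel_left₀ (hκ i)]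
  rw [h1, ev_Gp_smul M F j (fun i k => (κ i)⁻¹ * x i k) hκ]
  refine h.2 j hj _ fun i hi => ?_
  funext k
  rw [hx i hi]
  show (κ i)⁻¹ * (κ i * P i k) = P i k
  rw [inv_mul_cancel_left₀ (hκ i)]

theorem spc_finite {K : Type} [Field K] [NumberField K] {O : ValuationSubring K} {n : ℕ}
    {F : (Fin n → Fin 5) → K} {f : Fin n → Fin 5 → K} (H : Hyp O F f) {M : ℕ} (hM : 1 ≤ M) :
    ∃ Λ : Finset (Finset (Fin n) × (Fin n → Fin 2 → K)), (∀ p ∈ Λ, ∀ i, p.2 i ≠ 0) ∧
      ∀ J P, Spc M F J P → ∃ p ∈ Λ, p.1 = J ∧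
        ∀ j ∈ J, ∃ κ : K, κ ≠ 0 ∧ P j = fun k => κ * p.2 j k := by
  classical
  have hO := H.unr
  obtain ⟨R, hR, hcl⟩ := exists_classes hO
  -- the special pairs with a given signature
  let S : Finset (Fin n) → (Fin n → Fin 2 → K) → Set (Fin n → Fin 2 → K) := fun J ρ =>
    {P | Spc M F J P ∧ ∃ κ : Fin n → K, (∀ i, κ i ≠ 0) ∧ (∀ i, uni O fun k => κ i * P i k) ∧
      ∀ j ∈ J, dv O 1 (dt (fun k => κ j * P j k) (ρ j))}
  let c : Finset (Fin n) × (Fin n → Fin 2 → K) → (Fin n → Fin 2 → K) := fun a =>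
    if h : (S a.1 a.2).Nonempty then h.choose else fun _ => ![1, 0]
  have hc : ∀ a, (S a.1 a.2).Nonempty → c a ∈ S a.1 a.2 := by
    intro a h
    simp only [c, dif_pos h]
    exact h.choose_spec
  have he0 : (![1, 0] : Fin 2 → K) ≠ 0 := by
    intro h
    have := congrFun h 0
    simp at this
  refine ⟨((Finset.univ : Finset (Finset (Fin n))) ×ˢ Fintype.piFinset fun _ => R).image
    fun a => (a.1, c a), ?_, ?_⟩
  · intro p hp i
    obtain ⟨a, -, rfl⟩ := Finset.mem_image.1 hp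
    by_cases h : (S a.1 a.2).Nonempty
    · exact (hc a h).1.1 i
    · simp only [c, dif_neg h]
      exact he0
  · intro J P hP
    have h1 : ∀ i, ∃ κ : K, κ ≠ 0 ∧ uni O fun k => κ * P i k := fun i => exists_uni hO (hP.1 i)
    choose κ hκ hu using h1
    have h2 : ∀ i, ∃ r ∈ R, dv O 1 (dt (fun k => κ i * P i k) r) := fun i => hcl _ (hu i)
    choose ρ hρ hd using h2
    have hPS : P ∈ S J ρ := ⟨hP, κ, hκ, hu, fun j _ => hd j⟩
    have hcS : c (J, ρ) ∈ S J ρ := hc (J, ρ) ⟨P, hPS⟩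
    obtain ⟨hcs, κ', hκ', hu', hd'⟩ := hcS
    refine ⟨(J, c (J, ρ)), ?_, rfl, ?_⟩
    · rw [Finset.mem_image]
      refine ⟨(J, ρ), ?_, rfl⟩
      rw [Finset.mem_product]
      exact ⟨Finset.mem_univ _, Fintype.mem_piFinset.2 fun i => hρ i⟩
    · let v : Fin n → Fin 2 → K := fun i => if i ∈ J then fun k => κ i * P i k else ![1, 0]
      let w : Fin n → Fin 2 → K := fun i =>
        if i ∈ J then fun k => κ' i * c (J, ρ) i k else ![1, 0]
      have hvJ : ∀ i ∈ J, v i = fun k => κ i * P i k := fun i hi => by simp only [v, if_pos hi]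
      have hwJ : ∀ i ∈ J, w i = fun k => κ' i * c (J, ρ) i k := fun i hi => by
        simp only [w, if_pos hi]
      have hv : ∀ i, uni O (v i) := by
        intro i
        by_cases hi : i ∈ J
        · rw [hvJ i hi]; exact hu i
        · simp only [v, if_neg hi]; exact uni_e0 hO
      have hw : ∀ i, uni O (w i) := by
        intro i
        by_cases hi : i ∈ J
        · rw [hwJ i hi]; exact hu' i
        · simp only [w, if_neg hi]; exact uni_e0 hO
      have key := uniq H hM J hv hw (fun i hi => by simp only [v, w, if_neg hi])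
        (fun j hj => by
          have e1 := hd j
          have e2 := hd' j hj
          rw [← hvJ j hj] at e1
          rw [← hwJ j hj] at e2
          have e3 : dv O 1 (dt (ρ j) (w j)) := by
            rw [dt_comm]; exact e2.neg
          exact dv_dt_trans hO (hv j) (hR _ (hρ j)) (hw j) le_rfl e1 e3)
        (spec_norm hP hκ hvJ) (spec_norm hcs hκ' hwJ)
      intro j hj
      obtain ⟨μ, hμ, hμ', h3⟩ := uni_par hO (hv j) (hw j) (key j hj)
      rw [hvJ j hj, hwJ j hj] at h3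
      have hμ0 : μ ≠ 0 := by
        rintro rfl; exact hμ' (dv_self_zero 1)
      refine ⟨(κ j * μ)⁻¹ * κ' j, mul_ne_zero (inv_ne_zero (mul_ne_zero (hκ j) hμ0)) (hκ' j), ?_⟩
      funext k
      have h4 : κ' j * c (J, ρ) j k = μ * (κ j * P j k) := congrFun h3 k
      show P j k = (κ j * μ)⁻¹ * κ' j * c (J, ρ) j k
      rw [mul_assoc, h4]
      field_simp [hκ j, hμ0]

end Pool.Agent.CYM
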