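import Mathlib
import Pool.Agent.CYM.Defs
import Pool.Agent.CYM.FibR
import Pool.Agent.CYM.FibO
import Pool.Agent.CYM.PtsA
import Pool.Agent.CYM.PtsB

/-!
Restriction of polynomials to the double cover.
-/

namespace Pool.Agent.CYM

open MvPolynomial

/-- On `X` every polynomial becomes `A(x) + B(x) y`. -/
theorem split {K : Type} [Field K] {n : ℕ} (F : (Fin n → Fin 5) → K)
    (g : MvPolynomial (Idx n) K) : ∃ A B : MvPolynomial (Fin n × Fin 2) K,
      ∀ (S : Type) [CommRing S] (φ : K →+* S) (x : Fin n → Fin 2 → S) (y : S),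
        y ^ 2 = val (fun m => φ (F m)) x →
          eval₂ φ (pt x y) g = eval₂ φ (fun p => x p.1 p.2) A + eval₂ φ (fun p => x p.1 p.2) B * y := by
  induction g using MvPolynomial.induction_on with
  | C a =>
    refine ⟨C a, 0, ?_⟩
    intro S _ φ x y _
    simp
  | add p q hp hq =>
    obtain ⟨A, B, h⟩ := hp
    obtain ⟨A', B', h'⟩ := hq
    refine ⟨A + A', B + B', ?_⟩
    intro S _ φ x y hy
    rw [eval₂_add, eval₂_add, eval₂_add, h S φ x y hy, h' S φ x y hy]
    ring
  | mul_X p i hp =>
    obtain ⟨A, B, h⟩ := hp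
    cases i with
    | none =>
      refine ⟨B * val (fun m => C (F m)) (gen K n), A, ?_⟩
      intro S _ φ x y hy
      have hv := val_map (eval₂Hom φ (fun p : Fin n × Fin 2 => x p.1 p.2)) (fun m => C (F m))
        (gen K n)
      have e1 : (fun m => (eval₂Hom φ (fun p : Fin n × Fin 2 => x p.1 p.2)) (C (F m))) =
          fun m => φ (F m) := by
        funext m
        simp
      have e2 : (fun (i : Fin n) (k : Fin 2) =>
          (eval₂Hom φ (fun p : Fin n × Fin 2 => x p.1 p.2)) (gen K n i k)) = x := by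
        funext i k
        simp [gen]
      rw [e1, e2, ← hy, coe_eval₂Hom] at hv
      rw [eval₂_mul, eval₂_mul, h S φ x y hy, eval₂_X, ← hv]
      simp only [pt]
      ring
    | some m =>
      refine ⟨A * mono 2 (gen K n) m, B * mono 2 (gen K n) m, ?_⟩
      intro S _ φ x y hy
      have hv := mono_map (eval₂Hom φ (fun p : Fin n × Fin 2 => x p.1 p.2)) 2 (gen K n) m
      have e2 : (fun (i : Fin n) (k : Fin 2) =>
          (eval₂Hom φ (fun p : Fin n × Fin 2 => x p.1 p.2)) (gen K n i k)) = x := by
        funext i k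
        simp [gen]
      rw [e2, coe_eval₂Hom] at hv
      rw [eval₂_mul, eval₂_mul, eval₂_mul, h S φ x y hy, eval₂_X, ← hv]
      simp only [pt]
      ring

/-- A polynomial function vanishing at all points over `K` with prescribed coordinates vanishes at
the points over the algebraic closure. -/
theorem ext_zero {K : Type} [Field K] [Infinite K] {n : ℕ} {h : MvPolynomial (Fin n × Fin 2) K}
    {J : Finset (Fin n)} {c : Fin n → Fin 2 → K}
    (hz : ∀ x : Fin n → Fin 2 → K, (∀ j ∈ J, x j = c j) → ev h x = 0)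
    (x : Fin n → Fin 2 → AlgebraicClosure K) (hx : ∀ j ∈ J, ∀ k, x j k = ac K (c j k)) :
    eval₂ (ac K) (fun p => x p.1 p.2) h = 0 := by
  classical
  set f : Fin n × Fin 2 → MvPolynomial (Fin n × Fin 2) K :=
    fun p => if p.1 ∈ J then C (c p.1 p.2) else X p with hf
  have h0 : bind₁ f h = 0 := by
    apply MvPolynomial.funext
    intro z
    rw [map_zero]
    have h1 : eval z (bind₁ f h) = eval (fun p => eval z (f p)) h :=
      eval₂Hom_bind₁ (RingHom.id K) z f h
    rw [h1]
    have h2 := hz (fun i k => if i ∈ J then c i k else z (i, k)) (by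
      intro j hj
      funext k
      simp [hj])
    rw [← h2]
    congr 1
    congr 1
    funext p
    by_cases hp : p.1 ∈ J
    · simp [hf, hp]
    · simp [hf, hp]
  have h3 : eval₂ (ac K) (fun p => x p.1 p.2) (bind₁ f h) =
      eval₂ (ac K) (fun p => eval₂ (ac K) (fun p => x p.1 p.2) (f p)) h := by
    have := eval₂Hom_bind₁ (ac K) (fun p : Fin n × Fin 2 => x p.1 p.2) f h
    simpa using this
  have h4 : (fun p => eval₂ (ac K) (fun p : Fin n × Fin 2 => x p.1 p.2) (f p)) =
      fun p => x p.1 p.2 := by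
    funext p
    by_cases hp : p.1 ∈ J
    · simp [hf, hp, hx p.1 hp p.2]
    · simp [hf, hp]
  rw [h4, h0, eval₂_zero] at h3
  exact h3.symm

/-- Scaling of homogeneous polynomials. -/
theorem Split_hom_smul {K S : Type} [Field K] [CommRing S] {ι : Type} [Fintype ι] (φ : K →+* S)
    {g : MvPolynomial ι K} {d : ℕ} (hg : g.IsHomogeneous d) (t : S) (y : ι → S) :
    eval₂ φ (t • y) g = t ^ d * eval₂ φ y g := by
  rw [eval₂_eq', eval₂_eq', Finset.mul_sum]
  refine Finset.sum_congr rfl fun m hm => ?_
  have hd : ∑ i, m i = d := by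
    have := hg (mem_support_iff.mp hm)
    rw [← this]
    simp [Finsupp.weight_apply, Finsupp.sum_fintype]
  simp only [Pi.smul_apply, smul_eq_mul, mul_pow, Finset.prod_mul_distrib]
  rw [Finset.prod_pow_eq_pow_sum, hd]
  ring

/-- Homogeneous components. -/
theorem eval₂_smul_sum {K S : Type} [Field K] [CommRing S] {ι : Type} [Fintype ι] (φ : K →+* S)
    (g : MvPolynomial ι K) (t : S) (y : ι → S) :
    eval₂ φ (t • y) g = ∑ d ∈ Finset.range (g.totalDegree + 1),
      t ^ d * eval₂ φ y (homogeneousComponent d g) := by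
  conv_lhs => rw [← sum_homogeneousComponent g]
  rw [eval₂_sum]
  refine Finset.sum_congr rfl fun d _ => ?_
  exact Split_hom_smul φ (homogeneousComponent_isHomogeneous d g) t y

/-- If `g` vanishes on the line spanned by `y`, so do its homogeneous components. -/
theorem comp_zero {K : Type} [Field K] [Infinite K] {ι : Type} [Fintype ι]
    (g : MvPolynomial ι K) (y : ι → K) (h : ∀ t : K, eval (t • y) g = 0) (d : ℕ) (t : K) :
    eval (t • y) (homogeneousComponent d g) = 0 := by
  have h1 : ∀ e : ℕ, eval y (homogeneousComponent e g) = 0 := by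
    set P : Polynomial K := ∑ e ∈ Finset.range (g.totalDegree + 1),
      Polynomial.C (eval y (homogeneousComponent e g)) * Polynomial.X ^ e with hP
    have hP0 : P = 0 := by
      apply Polynomial.funext
      intro s
      rw [hP, Polynomial.eval_finsetSum, Polynomial.eval_zero]
      have h2 := eval₂_smul_sum (RingHom.id K) g s y
      have h3 : eval₂ (RingHom.id K) (s • y) g = 0 := h s
      rw [h3] at h2
      rw [h2]
      refine Finset.sum_congr rfl fun e _ => ?_
      rw [Polynomial.eval_mul, Polynomial.eval_C, Polynomial.eval_pow, Polynomial.eval_X, mul_comm]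
      rfl
    intro e
    by_cases he : e ∈ Finset.range (g.totalDegree + 1)
    · have h4 : P.coeff e = 0 := by rw [hP0, Polynomial.coeff_zero]
      rw [hP, Polynomial.finsetSum_coeff] at h4
      simp only [Polynomial.coeff_C_mul, Polynomial.coeff_X_pow] at h4
      simpa [Finset.sum_ite_eq, he] using h4
    · have : g.totalDegree < e := by
        simp only [Finset.mem_range, not_lt] at he
        omega
      rw [homogeneousComponent_eq_zero _ _ this, map_zero]
  have h5 := Split_hom_smul (RingHom.id K) (homogeneousComponent_isHomogeneous d g) t y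
  have h6 : eval (t • y) (homogeneousComponent d g) =
      t ^ d * eval y (homogeneousComponent d g) := h5
  rw [h6, h1 d, mul_zero]

/-- Criterion for membership in `subv`. -/
theorem mem_subv {K : Type} [Field K] [Infinite K] {n : ℕ} {F : (Fin n → Fin 5) → K}
    {J : Finset (Fin n)} {c : Fin n → Fin 2 → K} {g : MvPolynomial (Idx n) K}
    (h : ∀ (d : ℕ) (A B : MvPolynomial (Fin n × Fin 2) K),
      (∀ (x : Fin n → Fin 2 → K) (y : K), y ^ 2 = val F x →
        eval (pt x y) (homogeneousComponent d g) = ev A x + ev B x * y) →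
      ∀ x : Fin n → Fin 2 → K, (∀ j ∈ J, x j = c j) → ev A x = 0 ∧ ev B x = 0) :
    g ∈ subv F J c := by
  intro x y t hx hy
  rw [eval₂_smul_sum]
  refine Finset.sum_eq_zero fun d _ => ?_
  obtain ⟨A, B, hAB⟩ := split F (homogeneousComponent d g)
  have h1 := h d A B (fun x y hy => hAB K (RingHom.id K) x y hy)
  have hA := ext_zero (h := A) (J := J) (c := c) (fun z hz => (h1 z hz).1) x hx
  have hB := ext_zero (h := B) (J := J) (c := c) (fun z hz => (h1 z hz).2) x hx
  rw [hAB _ (ac K) x y hy, hA, hB]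
  ring

/-- The rational points of `X` with `x_J = c_J`. -/
theorem eval_of_subv {K : Type} [Field K] {n : ℕ} {F : (Fin n → Fin 5) → K}
    {J : Finset (Fin n)} {c : Fin n → Fin 2 → K} {g : MvPolynomial (Idx n) K}
    (hg : g ∈ subv F J c) {x : Fin n → Fin 2 → K} {y : K} (hx : ∀ j ∈ J, x j = c j)
    (hy : y ^ 2 = val F x) (t : K) : eval (t • pt x y) g = 0 := by
  have h1 := hg (fun i k => ac K (x i k)) (ac K y) (ac K t)
    (fun j hj k => by rw [hx j hj]) (by
      rw [val_map, ← hy, map_pow])
  have h2 : (ac K t • pt (fun i k => ac K (x i k)) (ac K y)) =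
      fun l => ac K ((t • pt x y) l) := by
    rw [pt_map]
    funext l
    simp [map_mul]
  rw [h2, eval₂_comp'] at h1
  exact (map_eq_zero _).mp h1

theorem Split_subv_le {K : Type} [Field K] {n : ℕ} {F : (Fin n → Fin 5) → K}
    {J : Finset (Fin n)} {c c' : Fin n → Fin 2 → K}
    (h : ∀ j ∈ J, ∃ κ : K, κ ≠ 0 ∧ c' j = fun k => κ * c j k) : subv F J c' ⊆ subv F J c := by
  classical
  have h' : ∀ j, ∃ κ : K, κ ≠ 0 ∧ (j ∈ J → c' j = fun k => κ * c j k) := by
    intro j
    by_cases hj : j ∈ J
    · obtain ⟨κ, h1, h2⟩ := h j hj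
      exact ⟨κ, h1, fun _ => h2⟩
    · exact ⟨1, one_ne_zero, fun h3 => absurd h3 hj⟩
  choose κ hκ hc using h'
  intro g hg x y t hx hy
  have hpn : (∏ i, ac K (κ i)) ≠ 0 :=
    Finset.prod_ne_zero_iff.mpr fun i _ => by simpa using hκ i
  have h1 := hg (fun i k => ac K (κ i) * x i k) ((∏ i, ac K (κ i)) ^ 2 * y)
    (t * ((∏ i, ac K (κ i)) ^ 2)⁻¹) (by
      intro j hj k
      rw [hx j hj k, hc j hj, map_mul]) (by
      rw [val_smul, mul_pow, hy]
      ring)
  rw [pt_smul, smul_smul, mul_assoc, inv_mul_cancel₀ (pow_ne_zero 2 hpn), mul_one] at h1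
  exact h1

/-- `subv` depends only on the points of the projective line. -/
theorem subv_congr {K : Type} [Field K] {n : ℕ} {F : (Fin n → Fin 5) → K}
    {J : Finset (Fin n)} {c c' : Fin n → Fin 2 → K}
    (h : ∀ j ∈ J, ∃ κ : K, κ ≠ 0 ∧ c' j = fun k => κ * c j k) : subv F J c' = subv F J c := by
  refine Set.Subset.antisymm (Split_subv_le h) (Split_subv_le ?_)
  intro j hj
  obtain ⟨κ, h1, h2⟩ := h j hj
  refine ⟨κ⁻¹, inv_ne_zero h1, ?_⟩
  rw [h2]
  funext k
  rw [inv_mul_cancel_left₀ h1]

end Pool.Agent.CYM
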