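import Mathlib
import Pool.Agent.CYM.Defs
import Pool.Agent.CYM.PtsA
import Pool.Agent.CYM.PtsB
import Pool.Agent.CYM.Split
import Pool.Agent.CYM.Mv
import Pool.Agent.CYM.DensA
import Pool.Agent.CYM.DensB
import Pool.Agent.CYM.Spec

/-!
The polynomials vanishing at the rational points of `X` lying in an open set.
-/

namespace Pool.Agent.CYM

open MvPolynomial Topology

/-- The polynomials vanishing on the lines spanned by the rational points of `X` in `U`. -/
def IU {K L : Type} [Field K] [Field L] (σ : K →+* L) {n : ℕ} (F : (Fin n → Fin 5) → K)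
    (U : Set (Idx n → L)) : Set (MvPolynomial (Idx n) K) :=
  {g | ∀ y : Idx n → K, y ≠ 0 → (∀ h ∈ eqs F, eval y h = 0) → Near σ U y →
    ∀ t : K, eval (t • y) g = 0}

theorem IU_subset {K : Type} [Field K] [NumberField K] {L : Type} [NontriviallyNormedField L]
    {σ : K →+* L} (hσ : DenseRange σ) [ProperSpace L] {n M : ℕ} {F : (Fin n → Fin 5) → K}
    (hF : MvH M F) {U : Set (Idx n → L)} (hU : IsOpen U) {P : Fin n → Fin 2 → K} {t : K}
    (hP : ∀ i, P i ≠ 0) (ht : t ^ 2 = val F P) (hN : Near σ U (pt P t)) :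
    Spc M F Finset.univ P ∨
      ∃ J : Finset (Fin n), J ≠ Finset.univ ∧ Spc M F J P ∧ IU σ F U ⊆ subv F J P := by
  classical
  obtain ⟨I, hI, hG⟩ := exists_max hσ hF hU hP ht hN
  by_cases h0 : I = ∅
  · left
    refine ⟨hP, fun j _ x hx => hG j ?_ x fun i _ => hx i (Finset.mem_univ i)⟩
    rw [h0]; exact Finset.notMem_empty j
  · right
    have hD : Dn2 σ F U P I := hI.resolve_left h0
    refine ⟨Finset.univ \ I, ?_, ⟨hP, ?_⟩, ?_⟩
    · intro h1
      apply h0
      rw [Finset.eq_empty_iff_forall_notMem]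
      intro i hi
      have h2 : i ∈ Finset.univ \ I := by rw [h1]; exact Finset.mem_univ i
      exact (Finset.mem_sdiff.1 h2).2 hi
    · intro j hj x hx
      refine hG j (Finset.mem_sdiff.1 hj).2 x fun i hi => hx i ?_
      rw [Finset.mem_sdiff]; exact ⟨Finset.mem_univ i, hi⟩
    · intro g hg
      refine mem_subv fun d A B hAB x hx => ?_
      refine hD A B ?_ x fun j hj => hx j ?_
      · rintro ⟨x', t'⟩ ⟨h1, h2, h3, h4⟩
        rw [← hAB x' t' h3]
        have h5 : ∀ s : K, eval (s • pt x' t') g = 0 :=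
          hg _ (pt_ne_zero h1 t') (fun h hh => by
            have := pt_mem (F := F) h3 1 h hh
            rwa [one_smul] at this) h4
        have h6 := comp_zero g _ h5 d 1
        rwa [one_smul] at h6
      · rw [Finset.mem_sdiff]; exact ⟨Finset.mem_univ j, hj⟩

end Pool.Agent.CYM
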