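import Mathlib
import Pool.Agent.CYM.Defs
import Pool.Agent.CYM.PtsA
import Pool.Agent.CYM.PtsB
import Pool.Agent.CYM.Split
import Pool.Agent.CYM.Mv
import Pool.Agent.CYM.Spec
import Pool.Agent.CYM.IdealU

/-!
The local ideals of the double cover.
-/

namespace Pool.Agent.CYM

open MvPolynomial Topology

/-- The description of an ideal by finitely many points and subvarieties. -/
def desc {K : Type} [Field K] {n : ℕ} (F : (Fin n → Fin 5) → K) (E : Finset (Idx n → K))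
    (Λ : Finset (Finset (Fin n) × (Fin n → Fin 2 → K))) : Set (MvPolynomial (Idx n) K) :=
  {g | (∀ y ∈ E, ∀ t : K, eval (t • y) g = 0) ∧ ∀ p ∈ Λ, g ∈ subv F p.1 p.2}

/-- The exceptional points. -/
theorem exists_E {K : Type} [Field K] {n : ℕ} (F : (Fin n → Fin 5) → K)
    (Λ : Finset (Finset (Fin n) × (Fin n → Fin 2 → K))) (hΛ : ∀ p ∈ Λ, ∀ i, p.2 i ≠ 0) :
    ∃ E : Finset (Idx n → K), (∀ e ∈ E, e ≠ 0 ∧ ∀ g ∈ eqs F, eval e g = 0) ∧
      ∀ p ∈ Λ, ∀ t : K, t ^ 2 = val F p.2 → pt p.2 t ∈ E := by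
  classical
  have hroot : ∀ (v t : K), t ^ 2 = v ↔
      t ∈ (Polynomial.X ^ 2 - Polynomial.C v : Polynomial K).roots.toFinset := by
    intro v t
    rw [Multiset.mem_toFinset, Polynomial.mem_roots (Polynomial.X_pow_sub_C_ne_zero two_pos v),
      Polynomial.IsRoot.def]
    simp [sub_eq_zero]
  refine ⟨Λ.biUnion fun p => ((Polynomial.X ^ 2 - Polynomial.C (val F p.2) :
    Polynomial K).roots.toFinset).image (pt p.2), ?_, ?_⟩
  · intro e he
    rw [Finset.mem_biUnion] at he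
    obtain ⟨p, hp, he⟩ := he
    rw [Finset.mem_image] at he
    obtain ⟨t, ht, rfl⟩ := he
    rw [← hroot] at ht
    refine ⟨pt_ne_zero (hΛ p hp) t, fun g hg => ?_⟩
    have := pt_mem ht 1 g hg
    rwa [one_smul] at this
  · intro p hp t ht
    rw [Finset.mem_biUnion]
    exact ⟨p, hp, Finset.mem_image_of_mem _ ((hroot _ _).1 ht)⟩

/-- A point whose `x`-coordinates are proportional to those of `p`. -/
theorem pt_par {K : Type} [Field K] {n : ℕ} {F : (Fin n → Fin 5) → K} {x c : Fin n → Fin 2 → K}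
    {t : K} (ht : t ^ 2 = val F x) (h : ∀ j, ∃ κ : K, κ ≠ 0 ∧ x j = fun k => κ * c j k) :
    ∃ (t' κ : K), κ ≠ 0 ∧ t' ^ 2 = val F c ∧ pt x t = κ • pt c t' := by
  choose κ hκ hx using h
  have hxe : x = fun i k => κ i * c i k := by
    funext i
    exact hx i
  have hπ : ∏ i, κ i ≠ 0 := Finset.prod_ne_zero_iff.2 fun i _ => hκ i
  have hπ2 : (∏ i, κ i) ^ 2 ≠ 0 := pow_ne_zero 2 hπ
  refine ⟨t / (∏ i, κ i) ^ 2, (∏ i, κ i) ^ 2, hπ2, ?_, ?_⟩
  · rw [div_pow, ht, hxe, val_smul, div_eq_iff (pow_ne_zero 2 hπ2)]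
    ring
  · rw [← pt_smul, mul_div_cancel₀ _ hπ2, ← hxe]

private theorem final_near {K L : Type} [Field K] [Field L] {σ : K →+* L} {ι : Type}
    {U : Set (ι → L)} {y : ι → K} {κ : K} (hκ : κ ≠ 0) (h : Near σ U (κ • y)) : Near σ U y := by
  obtain ⟨c, hc, hU⟩ := h
  refine ⟨c * σ κ, mul_ne_zero hc ((map_ne_zero σ).2 hκ), ?_⟩
  convert hU using 1
  funext i
  simp only [Pi.smul_apply, sv, smul_eq_mul, map_mul]
  ring

theorem IU_eq {K : Type} [Field K] [NumberField K] {L : Type} [NontriviallyNormedField L]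
    {σ : K →+* L} (hσ : DenseRange σ) [ProperSpace L] {n M : ℕ} {F : (Fin n → Fin 5) → K}
    (hF : MvH M F) {Λ : Finset (Finset (Fin n) × (Fin n → Fin 2 → K))}
    (hΛ : ∀ J P, Spc M F J P → ∃ p ∈ Λ, p.1 = J ∧ ∀ j ∈ J, ∃ κ : K, κ ≠ 0 ∧
      P j = fun k => κ * p.2 j k) {E : Finset (Idx n → K)}
    (hE : ∀ p ∈ Λ, ∀ t : K, t ^ 2 = val F p.2 → pt p.2 t ∈ E)
    {U : Set (Idx n → L)} (hU : IsOpen U) :
    ∃ E' ⊆ E, ∃ Λ' ⊆ Λ, (∀ p ∈ Λ', p.1 ≠ Finset.univ) ∧ IU σ F U = desc F E' Λ' := by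
  classical
  refine ⟨E.filter fun e => ∀ g ∈ IU σ F U, ∀ t : K, eval (t • e) g = 0, Finset.filter_subset _ _,
    Λ.filter fun p => p.1 ≠ Finset.univ ∧ IU σ F U ⊆ subv F p.1 p.2, Finset.filter_subset _ _,
    fun p hp => (Finset.mem_filter.1 hp).2.1, ?_⟩
  apply Set.Subset.antisymm
  · intro g hg
    refine ⟨fun y hy t => ?_, fun p hp => ?_⟩
    · exact (Finset.mem_filter.1 hy).2 g hg t
    · exact (Finset.mem_filter.1 hp).2.2 hg
  · rintro g ⟨hg1, hg2⟩ y hy0 hyX hyN s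
    obtain ⟨x, t, κ, hx, hκ, ht, rfl⟩ := exists_pt hy0 hyX
    have hN := final_near hκ hyN
    rcases IU_subset hσ hF hU hx ht hN with h | ⟨J, hJ, hsp, hsub⟩
    · obtain ⟨p, hp, hp1, hpκ⟩ := hΛ _ _ h
      obtain ⟨t', κ', hκ', ht', hpt⟩ := pt_par ht fun j => hpκ j (Finset.mem_univ j)
      have he : pt p.2 t' ∈ E.filter fun e => ∀ g ∈ IU σ F U, ∀ t : K, eval (t • e) g = 0 := by
        rw [Finset.mem_filter]
        refine ⟨hE p hp t' ht', fun g' hg' r => ?_⟩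
        have := hg' (pt x t) (pt_ne_zero hx t) (fun h hh => by
          have := pt_mem ht 1 h hh
          rwa [one_smul] at this) hN (r / κ')
        rwa [hpt, smul_smul, div_mul_cancel₀ _ hκ'] at this
      have := hg1 _ he (s * κ * κ')
      rwa [← smul_smul, ← hpt, ← smul_smul] at this
    · obtain ⟨p, hp, hp1, hpκ⟩ := hΛ _ _ hsp
      have hcong : subv F J x = subv F J p.2 := subv_congr hpκ
      have hp' : p ∈ Λ.filter fun p => p.1 ≠ Finset.univ ∧ IU σ F U ⊆ subv F p.1 p.2 := by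
        rw [Finset.mem_filter]
        refine ⟨hp, by rw [hp1]; exact hJ, ?_⟩
        rw [hp1, ← hcong]
        exact hsub
      have h1 := hg2 p hp'
      rw [hp1, ← hcong] at h1
      have := eval_of_subv h1 (x := x) (y := t) (fun j _ => rfl) ht (s * κ)
      rwa [← smul_smul] at this

private theorem final_mono {K L : Type} [Field K] [Field L] (σ : K →+* L) {n : ℕ}
    (F : (Fin n → Fin 5) → K) {U V : Set (Idx n → L)} (h : V ⊆ U) : IU σ F U ⊆ IU σ F V :=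
  fun _ hg y hy0 hyX hyN => hg y hy0 hyX (by
    obtain ⟨c, hc, hV⟩ := hyN
    exact ⟨c, hc, h hV⟩)

/-- The local ideal is the ideal of the rational points in a small neighbourhood. -/
theorem local_eq {K : Type} [Field K] [NumberField K] {L : Type} [NontriviallyNormedField L]
    {σ : K →+* L} {n : ℕ} {F : (Fin n → Fin 5) → K}
    (hfin : {I | ∃ U : Set (Idx n → L), IsOpen U ∧ I = IU σ F U}.Finite) (x : Idx n → L) :
    ∃ U : Set (Idx n → L), IsOpen U ∧ localIdeal σ (eqs F) x = IU σ F U := by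
  have hS : {I | ∃ U : Set (Idx n → L), IsOpen U ∧ x ∈ U ∧ I = IU σ F U}.Finite :=
    hfin.subset fun I ⟨U, hU, _, hI⟩ => ⟨U, hU, hI⟩
  obtain ⟨I, ⟨U, hU, hxU, rfl⟩, hmax⟩ := hS.exists_maximal
    ⟨IU σ F Set.univ, Set.univ, isOpen_univ, Set.mem_univ _, rfl⟩
  refine ⟨U, hU, Set.Subset.antisymm ?_ ?_⟩
  · rintro f ⟨V, hV, hf⟩
    obtain ⟨V', hV'V, hV'o, hxV'⟩ := mem_nhds_iff.1 hV
    have h1 : IU σ F (U ∩ V') ≤ IU σ F U :=
      hmax ⟨U ∩ V', hU.inter hV'o, ⟨hxU, hxV'⟩, rfl⟩ (final_mono σ F Set.inter_subset_left)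
    apply h1
    intro y hy0 hyX hyN t
    refine hf y hy0 hyX ?_ t
    obtain ⟨c, hc, hcU⟩ := hyN
    exact ⟨c, hc, hV'V hcU.2⟩
  · intro f hf
    exact ⟨U, hU.mem_nhds hxU, fun y hy0 hyX hyN t => hf y hy0 hyX hyN t⟩

theorem final {K : Type} [Field K] [NumberField K] {O : ValuationSubring K} {n : ℕ}
    {F : (Fin n → Fin 5) → K} {f : Fin n → Fin 5 → K} (H : Hyp O F f) :
    ∃ (E : Finset (Idx n → K)) (Λ : Finset (Finset (Fin n) × (Fin n → Fin 2 → K))),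
      (∀ e ∈ E, e ≠ 0 ∧ ∀ g ∈ eqs F, eval e g = 0) ∧ (∀ p ∈ Λ, ∀ i, p.2 i ≠ 0) ∧
      (∀ p ∈ Λ, p.1 ≠ Finset.univ) ∧
      ∀ (L : Type) [NontriviallyNormedField L] [ProperSpace L] (σ : K →+* L), DenseRange σ →
        ∀ x : Idx n → L, ∃ E' ⊆ E, ∃ Λ' ⊆ Λ, localIdeal σ (eqs F) x = desc F E' Λ' := by
  classical
  obtain ⟨M, hM, hper⟩ := period H.unr
  have hF := mvh H hper
  obtain ⟨Λ, hΛ0, hΛ⟩ := spc_finite H hM
  obtain ⟨E, hE0, hE⟩ := exists_E F Λ hΛ0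
  refine ⟨E, Λ.filter fun p => p.1 ≠ Finset.univ, hE0,
    fun p hp => hΛ0 p (Finset.mem_filter.1 hp).1, fun p hp => (Finset.mem_filter.1 hp).2, ?_⟩
  intro L _ _ σ hσ x
  have key : ∀ U : Set (Idx n → L), IsOpen U → ∃ E' ⊆ E, ∃ Λ' ⊆ Λ.filter fun p => p.1 ≠ Finset.univ,
      IU σ F U = desc F E' Λ' := by
    intro U hU
    obtain ⟨E', hE', Λ', hΛ', h1, h2⟩ := IU_eq hσ hF hΛ hE hU
    exact ⟨E', hE', Λ', fun p hp => Finset.mem_filter.2 ⟨hΛ' hp, h1 p hp⟩, h2⟩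
  have hfin : {I | ∃ U : Set (Idx n → L), IsOpen U ∧ I = IU σ F U}.Finite := by
    refine ((Finset.finite_toSet (E.powerset ×ˢ (Λ.filter fun p => p.1 ≠ Finset.univ).powerset)).image
      fun p => desc F p.1 p.2).subset ?_
    rintro I ⟨U, hU, rfl⟩
    obtain ⟨E', hE', Λ', hΛ', h⟩ := key U hU
    exact ⟨(E', Λ'), Finset.mem_coe.2 (Finset.mem_product.2
      ⟨Finset.mem_powerset.2 hE', Finset.mem_powerset.2 hΛ'⟩), h.symm⟩
  obtain ⟨U, hU, hxU⟩ := local_eq hfin x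
  obtain ⟨E', hE', Λ', hΛ', h⟩ := key U hU
  exact ⟨E', hE', Λ', hΛ', hxU.trans h⟩

end Pool.Agent.CYM
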