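import Mathlib
import Pool.Agent.CYM.Defs
import Pool.Agent.CYM.FibR
import Pool.Agent.CYM.NSQ
import Pool.Agent.CYM.Mv
import Pool.Agent.CYM.PtsA
import Pool.Agent.CYM.PtsB
import Pool.Agent.CYM.Split

/-!
Irreducibility of the double cover.
-/

namespace Pool.Agent.CYM

open MvPolynomial

theorem primeX_zero {K : Type} [Field K] [Infinite K] {n : ℕ}
    {A : MvPolynomial (Fin n × Fin 2) K}
    (h : ∀ x : Fin n → Fin 2 → K, (∀ i, x i ≠ 0) → ev A x = 0) : A = 0 := by
  have h1 : A * ∏ i : Fin n, X (i, (0 : Fin 2)) = 0 := by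
    apply MvPolynomial.funext
    intro z
    rw [map_mul, map_prod, map_zero]
    by_cases hz : ∃ i : Fin n, z (i, 0) = 0
    · obtain ⟨i, hi⟩ := hz
      rw [Finset.prod_eq_zero (Finset.mem_univ i) (by rw [eval_X]; exact hi), mul_zero]
    · have h2 : ev A (fun i k => z (i, k)) = 0 :=
        h _ (fun i h0 => hz ⟨i, congrFun h0 0⟩)
      have h3 : eval z A = 0 := h2
      rw [h3, zero_mul]
  rcases mul_eq_zero.1 h1 with h2 | h2
  · exact h2
  · exact absurd h2 (Finset.prod_ne_zero_iff.2 fun i _ => X_ne_zero _)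

theorem primeX_restr {K : Type} [Field K] {n : ℕ} (h : MvPolynomial (Fin n × Fin 2) K)
    (j : Fin n) (x : Fin n → Fin 2 → K) : ∃ h' : MvPolynomial (Fin 2) K,
      ∀ s : Fin 2 → K, eval s h' = ev h (Function.update x j s) := by
  refine ⟨eval₂ C (fun p : Fin n × Fin 2 => if p.1 = j then X p.2 else C (x p.1 p.2)) h, ?_⟩
  intro s
  induction h using MvPolynomial.induction_on with
  | C a => simp [ev]
  | add p q hp hq => rw [eval₂_add, map_add, hp, hq, ev, ev, ev, map_add]
  | mul_X p i hp =>
    rw [eval₂_mul, map_mul, hp, eval₂_X, ev, ev, map_mul, eval_X]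
    congr 1
    by_cases hi : i.1 = j
    · subst hi
      simp
    · simp [hi]

/-- `F` is not a square of a rational function. -/
theorem nsqF {K : Type} [Field K] [Infinite K] {n M : ℕ} {F : (Fin n → Fin 5) → K}
    (hF : MvH M F) (j : Fin n) {A B : MvPolynomial (Fin n × Fin 2) K}
    (h : ∀ x : Fin n → Fin 2 → K, ev A x ^ 2 = ev B x ^ 2 * val F x) : A = 0 ∧ B = 0 := by
  have key : ∀ x : Fin n → Fin 2 → K, (∀ i, x i ≠ 0) → ev A x = 0 ∧ ev B x = 0 := by
    intro x hx
    obtain ⟨A', hA'⟩ := primeX_restr A j x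
    obtain ⟨B', hB'⟩ := primeX_restr B j x
    have h1 : A' ^ 2 = B' ^ 2 * qp (fib F j x) := by
      apply MvPolynomial.funext
      intro s
      rw [map_pow, map_mul, map_pow, eval_qp, hA', hB', qf_fib]
      exact h _
    obtain ⟨h2, h3⟩ := hF.nsq x j hx A' B' h1
    have e1 := hA' (x j)
    have e2 := hB' (x j)
    rw [Function.update_eq_self, h2, map_zero] at e1
    rw [Function.update_eq_self, h3, map_zero] at e2
    exact ⟨e1.symm, e2.symm⟩
  exact ⟨primeX_zero fun x hx => (key x hx).1, primeX_zero fun x hx => (key x hx).2⟩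

theorem primeX_coeff {S : Type} [Field S] [Infinite S] {N : ℕ} {c : ℕ → S}
    (h : ∀ t : S, ∑ e ∈ Finset.range N, t ^ e * c e = 0) {d : ℕ} (hd : d ∈ Finset.range N) :
    c d = 0 := by
  have h1 : (∑ e ∈ Finset.range N, Polynomial.C (c e) * Polynomial.X ^ e : Polynomial S) = 0 := by
    apply Polynomial.funext
    intro t
    rw [Polynomial.eval_finsetSum, Polynomial.eval_zero, ← h t]
    refine Finset.sum_congr rfl fun e _ => ?_
    rw [Polynomial.eval_mul, Polynomial.eval_C, Polynomial.eval_pow, Polynomial.eval_X, mul_comm]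
  have h2 := congrArg (fun p => Polynomial.coeff p d) h1
  simp only [Polynomial.finsetSum_coeff, Polynomial.coeff_C_mul_X_pow, Polynomial.coeff_zero] at h2
  rw [Finset.sum_ite_eq, if_pos hd] at h2
  exact h2

/-- The ideal generated by `eqs F` consists of the polynomials vanishing on the cone over `X`. -/
theorem mem_span_eqs {K : Type} [Field K] [Infinite K] {n : ℕ} (hn : 0 < n)
    {F : (Fin n → Fin 5) → K} {g : MvPolynomial (Idx n) K} : g ∈ Ideal.span (eqs F) ↔
      ∀ (x : Fin n → Fin 2 → AlgebraicClosure K) (y : AlgebraicClosure K),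
        y ^ 2 = val (fun m => ac K (F m)) x → eval₂ (ac K) (pt x y) g = 0 := by
  constructor
  · intro hg x y hy
    have h1 : Ideal.span (eqs F) ≤ RingHom.ker (eval₂Hom (ac K) (pt x y)) := by
      rw [Ideal.span_le]
      intro f hf
      exact hf.2 x y hy
    exact h1 hg
  · intro h
    rw [← sum_homogeneousComponent g]
    apply Ideal.sum_mem
    intro d hd
    apply Ideal.subset_span
    refine ⟨⟨d, homogeneousComponent_isHomogeneous d g⟩, ?_⟩
    intro x y hy
    have : Infinite (AlgebraicClosure K) := IsAlgClosed.instInfinite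
    refine primeX_coeff (c := fun e => eval₂ (ac K) (pt x y) (homogeneousComponent e g))
      (N := g.totalDegree + 1) (fun t => ?_) hd
    rw [← eval₂_smul_sum]
    obtain ⟨r, hr⟩ := IsAlgClosed.exists_pow_nat_eq t (n := 2) (by norm_num)
    have hp : ∏ i : Fin n, (if i = ⟨0, hn⟩ then r else 1) = r := by
      rw [Finset.prod_ite_eq' Finset.univ, if_pos (Finset.mem_univ _)]
    have h1 := pt_smul (fun i : Fin n => if i = ⟨0, hn⟩ then r else 1) x y
    have h2 := val_smul (fun m => ac K (F m)) (fun i : Fin n => if i = ⟨0, hn⟩ then r else 1) x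
    rw [hp, hr] at h1
    rw [hp] at h2
    rw [← h1]
    apply h
    rw [h2, ← hy, ← hr]
    ring

theorem ev_valC {K : Type} [Field K] {n : ℕ} (F : (Fin n → Fin 5) → K) (x : Fin n → Fin 2 → K) :
    ev (val (fun m => C (F m)) (gen K n)) x = val F x := by
  have h := val_map (eval (fun p : Fin n × Fin 2 => x p.1 p.2)) (fun m => C (F m)) (gen K n)
  rw [ev, ← h]
  congr 1
  · funext m
    rw [eval_C]
  · funext i k
    rw [gen, eval_X]

theorem span_prime {K : Type} [Field K] [CharZero K] {n M : ℕ} {F : (Fin n → Fin 5) → K}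
    (hF : MvH M F) (hn : 0 < n) : (Ideal.span (eqs F)).IsPrime := by
  rw [Ideal.isPrime_iff]
  constructor
  · intro htop
    have h1 : (1 : MvPolynomial (Idx n) K) ∈ Ideal.span (eqs F) := by
      rw [htop]; exact Submodule.mem_top
    obtain ⟨y, hy⟩ := IsAlgClosed.exists_pow_nat_eq
      (val (fun m => ac K (F m)) (fun _ _ => (0 : AlgebraicClosure K))) (n := 2) (by norm_num)
    have h2 := (mem_span_eqs hn).1 h1 _ y hy
    rw [eval₂_one] at h2
    exact one_ne_zero h2
  · intro f g hfg
    obtain ⟨A₁, B₁, h₁⟩ := split F f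
    obtain ⟨A₂, B₂, h₂⟩ := split F g
    have key : (A₁ ^ 2 - B₁ ^ 2 * val (fun m => C (F m)) (gen K n)) *
        (A₂ ^ 2 - B₂ ^ 2 * val (fun m => C (F m)) (gen K n)) = 0 := by
      apply MvPolynomial.funext
      intro z
      have hev : ∀ A : MvPolynomial (Fin n × Fin 2) K,
          eval z A = ev A (fun i k => z (i, k)) := fun A => rfl
      rw [map_mul, map_sub, map_sub, map_mul, map_mul, map_pow, map_pow, map_pow, map_pow,
        map_zero]
      simp only [hev, ev_valC]
      generalize (fun i k => z (i, k)) = x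
      obtain ⟨y, hy⟩ := IsAlgClosed.exists_pow_nat_eq (ac K (val F x)) (n := 2) (by norm_num)
      have hy1 : y ^ 2 = val (fun m => ac K (F m)) (fun i k => ac K (x i k)) := by
        rw [hy, val_map]
      have hy2 : (-y) ^ 2 = val (fun m => ac K (F m)) (fun i k => ac K (x i k)) := by
        rw [neg_sq, hy1]
      have e1 := (mem_span_eqs hn).1 hfg _ y hy1
      have e2 := (mem_span_eqs hn).1 hfg _ (-y) hy2
      rw [eval₂_mul, h₁ _ _ _ _ hy1, h₂ _ _ _ _ hy1] at e1
      rw [eval₂_mul, h₁ _ _ _ _ hy2, h₂ _ _ _ _ hy2] at e2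
      have hc : ∀ A : MvPolynomial (Fin n × Fin 2) K,
          eval₂ (ac K) (fun p => ac K (x p.1 p.2)) A = ac K (ev A x) :=
        fun A => eval₂_comp' (ac K) _ A
      rw [hc, hc, hc, hc] at e1 e2
      apply (ac K).injective
      rw [map_zero, map_mul, map_sub, map_sub, map_mul, map_mul, map_pow, map_pow, map_pow,
        map_pow, ← hy]
      have e3 := congrArg₂ (· * ·) e1 e2
      simp only [mul_zero] at e3
      rw [← e3]
      ring
    rcases mul_eq_zero.1 key with h | h
    · left
      rw [mem_span_eqs hn]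
      obtain ⟨hA, hB⟩ := nsqF hF ⟨0, hn⟩ (A := A₁) (B := B₁) (fun x => by
        have h3 := congrArg (fun p => ev p x) h
        simp only [map_sub, map_mul, map_pow, map_zero] at h3
        have h4 := ev_valC F x
        rw [ev] at h4
        rw [h4] at h3
        exact sub_eq_zero.1 h3)
      intro x y hy
      rw [h₁ _ _ _ _ hy, hA, hB]
      simp
    · right
      rw [mem_span_eqs hn]
      obtain ⟨hA, hB⟩ := nsqF hF ⟨0, hn⟩ (A := A₂) (B := B₂) (fun x => by
        have h3 := congrArg (fun p => ev p x) h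
        simp only [map_sub, map_mul, map_pow, map_zero] at h3
        have h4 := ev_valC F x
        rw [ev] at h4
        rw [h4] at h3
        exact sub_eq_zero.1 h3)
      intro x y hy
      rw [h₂ _ _ _ _ hy, hA, hB]
      simp

end Pool.Agent.CYM
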